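import Pool.Agent.Helper87.SF.Defs

/-!
# Auxiliary definitions shared by the modules
-/

namespace H87.SF

open H97.PAS Function

/-! ### Uniformly defined predicates -/

/-- Predicates on assignments, in all structures. -/
abbrev SP : Type 1 := ∀ M : Type, AStr M → (ℕ → M) → Prop

/-- The formula `φ` defines `P` in all models of `PA`. -/
def Defines (φ : AFml) (P : SP) : Prop :=
  ∀ (M : Type) (A : AStr M), IsPA A → ∀ v, satA A φ v ↔ P M A v

/-- `P` is defined in all models of `PA` by one formula of `Hier b n`. -/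
def HP (b : Bool) (n : ℕ) (P : SP) : Prop := ∃ φ : AFml, Hier b n φ ∧ Defines φ P

/-- `P` is defined in all models of `PA` by one bounded formula. -/
def DP (P : SP) : Prop := ∃ φ : AFml, IsD0 φ ∧ Defines φ P

/-- `P` depends only on the values of `v_0, …, v_{N-1}` (in models of `PA`). -/
def Dep (N : ℕ) (P : SP) : Prop :=
  ∀ (M : Type) (A : AStr M) (v w : ℕ → M), IsPA A → (∀ k < N, v k = w k) → P M A v → P M A w

/-- Functions given by terms. -/
def TP (f : ∀ M : Type, AStr M → (ℕ → M) → M) : Prop :=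
  ∃ t : Tm, ∀ (M : Type) (A : AStr M) (v : ℕ → M), t.val A v = f M A v

/-- push -/
def cns {M : Type} (x : M) (e : ℕ → M) : ℕ → M
  | 0 => x
  | n + 1 => e n

/-- pop -/
def tl {M : Type} (e : ℕ → M) : ℕ → M := fun n => e (n + 1)

/-- push the first `N` values of `u` -/
def cnsN {M : Type} (N : ℕ) (u e : ℕ → M) : ℕ → M := fun k => if k < N then u k else e (k - N)

/-! ### Substitution of numerals -/

/-- The numeral `n`. -/
def numT : ℕ → Tm
  | 0 => .zero
  | n + 1 => .succ (numT n)

/-- Substitute the numeral `n` for the variables in `D`. -/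
def sbT (D : ℕ → Bool) (n : ℕ) : Tm → Tm
  | .var i => if D i then numT n else .var i
  | .zero => .zero
  | .succ t => .succ (sbT D n t)
  | .add s t => .add (sbT D n s) (sbT D n t)
  | .mul s t => .mul (sbT D n s) (sbT D n t)

/-- Substitute the numeral `n` for the free occurrences of the variables in `D`. -/
def sb (D : ℕ → Bool) (n : ℕ) : AFml → AFml
  | .bot => .bot
  | .atom a => .atom (sbT D n a.1, sbT D n a.2)
  | .imp φ ψ => .imp (sb D n φ) (sb D n ψ)
  | .all i φ => .all i (sb (update D i false) n φ)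

/-- `φ(v_j := n)` -/
def sb1 (j n : ℕ) (φ : AFml) : AFml := sb (fun k => decide (k = j)) n φ

/-! ### Gödel's `β` function and pairs, inside a structure -/

/-- The modulus `1 + (i+1) c`. -/
def mdl {M : Type} (A : AStr M) (c i : M) : M := A.succ (A.mul (A.succ i) c)

/-- `x` is the `i`-th entry of the sequence coded by `(b, c)`. -/
def Beta {M : Type} (A : AStr M) (b c i x : M) : Prop :=
  A.le (A.succ x) (mdl A c i) ∧ ∃ q, A.le q b ∧ A.add (A.mul q (mdl A c i)) x = b

open Classical in
/-- The `i`-th entry of the sequence coded by `(b, c)`, for standard `i`. -/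
noncomputable def bv {M : Type} (A : AStr M) (b c : M) (i : ℕ) : M :=
  if h : ∃ x, Beta A b c (num A i) x then h.choose else A.zero

/-- `p` is the pair `(a, b)`. -/
def PairR {M : Type} (A : AStr M) (p a b : M) : Prop :=
  (A.le (A.succ a) b ∧ p = A.add (A.mul b b) a) ∨
    (A.le b a ∧ p = A.add (A.add (A.mul a a) a) b)

/-! ### The r.e. sets `W_x` -/

/-- `W_x` -/
def W (x : ℕ) : Set ℕ := {n | (prog x n).Dom}

/-- four values -/
def a4 {M : Type} (i x y z : M) : ℕ → M
  | 0 => i
  | 1 => x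
  | 2 => y
  | _ => z

/-- `κ` is a bounded formula which represents `⟨i, y⟩ ∈ W_x`. -/
def IsKK (κ : AFml) : Prop :=
  IsD0 κ ∧ (∀ k, freeA κ k → k < 4) ∧
    ∀ i x y : ℕ, Nat.pair i y ∈ W x ↔ ∃ z, satA std κ (a4 i x y z)

/-- the relation in `A` -/
def KR (κ : AFml) {M : Type} (A : AStr M) (i x y z : M) : Prop := satA A κ (a4 i x y z)

/-! ### The table of the operations -/

/-- The entry of the operation table at place `x`, for the elements `v 0, v 1, …`. -/
def Entry {M : Type} (A : AStr M) (v : ℕ → M) (x : ℕ) : M :=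
  match x.unpair.1 with
  | 0 => A.zero
  | 1 => A.succ (v x.unpair.2)
  | 2 => A.add (v x.unpair.2.unpair.1) (v x.unpair.2.unpair.2)
  | _ => A.mul (v x.unpair.2.unpair.1) (v x.unpair.2.unpair.2)

/-- The list `τ` is an initial segment of the operation table, for the elements
`v 0, v 1, …`. -/
def Facts {M : Type} (A : AStr M) (v : ℕ → M) (τ : List ℕ) : Prop :=
  ∀ i (hi : i < τ.length), v τ[i] = Entry A v i

/-- The list `τ` only mentions `v 0, …, v (N-1)`. -/
def Bd (N : ℕ) (τ : List ℕ) : Prop := τ.length ≤ N ∧ ∀ k ∈ τ, k < N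

/-- `y` codes the number `dOf y` … -/
def dOf (y : ℕ) : ℕ := y.unpair.1

/-- … and the list `tauOf y`. -/
def tauOf (y : ℕ) : List ℕ :=
  (List.range y.unpair.2.unpair.1).map (fun i => Nat.beta y.unpair.2.unpair.2 i)

/-- `y` codes a reasonable pair. -/
def Good (N y : ℕ) : Prop := N ≤ dOf y ∧ Bd (dOf y) (tauOf y)

/-! ### The formulas `G_k` -/

/-- The relation between the place `x` of the operation table and the entry `xk`, in terms of the
sequence coded by `(b, c)`. -/
def EntryR {M : Type} (A : AStr M) (b c o u a1 a2 k : M) : Prop :=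
  ∀ xu, A.le xu b → Beta A b c u xu → ∀ xa, A.le xa b → Beta A b c a1 xa →
    ∀ xb, A.le xb b → Beta A b c a2 xb → ∀ xk, A.le xk b → Beta A b c k xk →
      (o = A.zero ∧ xk = A.zero) ∨ (o = A.succ A.zero ∧ xk = A.succ xu) ∨
      (o = A.succ (A.succ A.zero) ∧ xk = A.add xa xb) ∨
      (A.le (A.succ (A.succ (A.succ A.zero))) o ∧ xk = A.mul xa xb)

/-- Inside `A`: the sequence coded by `(b, c)` satisfies the facts in the list coded by `y`. -/
def G0 {M : Type} (A : AStr M) (y b c : M) : Prop :=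
  ∀ D, A.le D y → ∀ w, A.le w y → PairR A y D w →
  ∀ L, A.le L w → ∀ d, A.le d w → PairR A w L d →
  ∀ d1, A.le d1 d → ∀ d2, A.le d2 d → PairR A d d1 d2 →
    (∀ x, A.le x L → A.le (A.succ x) L →
      ∀ o, A.le o x → ∀ u, A.le u x → PairR A x o u →
      ∀ a1, A.le a1 u → ∀ a2, A.le a2 u → PairR A u a1 a2 →
      ∀ k, A.le k d1 → Beta A d1 d2 x k → EntryR A b c o u a1 a2 k) ∧
    (∀ i, A.le i D → A.le (A.succ i) D → ∀ j, A.le j i → A.le (A.succ j) i →
      ∀ xi, A.le xi b → Beta A b c i xi → ∀ xj, A.le xj b → Beta A b c j xj → xi ≠ xj)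

/-- Inside `A`: the entries of index `< n` of the two sequences agree. -/
def Agree {M : Type} (A : AStr M) (n b c b' c' : M) : Prop :=
  ∀ i, A.le i n → A.le (A.succ i) n → ∀ x, A.le x b → Beta A b c i x → Beta A b' c' i x

/-- The formulas `G_k`. -/
def Gk (κ : AFml) : ℕ → ∀ M : Type, AStr M → M → M → M → Prop
  | 0 => fun _ A x b c => G0 A x b c
  | k + 1 => fun M A x b c => ∀ n u, PairR A x n u → ∀ x' y, PairR A u x' y →
      Gk κ k M A y b c ∧
      ∀ y' z, KR κ A A.zero x' y' z →
        (∀ z', A.le z' (A.add y' z) → ¬ KR κ A (A.succ A.zero) x' A.zero z') →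
        ∀ b' c', Agree A n b c b' c' → ¬ Gk κ k M A y' b' c'

/-- Some code of a sequence which starts with `v_0, …, v_{N-1}` satisfies `G_k(x)`. -/
def GV (κ : AFml) (k N x : ℕ) : SP := fun M A v =>
  ∃ b c : M, (∀ i < N, bv A b c i = v i) ∧ Gk κ k M A (num A x) b c

/-! ### Conditions -/

/-- A condition: a formula about the constants `c_0, …, c_{N-1}`, which denote different
elements. -/
structure Cond where
  /-- the number of constants -/
  N : ℕ
  /-- the formula -/
  φ : AFml
  /-- its free variables -/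
  free : ∀ k, freeA φ k → k < N

/-- `(A, v)` is a model of the condition `p`. -/
def Cond.Mod (p : Cond) {M : Type} (A : AStr M) (v : ℕ → M) : Prop :=
  IsPA A ∧ satA A p.φ v ∧ ∀ i < p.N, ∀ j < p.N, v i = v j → i = j

/-- `p` is consistent. -/
def Cond.Cons (p : Cond) : Prop := ∃ (M : Type) (A : AStr M) (v : ℕ → M), p.Mod A v

/-- `q` extends `p`. -/
instance : LE Cond := ⟨fun q p => p.N ≤ q.N ∧
  ∀ (M : Type) (A : AStr M) (v : ℕ → M), q.Mod A v → p.Mod A v⟩

/-- All models of `p` satisfy `P`. -/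
def Cond.Sat (p : Cond) (P : SP) : Prop :=
  ∀ (M : Type) (A : AStr M) (v : ℕ → M), p.Mod A v → P M A v

/-- The formula of `p` as a predicate. -/
def Cond.P (p : Cond) : SP := fun _ A v => satA A p.φ v

/-- The sequence `g` of conditions is generic enough to define the model `A`. -/
structure Generic (A : AStr ℕ) (g : ℕ → Cond) : Prop where
  pa : IsPA A
  cons : ∀ i, (g i).Cons
  mono : ∀ i, g (i + 1) ≤ g i
  unb : ∀ N, ∃ i, N ≤ (g i).N
  truth : ∀ (φ : AFml) (f : ℕ → ℕ), satA A φ f →
    ∃ i, (g i).Sat fun _ B v => satA B φ (v ∘ f)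

/-! ### Forcing of finite parts of the jumps -/

/-- The oracle program `e`, on input `x`, outputs `y` after reading exactly the finite part `ρ` of
the oracle. -/
def PhiL (e : ℕ) (ρ : List ℕ) (x y : ℕ) : Prop :=
  y + 1 ∈ prog e (Nat.pair x (Encodable.encode ρ)) ∧
    ∀ t < ρ.length, 0 ∈ prog e (Nat.pair x (Encodable.encode (ρ.take t)))

/-- `φ_i^ρ(i)` halts. -/
def Halts (i : ℕ) (ρ : List ℕ) : Prop := ∃ y, PhiL i ρ i y

/-- `F m p τ`: `p` forces that `τ` is an initial segment of the `m`-th jump of the model. -/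
def F : ℕ → Cond → List ℕ → Prop
  | 0, p, τ => Bd p.N τ ∧ p.Sat fun _ A v => Facts A v τ
  | m + 1, p, τ => ∀ i (hi : i < τ.length),
      (τ[i] = 1 ∧ ∃ ρ, Halts i ρ ∧ F m p ρ) ∨
      (τ[i] = 0 ∧ ∀ q : Cond, q.Cons → q ≤ p → ∀ ρ, Halts i ρ → ¬ F m q ρ)

/-- `q` satisfies the relevant consequences of `r` at level `j`. -/
def Cle (κ : AFml) : ℕ → Cond → Cond → Prop
  | 0, r, q => ∀ τ, F 0 r τ → F 0 q τ
  | j + 1, r, q => ∀ y, r.Sat (fun M A v => ¬ GV κ j r.N y M A v) →
      q.Sat fun M A v => ¬ GV κ j r.N y M A v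

end H87.SF
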