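import Pool.Agent.Helper87.SF.Base
import Pool.Agent.Helper97.PAS.Arith

/-!
# Module M4: Gödel's `β` function in models of `PA`
-/

namespace H87.SF

open H97.PAS Function

variable {M : Type} {A : AStr M}

/-! ### Congruences in commutative semirings -/

/-- `a` and `b` are congruent modulo `m` -/
def CongR {R : Type} [CommSemiring R] (m a b : R) : Prop := ∃ p q : R, a + p * m = b + q * m

section
variable {R : Type} [CommSemiring R]

theorem CongR.mul {m a b a' b' : R} (h : CongR m a b) (h' : CongR m a' b') :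
    CongR m (a * a') (b * b') := by
  obtain ⟨p, q, h⟩ := h
  obtain ⟨p', q', h'⟩ := h'
  refine ⟨a * p' + p * a' + p * p' * m, b * q' + q * b' + q * q' * m, ?_⟩
  calc a * a' + (a * p' + p * a' + p * p' * m) * m = (a + p * m) * (a' + p' * m) := by ring
    _ = (b + q * m) * (b' + q' * m) := by rw [h, h']
    _ = _ := by ring

theorem CongR.add {m a b a' b' : R} (h : CongR m a b) (h' : CongR m a' b') :
    CongR m (a + a') (b + b') := by
  obtain ⟨p, q, h⟩ := h
  obtain ⟨p', q', h'⟩ := h'
  refine ⟨p + p', q + q', ?_⟩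
  calc a + a' + (p + p') * m = (a + p * m) + (a' + p' * m) := by ring
    _ = (b + q * m) + (b' + q' * m) := by rw [h, h']
    _ = _ := by ring

theorem CongR.refl (m a : R) : CongR m a a := ⟨0, 0, rfl⟩

theorem CongR.trans {m a b c : R} (h : CongR m a b) (h' : CongR m b c) : CongR m a c := by
  obtain ⟨p, q, h⟩ := h
  obtain ⟨p', q', h'⟩ := h'
  refine ⟨p + p', q + q', ?_⟩
  calc a + (p + p') * m = (a + p * m) + p' * m := by ring
    _ = (b + p' * m) + q * m := by rw [h]; ring
    _ = _ := by rw [h']; ring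

/-- moduli -/
def mR (c : R) (i : ℕ) : R := ((i : R) + 1) * c + 1

theorem inv_mR (c : R) {i n N : ℕ} (hi : i < n) (hn : n ≤ N)
    (hc : ∀ d : ℕ, 1 ≤ d → d ≤ N → (d : R) ∣ c) : ∃ u, CongR (mR c n) (mR c i * u) 1 := by
  obtain ⟨d, rfl⟩ := Nat.exists_eq_add_of_lt hi
  obtain ⟨e, he⟩ := hc (d + 1) (by omega) (by omega)
  push_cast at he
  refine ⟨((i : R) + d + 1 + 1) ^ 2 * e * (((i : R) + d + 1 + 1) * c), 1,
    (((i : R) + d + 1 + 1) * (i + 1) * e + 1) * (((i : R) + d + 1 + 1) * c), ?_⟩
  simp only [mR]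
  push_cast
  rw [he]
  ring

theorem prod_inv (c : R) {n N : ℕ} (hn : n ≤ N)
    (hc : ∀ d : ℕ, 1 ≤ d → d ≤ N → (d : R) ∣ c) : ∀ k ≤ n,
    ∃ u, CongR (mR c n) ((∏ i ∈ Finset.range k, mR c i) * u) 1 := by
  intro k
  induction k with
  | zero => intro _; exact ⟨1, by simp; exact CongR.refl _ _⟩
  | succ k ih =>
    intro hk
    obtain ⟨u, hu⟩ := ih (by omega)
    obtain ⟨w, hw⟩ := inv_mR c (i := k) (by omega) hn hc
    refine ⟨u * w, ?_⟩
    have := hu.mul hw
    rw [Finset.prod_range_succ]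
    rw [mul_one] at this
    have h2 : (∏ i ∈ Finset.range k, mR c i) * mR c k * (u * w)
      = (∏ i ∈ Finset.range k, mR c i) * u * (mR c k * w) := by ring
    rw [h2]
    exact this

theorem crtR (c : R) (N : ℕ) (hc : ∀ d : ℕ, 1 ≤ d → d ≤ N → (d : R) ∣ c) (v : ℕ → R) :
    ∀ n ≤ N, ∃ b, ∀ i < n, CongR (mR c i) b (v i) := by
  intro n
  induction n with
  | zero => intro _; exact ⟨0, fun i hi => absurd hi (by omega)⟩
  | succ n ih =>
    intro hn
    obtain ⟨b, hb⟩ := ih (by omega)
    obtain ⟨u, hu⟩ := prod_inv c (n := n) (by omega) hc n le_rfl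
    refine ⟨b + (∏ i ∈ Finset.range n, mR c i) * (u * (v n + b * (((n : R) + 1) * c))), ?_⟩
    intro i hi
    rcases Nat.lt_succ_iff_lt_or_eq.1 hi with hi | rfl
    · obtain ⟨p, q, h⟩ := hb i hi
      rw [← Finset.mul_prod_erase _ _ (Finset.mem_range.2 hi)]
      refine ⟨p, q + (∏ i ∈ (Finset.range n).erase i, mR c i) *
        (u * (v n + b * (((n : R) + 1) * c))), ?_⟩
      rw [add_right_comm, h]
      ring
    · have h1 := (CongR.refl (mR c i) b).add (hu.mul (CongR.refl (mR c i)
        (v i + b * (((i : R) + 1) * c))))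
      have h2 : CongR (mR c i) (b + 1 * (v i + b * (((i : R) + 1) * c))) (v i) := by
        refine ⟨0, b, ?_⟩
        simp only [mR]
        ring
      have h3 := h1.trans h2
      rwa [mul_assoc] at h3

end

/-! ### Division with remainder -/

theorem IsPA_div (hA : IsPA A) (m : M) (hm : m ≠ A.zero) : ∀ x, ∃ q r,
    A.add (A.mul q m) r = x ∧ A.le (A.succ r) m := by
  let := hA.commSemiring
  let := hA.linearOrder
  have := hA.isStrictOrderedRing
  have hs : ∀ x : M, A.succ x = x + 1 := fun x => succ_eq hA x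
  apply hA.induct (exF 2 (exF 3 (andF (eqF (.add (.mul x2 x1) x3) x0)
    (exF 4 (eqF (.add (.var 4) (.succ x3)) x1))))) m A.zero A.zero
  · intro x
    simp [Tm.val, AStr.le, par]
  · refine ⟨(0 : M), (0 : M), ?_, ?_⟩
    · change (0 : M) * m + 0 = 0
      simp
    · obtain h | ⟨y, h⟩ := hA.zero_or_succ m
      · exact absurd h hm
      · refine ⟨y, ?_⟩
        change y + A.succ 0 = m
        rw [h, hs, hs]
        ring
  · rintro x ⟨q, r, h1, w, h2⟩
    change q * m + r = x at h1
    change w + A.succ r = m at h2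
    rcases hA.zero_or_succ w with hw | ⟨w', hw⟩
    · refine ⟨q + 1, (0 : M), ?_, ?_⟩
      · change (q + 1) * m + 0 = A.succ x
        have hw' : w = 0 := hw
        rw [hs, ← h1, ← h2, hw', hs]
        ring
      · obtain h | ⟨y, h⟩ := hA.zero_or_succ m
        · exact absurd h hm
        · refine ⟨y, ?_⟩
          change y + A.succ 0 = m
          rw [h, hs, hs]
          ring
    · refine ⟨q, A.succ r, ?_, w', ?_⟩
      · change q * m + A.succ r = A.succ x
        rw [hs, hs, ← h1]
        ring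
      · change w' + A.succ (A.succ r) = m
        rw [← h2, hw, hs, hs, hs]
        ring

theorem IsPA_div_unique (hA : IsPA A) {m q q' r r' : M} (h : A.add (A.mul q m) r = A.add (A.mul q' m) r')
    (hr : A.le (A.succ r) m) (hr' : A.le (A.succ r') m) : r = r' := by
  let := hA.commSemiring
  let := hA.linearOrder
  have := hA.isStrictOrderedRing
  have hs : ∀ x : M, A.succ x = x + 1 := fun x => succ_eq hA x
  have hle : ∀ a b : M, a ≤ b ↔ ∃ z, z + a = b := fun a b => Iff.rfl
  have h0 : ∀ a : M, 0 ≤ a := fun a => (hle 0 a).2 ⟨a, _root_.add_zero a⟩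
  change q * m + r = q' * m + r' at h
  change A.succ r ≤ m at hr
  change A.succ r' ≤ m at hr'
  rw [hs] at hr hr'
  have key : ∀ q q' r r' : M, q * m + r = q' * m + r' → r + 1 ≤ m → r' + 1 ≤ m → ¬ q < q' := by
    intro q q' r r' h hr hr' hq
    obtain ⟨z, hz⟩ := hq.le
    change z + q = q' at hz
    rcases hA.zero_or_succ z with hz0 | ⟨z', hz0⟩
    · have hz0' : z = 0 := hz0
      rw [hz0', _root_.zero_add] at hz
      exact hq.ne hz
    · rw [hs] at hz0
      subst hz0
      subst hz
      have h1 : r = z' * m + m + r' := by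
        have h2 : r + q * m = (z' * m + m + r') + q * m := by
          rw [_root_.add_comm r, h]
          ring
        exact add_right_cancel h2
      have h2 : m ≤ r := by
        rw [h1]
        have h3 := mul_nonneg (h0 z') (h0 m)
        have h4 := h0 r'
        calc m = 0 + m + 0 := by ring
          _ ≤ _ := add_le_add (add_le_add h3 le_rfl) h4
      have : r < r + 1 := lt_add_one r
      exact absurd (lt_of_lt_of_le this (hr.trans h2)) (lt_irrefl _)
  rcases lt_trichotomy q q' with hq | hq | hq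
  · exact absurd hq (key _ _ _ _ h hr hr')
  · subst hq
    exact add_left_cancel h
  · exact absurd hq (key _ _ _ _ h.symm hr' hr)

theorem mdl_ne_zero (hA : IsPA A) (c i : M) : mdl A c i ≠ A.zero := hA.succ_ne_zero _

theorem le_mul_mdl (hA : IsPA A) {q m x b : M} (hm : m ≠ A.zero)
    (h : A.add (A.mul q m) x = b) : A.le q b := by
  obtain h1 | ⟨y, h1⟩ := hA.zero_or_succ m
  · exact absurd h1 hm
  · refine ⟨A.add x (A.mul q y), ?_⟩
    rw [← h, h1, hA.mul_succ, hA.add_comm (A.add (A.mul q y) q) x, hA.add_assoc]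

theorem beta_exists (hA : IsPA A) (b c i : M) : ∃ x, Beta A b c i x := by
  obtain ⟨q, r, h1, h2⟩ := IsPA_div hA (mdl A c i) (mdl_ne_zero hA c i) b
  exact ⟨r, h2, q, le_mul_mdl hA (mdl_ne_zero hA c i) h1, h1⟩

theorem beta_unique (hA : IsPA A) {b c i x y : M} (hx : Beta A b c i x) (hy : Beta A b c i y) :
    x = y := by
  obtain ⟨h1, q, -, h2⟩ := hx
  obtain ⟨h1', q', -, h2'⟩ := hy
  exact IsPA_div_unique hA (h2.trans h2'.symm) h1 h1'

theorem beta_iff (hA : IsPA A) (b c : M) (i : ℕ) (x : M) :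
    Beta A b c (num A i) x ↔ bv A b c i = x := by
  have h := beta_exists hA b c (num A i)
  have hb : Beta A b c (num A i) (bv A b c i) := by
    rw [bv, dif_pos h]
    exact h.choose_spec
  constructor
  · intro hx
    exact beta_unique hA hb hx
  · rintro rfl
    exact hb

theorem beta_le (hA : IsPA A) {b c i x : M} (hx : Beta A b c i x) : A.le x b := by
  obtain ⟨-, q, -, h2⟩ := hx
  exact ⟨_, h2⟩

theorem num_natCast (hA : IsPA A) (n : ℕ) :
    num A n = @Nat.cast M (hA.commSemiring.toNatCast) n := by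
  let := hA.commSemiring
  induction n with
  | zero => exact (Nat.cast_zero (R := M)).symm
  | succ n ih =>
    rw [num_succ, ih, succ_eq hA]
    exact (Nat.cast_succ (R := M) n).symm

/-- every sequence of standard length is coded -/
theorem exists_cod (hA : IsPA A) (N : ℕ) (v : ℕ → M) : ∃ b c, ∀ i < N, bv A b c i = v i := by
  let := hA.commSemiring
  let := hA.linearOrder
  have := hA.isStrictOrderedRing
  have hs : ∀ x : M, A.succ x = x + 1 := fun x => succ_eq hA x
  have hle : ∀ a b : M, a ≤ b ↔ ∃ z, z + a = b := fun a b => Iff.rfl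
  have h0 : ∀ a : M, 0 ≤ a := fun a => (hle 0 a).2 ⟨a, _root_.add_zero a⟩
  set c : M := (N.factorial : M) * (∑ i ∈ Finset.range N, v i + 1) with hcdef
  have hc : ∀ d : ℕ, 1 ≤ d → d ≤ N → (d : M) ∣ c := by
    intro d h1 h2
    exact Dvd.dvd.mul_right (Nat.cast_dvd_cast (Nat.dvd_factorial h1 h2)) _
  have hv : ∀ i < N, v i ≤ c := by
    intro i hi
    have h1 : v i ≤ ∑ i ∈ Finset.range N, v i :=
      Finset.single_le_sum (fun j _ => h0 (v j)) (Finset.mem_range.2 hi)
    have h2 : (1 : M) ≤ (N.factorial : M) := by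
      have := Nat.one_le_iff_ne_zero.2 N.factorial_ne_zero
      calc (1 : M) = ((1 : ℕ) : M) := by simp
        _ ≤ _ := Nat.cast_le.2 this
    calc v i ≤ ∑ i ∈ Finset.range N, v i + 1 := h1.trans (le_add_of_nonneg_right zero_le_one)
      _ ≤ c := le_mul_of_one_le_left (h0 _) h2
  obtain ⟨b, hb⟩ := crtR c N hc v N le_rfl
  refine ⟨b, c, ?_⟩
  intro i hi
  rw [← beta_iff hA]
  have hm : mdl A c (num A i) = mR c i := by
    rw [mdl, hs, hs, num_natCast hA]
    rfl
  obtain ⟨q, r, h1, h2⟩ := IsPA_div hA (mdl A c (num A i)) (mdl_ne_zero hA c (num A i)) b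
  have hlt : A.le (A.succ (v i)) (mdl A c (num A i)) := by
    change A.succ (v i) ≤ mdl A c (num A i)
    rw [hm, hs, mR]
    have h3 : (0 : M) ≤ (i : M) * c := mul_nonneg (h0 _) (h0 _)
    have h4 : ((i : M) + 1) * c + 1 = (i : M) * c + c + 1 := by ring
    rw [h4]
    calc v i + 1 = 0 + v i + 1 := by ring
      _ ≤ _ := add_le_add (add_le_add h3 (hv i hi)) le_rfl
  obtain ⟨p, p', h3⟩ := hb i hi
  have h4 : r = v i := by
    refine IsPA_div_unique hA (q := q + p) (q' := p') ?_ h2 hlt
    rw [hm]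
    rw [hm] at h1
    change (q + p) * mR c i + r = p' * mR c i + v i
    change q * mR c i + r = b at h1
    rw [← h1] at h3
    calc (q + p) * mR c i + r = q * mR c i + r + p * mR c i := by ring
      _ = _ := by rw [h3]; ring
  rw [← h4]
  exact ⟨h2, q, le_mul_mdl hA (mdl_ne_zero hA _ _) h1, h1⟩

/-! ### Numerals -/

theorem nadd (hA : IsPA A) (a b : ℕ) : A.add (num A a) (num A b) = num A (a + b) := by
  induction b with
  | zero => exact hA.add_zero _
  | succ b ih => rw [num_succ, hA.add_succ, ih, ← num_succ, Nat.add_assoc]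

theorem nmul (hA : IsPA A) (a b : ℕ) : A.mul (num A a) (num A b) = num A (a * b) := by
  induction b with
  | zero => exact hA.mul_zero _
  | succ b ih => rw [num_succ, hA.mul_succ, ih, nadd hA, Nat.mul_succ]

theorem nle (hA : IsPA A) (a b : ℕ) : A.le (num A a) (num A b) ↔ a ≤ b := by
  constructor
  · intro h
    obtain ⟨k, hk, h1⟩ := le_num hA h
    rw [num_injective hA h1]
    exact hk
  · intro h
    exact ⟨num A (b - a), by rw [nadd hA, Nat.sub_add_cancel h]⟩

theorem bv_num (hA : IsPA A) (b c i : ℕ) :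
    bv A (num A b) (num A c) i = num A (Nat.beta (Nat.pair b c) i) := by
  rw [← beta_iff hA, Nat.beta, Nat.unpair_pair]
  have hm : mdl A (num A c) (num A i) = num A ((i + 1) * c + 1) := by
    rw [mdl, ← num_succ, nmul hA, ← num_succ]
  simp only
  refine ⟨?_, num A (b / ((i + 1) * c + 1)), ?_, ?_⟩
  · rw [hm, ← num_succ, nle hA]
    exact Nat.mod_lt _ (by omega)
  · rw [nle hA]
    exact Nat.div_le_self _ _
  · rw [hm, nmul hA, nadd hA, Nat.div_add_mod']

theorem pairR_num (hA : IsPA A) (p a b : ℕ) :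
    PairR A (num A p) (num A a) (num A b) ↔ p = Nat.pair a b := by
  rw [PairR, ← num_succ, nle hA, nle hA, nmul hA, nadd hA, nmul hA, nadd hA, nadd hA,
    (num_injective hA).eq_iff, (num_injective hA).eq_iff, Nat.pair]
  split_ifs with h
  · constructor
    · rintro (⟨-, h1⟩ | ⟨h1, -⟩)
      · exact h1
      · omega
    · intro h1
      exact Or.inl ⟨h, h1⟩
  · constructor
    · rintro (⟨h1, -⟩ | ⟨-, h1⟩)
      · omega
      · exact h1
    · intro h1
      exact Or.inr ⟨by omega, h1⟩

/-- the components of a standard pair are standard -/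
theorem pairR_num_left (hA : IsPA A) (p : ℕ) (a b : M) :
    PairR A (num A p) a b ↔ a = num A p.unpair.1 ∧ b = num A p.unpair.2 := by
  constructor
  · intro h
    have hab : (∃ k, a = num A k) ∧ ∃ k, b = num A k := by
      rcases h with ⟨⟨z, hz⟩, h⟩ | ⟨⟨z, hz⟩, h⟩
      · have hb : ∃ k, b = num A k := by
          obtain ⟨k, -, hk⟩ := le_num hA (le_mul_mdl hA (q := b) (m := b) (x := a)
            (b := num A p) (by
              rintro rfl
              rw [hA.add_succ] at hz
              exact hA.succ_ne_zero _ hz) h.symm)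
          exact ⟨k, hk⟩
        obtain ⟨k, -, hk⟩ := le_num hA (x := a) (n := p) ⟨_, h.symm⟩
        exact ⟨⟨k, hk⟩, hb⟩
      · obtain ⟨k, -, hk⟩ := le_num hA (x := b) (n := p) ⟨_, h.symm⟩
        obtain ⟨l, -, hl⟩ := le_num hA (x := a) (n := p)
          ⟨A.add b (A.mul a a), by rw [hA.add_assoc, hA.add_comm, ← h]⟩
        exact ⟨⟨l, hl⟩, ⟨k, hk⟩⟩
    obtain ⟨⟨k, rfl⟩, ⟨l, rfl⟩⟩ := hab
    rw [pairR_num hA] at h
    subst h
    rw [Nat.unpair_pair]
    exact ⟨rfl, rfl⟩
  · rintro ⟨rfl, rfl⟩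
    rw [pairR_num hA, Nat.pair_unpair]

/-- every list of numbers is coded -/
theorem exists_y (D : ℕ) (τ : List ℕ) : ∃ y, dOf y = D ∧ tauOf y = τ := by
  refine ⟨Nat.pair D (Nat.pair τ.length (Nat.unbeta τ)), ?_, ?_⟩
  · simp [dOf]
  · rw [tauOf]
    simp only [Nat.unpair_pair]
    apply List.ext_getElem
    · simp
    · intro i h1 h2
      rw [List.getElem_map, List.getElem_range]
      exact Nat.beta_unbeta_coe τ ⟨i, h2⟩

end H87.SF
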