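import Pool.Agent.Helper87.SF.SubstM
import Pool.Agent.Helper97.PAS.Henkin
import Pool.Agent.Helper97.PAS.Arith

/-!
# Module M3a: Henkin clauses for countermodels
-/

namespace H87.SF

open H97.PAS Function

namespace Cl

open Henkin (lst lst_encode encode_lst encode_cons encode_nil asg_le asg_cons primrec_asg)

/-! ### Codes -/

theorem occ_lt_codeT (t : Tm) (k : ℕ) (h : t.Occ k) : k < codeT t := by
  induction t with
  | var i =>
    have h' : k = i := h
    simp only [codeT]; omega
  | zero => exact absurd h id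
  | succ t ih =>
    have := ih h
    simp only [codeT]; omega
  | add s t ih₁ ih₂ =>
    have h1 : codeT s ≤ Nat.pair (codeT s) (codeT t) := Nat.left_le_pair _ _
    have h2 : codeT t ≤ Nat.pair (codeT s) (codeT t) := Nat.right_le_pair _ _
    simp only [codeT]
    rcases h with h | h
    · have := ih₁ h; omega
    · have := ih₂ h; omega
  | mul s t ih₁ ih₂ =>
    have h1 : codeT s ≤ Nat.pair (codeT s) (codeT t) := Nat.left_le_pair _ _
    have h2 : codeT t ≤ Nat.pair (codeT s) (codeT t) := Nat.right_le_pair _ _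
    simp only [codeT]
    rcases h with h | h
    · have := ih₁ h; omega
    · have := ih₂ h; omega

theorem free_lt_codeA (φ : AFml) (k : ℕ) (h : freeA φ k) : k < codeA φ := by
  induction φ with
  | atom a =>
    have h1 : codeT a.1 ≤ Nat.pair (codeT a.1) (codeT a.2) := Nat.left_le_pair _ _
    have h2 : codeT a.2 ≤ Nat.pair (codeT a.1) (codeT a.2) := Nat.right_le_pair _ _
    simp only [codeA]
    rcases h with h | h
    · have := occ_lt_codeT _ _ h; omega
    · have := occ_lt_codeT _ _ h; omega
  | bot => exact absurd h id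
  | imp φ ψ ih₁ ih₂ =>
    have h1 : codeA φ ≤ Nat.pair (codeA φ) (codeA ψ) := Nat.left_le_pair _ _
    have h2 : codeA ψ ≤ Nat.pair (codeA φ) (codeA ψ) := Nat.right_le_pair _ _
    simp only [codeA]
    rcases h with h | h
    · have := ih₁ h; omega
    · have := ih₂ h; omega
  | all i φ ih =>
    have h2 : codeA φ ≤ Nat.pair i (codeA φ) := Nat.right_le_pair _ _
    have := ih h.2
    simp only [codeA]; omega

theorem codeT_surj (n : ℕ) : ∃ t : Tm, codeT t = n := by
  induction n using Nat.strong_induction_on with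
  | _ n ih =>
    by_cases h0 : n = 0
    · exact ⟨.zero, h0.symm⟩
    obtain ⟨m, hm⟩ : ∃ m, m = (n - 1) / 4 := ⟨_, rfl⟩
    have hu := Nat.pair_unpair m
    have hl : m.unpair.1 ≤ m := Nat.unpair_left_le m
    have hr : m.unpair.2 ≤ m := Nat.unpair_right_le m
    rcases (by omega : n = 4 * m + 1 ∨ n = 4 * m + 2 ∨ n = 4 * m + 3 ∨ n = 4 * m + 4) with
      h | h | h | h
    · exact ⟨.var m, h.symm⟩
    · obtain ⟨t, ht⟩ := ih m (by omega)
      exact ⟨.succ t, by simp only [codeT, ht]; exact h.symm⟩
    · obtain ⟨s, hs⟩ := ih m.unpair.1 (by omega)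
      obtain ⟨t, ht⟩ := ih m.unpair.2 (by omega)
      exact ⟨.add s t, by simp only [codeT, hs, ht, hu]; exact h.symm⟩
    · obtain ⟨s, hs⟩ := ih m.unpair.1 (by omega)
      obtain ⟨t, ht⟩ := ih m.unpair.2 (by omega)
      exact ⟨.mul s t, by simp only [codeT, hs, ht, hu]; exact h.symm⟩

/-- decoding of formulas -/
noncomputable def decA (n : ℕ) : AFml := (codeA_surjective n).choose

theorem codeA_decA (n : ℕ) : codeA (decA n) = n := (codeA_surjective n).choose_spec

theorem decA_codeA (φ : AFml) : decA (codeA φ) = φ := codeA_injective (codeA_decA _)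

/-! ### Constructors on codes -/

/-- variable -/
def cv (i : ℕ) : ℕ := 4 * i + 1
/-- successor -/
def cs (a : ℕ) : ℕ := 4 * a + 2
/-- sum -/
def ca (a b : ℕ) : ℕ := 4 * Nat.pair a b + 3
/-- product -/
def cm (a b : ℕ) : ℕ := 4 * Nat.pair a b + 4
/-- equation -/
def fa (a b : ℕ) : ℕ := 3 * Nat.pair a b + 1
/-- implication -/
def fi (a b : ℕ) : ℕ := 3 * Nat.pair a b + 2
/-- universal quantifier -/
def fl (a b : ℕ) : ℕ := 3 * Nat.pair a b + 3
/-- extension of an assignment -/
def co (i k s : ℕ) : ℕ := Nat.pair (Nat.pair i k) s + 1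

/-- The index of the literal `t = v_i`, `i = codeT t`, with value `k` for `v_i`. -/
def EI (a k sc : ℕ) : ℕ := Nat.pair (fa a (cv a)) (co a k sc)

/-- The code of the induction axiom. -/
def indc (c i : ℕ) : ℕ :=
  fi (fl i (fi (fa (cv i) 0) c))
    (fi (fl i (fi c (fl (c + i + 1) (fi (fa (cv (c + i + 1)) (cs (cv i)))
      (fl i (fi (fa (cv i) (cv (c + i + 1))) c))))))
    (fl i c))

/-- The induction axiom. -/
def indf (φ : AFml) (i : ℕ) : AFml :=
  .imp (.all i (.imp (.atom (.var i, .zero)) φ))
    (.imp (.all i (.imp φ (.all (codeA φ + i + 1)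
      (.imp (.atom (.var (codeA φ + i + 1), .succ (.var i)))
      (.all i (.imp (.atom (.var i, .var (codeA φ + i + 1))) φ))))))
    (.all i φ))

theorem codeA_indf (φ : AFml) (i : ℕ) : codeA (indf φ i) = indc (codeA φ) i := rfl

/-- The basic axioms. -/
def axf : ℕ → AFml
  | 0 => .imp (.atom (.succ (.var 0), .zero)) .bot
  | 1 => .imp (.atom (.succ (.var 0), .succ (.var 1))) (.atom (.var 0, .var 1))
  | 2 => .atom (.add (.var 0) .zero, .var 0)
  | 3 => .atom (.add (.var 0) (.succ (.var 1)), .succ (.add (.var 0) (.var 1)))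
  | 4 => .atom (.mul (.var 0) .zero, .zero)
  | _ => .atom (.mul (.var 0) (.succ (.var 1)), .add (.mul (.var 0) (.var 1)) (.var 0))

/-- definition by cases -/
def axt (k : ℕ → ℕ) (a d : ℕ) : ℕ :=
  if a = 0 then k 0 else if a = 1 then k 1 else if a = 2 then k 2
  else if a = 3 then k 3 else if a = 4 then k 4 else if a = 5 then k 5 else d

/-- The codes of the axioms. -/
def axc (a c i : ℕ) : ℕ := axt (fun n => codeA (axf n)) a (indc c i)

/-- The type of parameters: kind, `a`, `b`, `x`, `y`, `z`, assignment. -/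
abbrev T : Type := ℕ × ℕ × ℕ × ℕ × ℕ × ℕ × ℕ

/-- The structural clauses for the formula with code `c`, the assignment with code `sc`. -/
def st (kind k c sc : ℕ) : List (ℕ × Bool) :=
  if c = 0 then [(Nat.pair c sc, false)]
  else if (c - 1) % 3 = 0 then [(0, true), (0, false)]
  else if (c - 1) % 3 = 1 then
    (if kind = 0 then
      [(Nat.pair c sc, false), (Nat.pair ((c - 1) / 3).unpair.1 sc, false),
        (Nat.pair ((c - 1) / 3).unpair.2 sc, true)]
    else if kind = 1 then
      [(Nat.pair c sc, true), (Nat.pair ((c - 1) / 3).unpair.1 sc, true)]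
    else
      [(Nat.pair c sc, true), (Nat.pair ((c - 1) / 3).unpair.2 sc, false)])
  else
    (if kind = 0 then
      [(Nat.pair c sc, false),
        (Nat.pair ((c - 1) / 3).unpair.2 (co ((c - 1) / 3).unpair.1 k sc), true)]
    else
      (Nat.pair c sc, true) :: (List.range (Nat.pair c sc + 2)).map (fun k' =>
        (Nat.pair ((c - 1) / 3).unpair.2 (co ((c - 1) / 3).unpair.1 k' sc), false)))

/-- The clauses. -/
def cla (p : T) : List (ℕ × Bool) :=
  let kind := p.1
  let a := p.2.1
  let b := p.2.2.1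
  let x := p.2.2.2.1
  let y := p.2.2.2.2.1
  let z := p.2.2.2.2.2.1
  let sc := p.2.2.2.2.2.2
  if kind = 3 then [(Nat.pair (fl a (fi (fa a (cv a)) 0)) sc, false)]
  else if kind = 4 then
    (if x = y then [(0, true), (0, false)] else [(EI a x sc, false), (EI a y sc, false)])
  else if kind = 5 then [(EI 0 x sc, false), (EI 0 x 0, true)]
  else if kind = 6 then [(EI (cv a) (asg (lst sc) a) sc, true)]
  else if kind = 7 then
    [(EI a x sc, false), (EI (cs a) z sc, false), (EI (cs (cv 0)) z (co 0 x 0), true)]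
  else if kind = 8 then
    [(EI a x sc, false), (EI b y sc, false), (EI (ca a b) z sc, false),
      (EI (ca (cv 0) (cv 1)) z (co 0 x (co 1 y 0)), true)]
  else if kind = 9 then
    [(EI a x sc, false), (EI b y sc, false), (EI (cm a b) z sc, false),
      (EI (cm (cv 0) (cv 1)) z (co 0 x (co 1 y 0)), true)]
  else if kind = 10 then
    [(EI a x sc, false), (EI b y sc, false), (Nat.pair (fa a b) sc, decide (x = y))]
  else if kind = 11 then [(Nat.pair (axc a b x) sc, true)]
  else st kind x a sc


/-! ### Computability of the clauses -/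

section Comp

variable {α : Type} [Primcodable α]

theorem pr_pair {f g : α → ℕ} (hf : Primrec f) (hg : Primrec g) :
    Primrec fun p => Nat.pair (f p) (g p) := Primrec₂.natPair.comp hf hg

theorem pr_add {f : α → ℕ} (hf : Primrec f) (n : ℕ) : Primrec fun p => f p + n :=
  Primrec.nat_add.comp hf (Primrec.const n)

theorem pr_mul {f : α → ℕ} (hf : Primrec f) (n : ℕ) : Primrec fun p => n * f p :=
  Primrec.nat_mul.comp (Primrec.const n) hf

theorem pr_cv {f : α → ℕ} (hf : Primrec f) : Primrec fun p => cv (f p) := pr_add (pr_mul hf 4) 1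

theorem pr_cs {f : α → ℕ} (hf : Primrec f) : Primrec fun p => cs (f p) := pr_add (pr_mul hf 4) 2

theorem pr_ca {f g : α → ℕ} (hf : Primrec f) (hg : Primrec g) :
    Primrec fun p => ca (f p) (g p) := pr_add (pr_mul (pr_pair hf hg) 4) 3

theorem pr_cm {f g : α → ℕ} (hf : Primrec f) (hg : Primrec g) :
    Primrec fun p => cm (f p) (g p) := pr_add (pr_mul (pr_pair hf hg) 4) 4

theorem pr_fa {f g : α → ℕ} (hf : Primrec f) (hg : Primrec g) :
    Primrec fun p => fa (f p) (g p) := pr_add (pr_mul (pr_pair hf hg) 3) 1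

theorem pr_fi {f g : α → ℕ} (hf : Primrec f) (hg : Primrec g) :
    Primrec fun p => fi (f p) (g p) := pr_add (pr_mul (pr_pair hf hg) 3) 2

theorem pr_fl {f g : α → ℕ} (hf : Primrec f) (hg : Primrec g) :
    Primrec fun p => fl (f p) (g p) := pr_add (pr_mul (pr_pair hf hg) 3) 3

theorem pr_co {f g h : α → ℕ} (hf : Primrec f) (hg : Primrec g) (hh : Primrec h) :
    Primrec fun p => co (f p) (g p) (h p) := pr_add (pr_pair (pr_pair hf hg) hh) 1

theorem pr_EI {f g h : α → ℕ} (hf : Primrec f) (hg : Primrec g) (hh : Primrec h) :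
    Primrec fun p => EI (f p) (g p) (h p) := pr_pair (pr_fa hf (pr_cv hf)) (pr_co hf hg hh)

theorem pr_ite {β : Type} [Primcodable β] {f : α → ℕ} (hf : Primrec f) (n : ℕ) {g h : α → β}
    (hg : Primrec g) (hh : Primrec h) : Primrec fun p => if f p = n then g p else h p :=
  Primrec.ite (Primrec.eq.comp hf (Primrec.const n)) hg hh

theorem pr_l1 {f : α → ℕ} (hf : Primrec f) {b : α → Bool} (hb : Primrec b) :
    Primrec fun p => [(f p, b p)] := Primrec.list_cons.comp (hf.pair hb) (Primrec.const [])

theorem pr_lc {f : α → ℕ} (hf : Primrec f) (b : Bool) {l : α → List (ℕ × Bool)} (hl : Primrec l) :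
    Primrec fun p => (f p, b) :: l p := Primrec.list_cons.comp (hf.pair (Primrec.const b)) hl

end Comp

theorem pr_indc {α : Type} [Primcodable α] {c i : α → ℕ} (hc : Primrec c) (hi : Primrec i) :
    Primrec fun p => indc (c p) (i p) := by
  have j : Primrec fun p => c p + i p + 1 := pr_add (Primrec.nat_add.comp hc hi) 1
  have z : Primrec fun _ : α => (0 : ℕ) := Primrec.const 0
  unfold indc
  exact pr_fi (pr_fl hi (pr_fi (pr_fa (pr_cv hi) z) hc))
    (pr_fi (pr_fl hi (pr_fi hc (pr_fl j (pr_fi (pr_fa (pr_cv j) (pr_cs (pr_cv hi)))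
      (pr_fl hi (pr_fi (pr_fa (pr_cv hi) (pr_cv j)) hc)))))) (pr_fl hi hc))

theorem pr_axt {α : Type} [Primcodable α] (k : ℕ → ℕ) {a d : α → ℕ} (ha : Primrec a)
    (hd : Primrec d) : Primrec fun p => axt k (a p) (d p) := by
  unfold axt
  exact pr_ite ha 0 (Primrec.const _) (pr_ite ha 1 (Primrec.const _) (pr_ite ha 2 (Primrec.const _)
    (pr_ite ha 3 (Primrec.const _) (pr_ite ha 4 (Primrec.const _) (pr_ite ha 5 (Primrec.const _)
    hd)))))

theorem pr_st {α : Type} [Primcodable α] {kind k c sc : α → ℕ} (hkind : Primrec kind)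
    (hk : Primrec k) (hc : Primrec c) (hsc : Primrec sc) :
    Primrec fun p => st (kind p) (k p) (c p) (sc p) := by
  have e : Primrec fun p => Nat.pair (c p) (sc p) := pr_pair hc hsc
  have c1 : Primrec fun p => c p - 1 := Primrec.nat_sub.comp hc (Primrec.const 1)
  have q : Primrec fun p => (c p - 1) / 3 := Primrec.nat_div.comp c1 (Primrec.const 3)
  have r : Primrec fun p => (c p - 1) % 3 := Primrec.nat_mod.comp c1 (Primrec.const 3)
  have q1 : Primrec fun p => ((c p - 1) / 3).unpair.1 := Primrec.fst.comp (Primrec.unpair.comp q)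
  have q2 : Primrec fun p => ((c p - 1) / 3).unpair.2 := Primrec.snd.comp (Primrec.unpair.comp q)
  unfold st
  refine pr_ite hc 0 (pr_l1 e (Primrec.const _)) (pr_ite r 0 (Primrec.const _)
    (pr_ite r 1 (pr_ite hkind 0 ?_ (pr_ite hkind 1 ?_ ?_)) (pr_ite hkind 0 ?_ ?_)))
  · exact pr_lc e _ (pr_lc (pr_pair q1 hsc) _ (pr_l1 (pr_pair q2 hsc) (Primrec.const _)))
  · exact pr_lc e _ (pr_l1 (pr_pair q1 hsc) (Primrec.const _))
  · exact pr_lc e _ (pr_l1 (pr_pair q2 hsc) (Primrec.const _))
  · exact pr_lc e _ (pr_l1 (pr_pair q2 (pr_co q1 hk hsc)) (Primrec.const _))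
  · refine pr_lc e _ ?_
    apply Primrec.list_map (Primrec.list_range.comp (pr_add e 2))
    exact Primrec.pair (pr_pair (q2.comp Primrec.fst)
      (pr_co (q1.comp Primrec.fst) Primrec.snd (hsc.comp Primrec.fst))) (Primrec.const false)

theorem primrec_cla : Primrec cla := by
  have kind : Primrec fun p : T => p.1 := Primrec.fst
  have a : Primrec fun p : T => p.2.1 := Primrec.fst.comp Primrec.snd
  have t2 : Primrec fun p : T => p.2.2 := Primrec.snd.comp Primrec.snd
  have b : Primrec fun p : T => p.2.2.1 := Primrec.fst.comp t2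
  have t3 : Primrec fun p : T => p.2.2.2 := Primrec.snd.comp t2
  have x : Primrec fun p : T => p.2.2.2.1 := Primrec.fst.comp t3
  have t4 : Primrec fun p : T => p.2.2.2.2 := Primrec.snd.comp t3
  have y : Primrec fun p : T => p.2.2.2.2.1 := Primrec.fst.comp t4
  have t5 : Primrec fun p : T => p.2.2.2.2.2 := Primrec.snd.comp t4
  have z : Primrec fun p : T => p.2.2.2.2.2.1 := Primrec.fst.comp t5
  have sc : Primrec fun p : T => p.2.2.2.2.2.2 := Primrec.snd.comp t5
  have c0 : Primrec fun _ : T => (0 : ℕ) := Primrec.const 0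
  have c1 : Primrec fun _ : T => (1 : ℕ) := Primrec.const 1
  have tr : Primrec fun _ : T => true := Primrec.const true
  have fl' : Primrec fun _ : T => false := Primrec.const false
  have dxy : Primrec fun p : T => decide (p.2.2.2.1 = p.2.2.2.2.1) :=
    (Primrec.eq.comp x y).decide
  have ax : Primrec fun p : T => axc p.2.1 p.2.2.1 p.2.2.2.1 := by
    exact pr_axt _ a (pr_indc b x)
  unfold cla
  refine pr_ite kind 3 ?_ (pr_ite kind 4 ?_ (pr_ite kind 5 ?_ (pr_ite kind 6 ?_
    (pr_ite kind 7 ?_ (pr_ite kind 8 ?_ (pr_ite kind 9 ?_ (pr_ite kind 10 ?_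
    (pr_ite kind 11 ?_ ?_))))))))
  · exact pr_l1 (pr_pair (pr_fl a (pr_fi (pr_fa a (pr_cv a)) c0)) sc) fl'
  · refine Primrec.ite (Primrec.eq.comp x y) (Primrec.const _) ?_
    exact pr_lc (pr_EI a x sc) _ (pr_l1 (pr_EI a y sc) fl')
  · exact pr_lc (pr_EI c0 x sc) _ (pr_l1 (pr_EI c0 x c0) tr)
  · exact pr_l1 (pr_EI (pr_cv a) (primrec_asg.comp sc a) sc) tr
  · exact pr_lc (pr_EI a x sc) _ (pr_lc (pr_EI (pr_cs a) z sc) _
      (pr_l1 (pr_EI (pr_cs (pr_cv c0)) z (pr_co c0 x c0)) tr))
  · exact pr_lc (pr_EI a x sc) _ (pr_lc (pr_EI b y sc) _ (pr_lc (pr_EI (pr_ca a b) z sc) _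
      (pr_l1 (pr_EI (pr_ca (pr_cv c0) (pr_cv c1)) z (pr_co c0 x (pr_co c1 y c0))) tr)))
  · exact pr_lc (pr_EI a x sc) _ (pr_lc (pr_EI b y sc) _ (pr_lc (pr_EI (pr_cm a b) z sc) _
      (pr_l1 (pr_EI (pr_cm (pr_cv c0) (pr_cv c1)) z (pr_co c0 x (pr_co c1 y c0))) tr)))
  · exact pr_lc (pr_EI a x sc) _ (pr_lc (pr_EI b y sc) _ (pr_l1 (pr_pair (pr_fa a b) sc) dxy))
  · exact pr_l1 (pr_pair ax sc) tr
  · exact pr_st kind x a sc

/-! ### The structural clauses -/

theorem st_bot (kind k : ℕ) (sc : ℕ) :
    st kind k (codeA .bot) sc = [(Nat.pair (codeA .bot) sc, false)] := rfl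

theorem st_imp (kind k : ℕ) (φ ψ : AFml) (sc : ℕ) :
    st kind k (codeA (.imp φ ψ)) sc =
      if kind = 0 then
        [(Nat.pair (codeA (.imp φ ψ)) sc, false), (Nat.pair (codeA φ) sc, false),
          (Nat.pair (codeA ψ) sc, true)]
      else if kind = 1 then
        [(Nat.pair (codeA (.imp φ ψ)) sc, true), (Nat.pair (codeA φ) sc, true)]
      else
        [(Nat.pair (codeA (.imp φ ψ)) sc, true), (Nat.pair (codeA ψ) sc, false)] := by
  unfold st
  have h0 : codeA (.imp φ ψ) ≠ 0 := by simp [codeA]
  have h1 : ¬ (codeA (.imp φ ψ) - 1) % 3 = 0 := by simp only [codeA]; omega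
  have h1' : (codeA (.imp φ ψ) - 1) % 3 = 1 := by simp only [codeA]; omega
  have h2 : (codeA (.imp φ ψ) - 1) / 3 = Nat.pair (codeA φ) (codeA ψ) := by
    simp only [codeA]; omega
  rw [if_neg h0, if_neg h1, if_pos h1', h2]
  simp only [Nat.unpair_pair]

theorem st_all (kind k i : ℕ) (φ : AFml) (sc : ℕ) :
    st kind k (codeA (.all i φ)) sc =
      if kind = 0 then
        [(Nat.pair (codeA (.all i φ)) sc, false), (Nat.pair (codeA φ) (co i k sc), true)]
      else
        (Nat.pair (codeA (.all i φ)) sc, true) ::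
          (List.range (Nat.pair (codeA (.all i φ)) sc + 2)).map (fun k' =>
            (Nat.pair (codeA φ) (co i k' sc), false)) := by
  unfold st
  have h0 : codeA (.all i φ) ≠ 0 := by simp [codeA]
  have h1 : ¬ (codeA (.all i φ) - 1) % 3 = 0 := by simp only [codeA]; omega
  have h1' : ¬ (codeA (.all i φ) - 1) % 3 = 1 := by simp only [codeA]; omega
  have h2 : (codeA (.all i φ) - 1) / 3 = Nat.pair i (codeA φ) := by
    simp only [codeA]; omega
  rw [if_neg h0, if_neg h1, if_neg h1', h2]
  simp only [Nat.unpair_pair]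

theorem st_atom (kind k : ℕ) (a : Tm × Tm) (sc : ℕ) :
    st kind k (codeA (.atom a)) sc = [(0, true), (0, false)] := by
  unfold st
  have h0 : codeA (.atom a) ≠ 0 := by simp [codeA]
  have h1 : (codeA (.atom a) - 1) % 3 = 0 := by simp only [codeA]; omega
  rw [if_neg h0, if_pos h1]

/-! ### The structure defined by a valuation -/

theorem co_eq (i k : ℕ) (s : List (ℕ × ℕ)) :
    co i k (Encodable.encode s) = Encodable.encode ((i, k) :: s) := (encode_cons i k s).symm

/-- `X` satisfies all clauses -/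
def OK (X : ℕ → Bool) : Prop := ∀ p : T, ∃ l ∈ cla p, X l.1 = l.2

section Truth

variable {X : ℕ → Bool}

theorem OK.st (hX : OK X) (kind k c sc : ℕ) (hk : kind < 3) :
    ∃ l ∈ st kind k c sc, X l.1 = l.2 := by
  have h := hX (kind, c, 0, k, 0, 0, sc)
  unfold cla at h
  simp only at h
  rwa [if_neg (by omega), if_neg (by omega), if_neg (by omega), if_neg (by omega),
    if_neg (by omega), if_neg (by omega), if_neg (by omega), if_neg (by omega),
    if_neg (by omega)] at h

theorem OK.bot (hX : OK X) (sc : ℕ) : X (Nat.pair (codeA .bot) sc) = false := by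
  have h := hX.st 0 0 (codeA .bot) sc (by norm_num)
  rw [st_bot] at h
  simpa using h

theorem OK.imp (hX : OK X) (φ ψ : AFml) (sc : ℕ) :
    X (Nat.pair (codeA (.imp φ ψ)) sc) = true ↔
      (X (Nat.pair (codeA φ) sc) = true → X (Nat.pair (codeA ψ) sc) = true) := by
  have h0 := hX.st 0 0 (codeA (.imp φ ψ)) sc (by norm_num)
  have h1 := hX.st 1 0 (codeA (.imp φ ψ)) sc (by norm_num)
  have h2 := hX.st 2 0 (codeA (.imp φ ψ)) sc (by norm_num)
  rw [st_imp] at h0 h1 h2
  simp only [if_true, one_ne_zero, if_false, List.mem_cons, List.not_mem_nil, or_false,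
    exists_eq_or_imp, exists_eq_left, OfNat.ofNat_ne_zero, OfNat.ofNat_ne_one] at h0 h1 h2
  generalize X (Nat.pair (codeA (.imp φ ψ)) sc) = a at *
  generalize X (Nat.pair (codeA φ) sc) = b at *
  generalize X (Nat.pair (codeA ψ) sc) = c at *
  revert h0 h1 h2
  cases a <;> cases b <;> cases c <;> simp

theorem OK.all (hX : OK X) (i : ℕ) (φ : AFml) (sc : ℕ) :
    X (Nat.pair (codeA (.all i φ)) sc) = true ↔
      ∀ k, X (Nat.pair (codeA φ) (co i k sc)) = true := by
  have h0 := fun k => hX.st 0 k (codeA (.all i φ)) sc (by norm_num)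
  have h1 := hX.st 1 0 (codeA (.all i φ)) sc (by norm_num)
  simp only [st_all] at h0
  rw [st_all] at h1
  simp only [if_true, one_ne_zero, if_false, List.mem_cons, List.not_mem_nil, or_false,
      exists_eq_or_imp, exists_eq_left, List.mem_map] at h0 h1
  constructor
  · intro h k
    rcases h0 k with h0 | h0
    · rw [h] at h0; exact absurd h0 (by simp)
    · exact h0
  · intro h
    rcases h1 with h1 | ⟨l, ⟨k, _, rfl⟩, h1⟩
    · exact h1
    · simp only at h1
      rw [h k] at h1
      exact absurd h1 (by simp)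

/-- the value of the term with code `a` under `sc` is `k` -/
def Ev (X : ℕ → Bool) (a k sc : ℕ) : Prop := X (EI a k sc) = true

theorem OK.ex_ev (hX : OK X) (t : Tm) (sc : ℕ) : ∃ k, Ev X (codeT t) k sc := by
  have h := hX (3, codeT t, 0, 0, 0, 0, sc)
  unfold cla at h
  simp only [if_true, List.mem_singleton, exists_eq_left] at h
  have e : fl (codeT t) (fi (fa (codeT t) (cv (codeT t))) 0) =
      codeA (.all (codeT t) (.imp (.atom (t, .var (codeT t))) .bot)) := rfl
  rw [e] at h
  have h2 : ¬ ∀ k, X (Nat.pair (codeA (.imp (.atom (t, .var (codeT t))) .bot))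
      (co (codeT t) k sc)) = true := by
    rw [← hX.all, h]; simp
  push Not at h2
  obtain ⟨k, hk⟩ := h2
  refine ⟨k, ?_⟩
  by_contra hc
  apply hk
  rw [hX.imp]
  intro h3
  exact absurd h3 hc

theorem OK.ev_uniq (hX : OK X) {a k k' sc : ℕ} (h : Ev X a k sc) (h' : Ev X a k' sc) :
    k = k' := by
  by_contra hne
  have h2 := hX (4, a, 0, k, k', 0, sc)
  unfold cla at h2
  simp only [Nat.reduceEqDiff, if_false, if_true, if_neg hne,
    List.mem_cons, List.not_mem_nil, or_false, exists_eq_or_imp, exists_eq_left] at h2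
  unfold Ev at h h'
  rw [h, h'] at h2
  simp at h2

theorem OK.zero (hX : OK X) {x sc : ℕ} (h : Ev X 0 x sc) : Ev X 0 x 0 := by
  have h2 := hX (5, 0, 0, x, 0, 0, sc)
  unfold cla at h2
  simp only [Nat.reduceEqDiff, if_false, if_true,
    List.mem_cons, List.not_mem_nil, or_false, exists_eq_or_imp, exists_eq_left] at h2
  unfold Ev at h ⊢
  rw [h] at h2
  simpa using h2

theorem OK.var (hX : OK X) (i sc : ℕ) : Ev X (cv i) (asg (lst sc) i) sc := by
  have h2 := hX (6, i, 0, 0, 0, 0, sc)
  unfold cla at h2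
  simp only [Nat.reduceEqDiff, if_false, if_true,
    List.mem_cons, List.not_mem_nil, or_false, exists_eq_left] at h2
  exact h2

theorem OK.succ (hX : OK X) {a x z sc : ℕ} (h : Ev X a x sc) (h' : Ev X (cs a) z sc) :
    Ev X (cs (cv 0)) z (co 0 x 0) := by
  have h2 := hX (7, a, 0, x, 0, z, sc)
  unfold cla at h2
  simp only [Nat.reduceEqDiff, if_false, if_true,
    List.mem_cons, List.not_mem_nil, or_false, exists_eq_or_imp, exists_eq_left] at h2
  unfold Ev at h h' ⊢
  rw [h, h'] at h2
  simpa using h2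

theorem OK.add (hX : OK X) {a b x y z sc : ℕ} (h : Ev X a x sc) (h1 : Ev X b y sc)
    (h' : Ev X (ca a b) z sc) : Ev X (ca (cv 0) (cv 1)) z (co 0 x (co 1 y 0)) := by
  have h2 := hX (8, a, b, x, y, z, sc)
  unfold cla at h2
  simp only [Nat.reduceEqDiff, if_false, if_true,
    List.mem_cons, List.not_mem_nil, or_false, exists_eq_or_imp, exists_eq_left] at h2
  unfold Ev at h h1 h' ⊢
  rw [h, h1, h'] at h2
  simpa using h2

theorem OK.mul (hX : OK X) {a b x y z sc : ℕ} (h : Ev X a x sc) (h1 : Ev X b y sc)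
    (h' : Ev X (cm a b) z sc) : Ev X (cm (cv 0) (cv 1)) z (co 0 x (co 1 y 0)) := by
  have h2 := hX (9, a, b, x, y, z, sc)
  unfold cla at h2
  simp only [Nat.reduceEqDiff, if_false, if_true,
    List.mem_cons, List.not_mem_nil, or_false, exists_eq_or_imp, exists_eq_left] at h2
  unfold Ev at h h1 h' ⊢
  rw [h, h1, h'] at h2
  simpa using h2

theorem OK.eq (hX : OK X) {a b x y sc : ℕ} (h : Ev X a x sc) (h1 : Ev X b y sc) :
    X (Nat.pair (fa a b) sc) = decide (x = y) := by
  have h2 := hX (10, a, b, x, y, 0, sc)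
  unfold cla at h2
  simp only [Nat.reduceEqDiff, if_false, if_true,
    List.mem_cons, List.not_mem_nil, or_false, exists_eq_or_imp, exists_eq_left] at h2
  unfold Ev at h h1
  rw [h, h1] at h2
  simpa using h2

theorem OK.ax (hX : OK X) (a b x sc : ℕ) : X (Nat.pair (axc a b x) sc) = true := by
  have h2 := hX (11, a, b, x, 0, 0, sc)
  unfold cla at h2
  simp only [Nat.reduceEqDiff, if_false, if_true,
    List.mem_cons, List.not_mem_nil, or_false, exists_eq_left] at h2
  exact h2

/-- The structure read off from `X`. -/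
noncomputable def strX (hX : OK X) : AStr ℕ where
  zero := (hX.ex_ev .zero 0).choose
  succ x := (hX.ex_ev (.succ (.var 0)) (co 0 x 0)).choose
  add x y := (hX.ex_ev (.add (.var 0) (.var 1)) (co 0 x (co 1 y 0))).choose
  mul x y := (hX.ex_ev (.mul (.var 0) (.var 1)) (co 0 x (co 1 y 0))).choose

theorem val_spec (hX : OK X) (t : Tm) (s : List (ℕ × ℕ)) :
    Ev X (codeT t) (t.val (strX hX) (asg s)) (Encodable.encode s) := by
  induction t with
  | var i =>
    have h := hX.var i (Encodable.encode s)
    rw [lst_encode] at h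
    exact h
  | zero =>
    obtain ⟨k, hk⟩ := hX.ex_ev .zero (Encodable.encode s)
    have h1 := hX.ev_uniq (hX.zero hk) (hX.ex_ev .zero 0).choose_spec
    rw [h1] at hk
    exact hk
  | succ t ih =>
    obtain ⟨k, hk⟩ := hX.ex_ev (.succ t) (Encodable.encode s)
    have h1 := hX.ev_uniq (hX.succ ih hk) (hX.ex_ev (.succ (.var 0)) (co 0 _ 0)).choose_spec
    rw [h1] at hk
    exact hk
  | add t u ih₁ ih₂ =>
    obtain ⟨k, hk⟩ := hX.ex_ev (.add t u) (Encodable.encode s)
    have h1 := hX.ev_uniq (hX.add ih₁ ih₂ hk)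
      (hX.ex_ev (.add (.var 0) (.var 1)) (co 0 _ (co 1 _ 0))).choose_spec
    rw [h1] at hk
    exact hk
  | mul t u ih₁ ih₂ =>
    obtain ⟨k, hk⟩ := hX.ex_ev (.mul t u) (Encodable.encode s)
    have h1 := hX.ev_uniq (hX.mul ih₁ ih₂ hk)
      (hX.ex_ev (.mul (.var 0) (.var 1)) (co 0 _ (co 1 _ 0))).choose_spec
    rw [h1] at hk
    exact hk

theorem truth (hX : OK X) (φ : AFml) : ∀ s : List (ℕ × ℕ), satA (strX hX) φ (asg s) ↔
    X (Nat.pair (codeA φ) (Encodable.encode s)) = true := by
  induction φ with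
  | atom a =>
    intro s
    have h := hX.eq (val_spec hX a.1 s) (val_spec hX a.2 s)
    have e : X (Nat.pair (codeA (.atom a)) (Encodable.encode s)) =
      X (Nat.pair (fa (codeT a.1) (codeT a.2)) (Encodable.encode s)) := rfl
    rw [e, h, decide_eq_true_iff]
    exact Iff.rfl
  | bot =>
    intro s
    rw [hX.bot]
    simp [satA, Fml.Sat]
  | imp φ ψ ih₁ ih₂ =>
    intro s
    rw [hX.imp, ← ih₁, ← ih₂]
    exact Iff.rfl
  | all i φ ih =>
    intro s
    rw [hX.all]
    simp only [co_eq, ← ih, asg_cons]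
    exact Iff.rfl

theorem exists_asg (v : ℕ → ℕ) (N : ℕ) : ∃ s : List (ℕ × ℕ), ∀ k < N, asg s k = v k := by
  induction N with
  | zero => exact ⟨[], fun k hk => absurd hk (by omega)⟩
  | succ N ih =>
    obtain ⟨s, hs⟩ := ih
    refine ⟨(N, v N) :: s, fun k hk => ?_⟩
    rw [asg_cons]
    by_cases h : k = N
    · subst h; simp
    · rw [update_of_ne h]; exact hs k (by omega)

/-- everything which is true for all lists is true for all assignments -/
theorem sat_of_code (hX : OK X) (φ : AFml)
    (h : ∀ sc, X (Nat.pair (codeA φ) sc) = true) (v : ℕ → ℕ) : satA (strX hX) φ v := by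
  obtain ⟨s, hs⟩ := exists_asg v (codeA φ)
  rw [satA_congr (strX hX) φ (v := v) (w := asg s) fun k hk => (hs k (free_lt_codeA φ k hk)).symm,
    truth]
  exact h _

end Truth

/-! ### The axioms -/

theorem sat_indf {M : Type} (A : AStr M) (φ : AFml) (i : ℕ) (v : ℕ → M) :
    satA A (indf φ i) v ↔ (satA A φ (update v i A.zero) →
      (∀ x, satA A φ (update v i x) → satA A φ (update v i (A.succ x))) →
      ∀ x, satA A φ (update v i x)) := by
  have key : ∀ x y z : M, satA A φ (update (update (update v i x) (codeA φ + i + 1) y) i z) ↔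
      satA A φ (update v i z) := by
    intro x y z
    refine satA_congr A φ fun k hk => ?_
    have := free_lt_codeA φ k hk
    by_cases h : k = i
    · subst h; simp
    · rw [update_of_ne h, update_of_ne (by omega), update_of_ne h, update_of_ne h]
  have e : satA A (indf φ i) v ↔ ((∀ x, (update v i x i = A.zero → satA A φ (update v i x))) →
      (∀ x, satA A φ (update v i x) → ∀ y,
        update (update v i x) (codeA φ + i + 1) y (codeA φ + i + 1) =
          A.succ (update (update v i x) (codeA φ + i + 1) y i) →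
        ∀ z, update (update (update v i x) (codeA φ + i + 1) y) i z i =
          update (update (update v i x) (codeA φ + i + 1) y) i z (codeA φ + i + 1) →
          satA A φ (update (update (update v i x) (codeA φ + i + 1) y) i z)) →
      ∀ x, satA A φ (update v i x)) := Iff.rfl
  rw [e]
  have hji : codeA φ + i + 1 ≠ i := by omega
  simp only [update_self, key]
  simp only [update_of_ne hji.symm, update_of_ne hji, update_self]
  constructor
  · intro h h0 h1
    refine h (fun x hx => hx ▸ h0) (fun x hx y hy z hz => ?_)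
    rw [hz, hy]
    exact h1 x hx
  · intro h h0 h1
    exact h (h0 _ rfl) (fun x hx => h1 x hx _ rfl _ rfl)

theorem isPA_strX {X : ℕ → Bool} (hX : OK X) : IsPA (strX hX) := by
  have hax : ∀ a b x v, satA (strX hX) (if a < 6 then axf a else indf b x) v := by
    intro a b x v
    apply sat_of_code
    intro sc
    have h := hX.ax a (codeA b) x sc
    unfold axc axt at h
    rcases (by omega : a = 0 ∨ a = 1 ∨ a = 2 ∨ a = 3 ∨ a = 4 ∨ a = 5 ∨ 6 ≤ a) with
      rfl | rfl | rfl | rfl | rfl | rfl | h6
    · simpa using h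
    · simpa using h
    · simpa using h
    · simpa using h
    · simpa using h
    · simpa using h
    · rw [if_neg (by omega), if_neg (by omega), if_neg (by omega), if_neg (by omega),
        if_neg (by omega), if_neg (by omega)] at h
      rw [if_neg (by omega), codeA_indf]
      exact h
  refine ⟨fun x => ?_, fun x y => ?_, fun x => ?_, fun x y => ?_, fun x => ?_, fun x y => ?_,
    fun φ i v => ?_⟩
  · exact hax 0 .bot 0 (fun _ => x)
  · exact hax 1 .bot 0 (fun k => if k = 0 then x else y)
  · exact hax 2 .bot 0 (fun _ => x)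
  · exact hax 3 .bot 0 (fun k => if k = 0 then x else y)
  · exact hax 4 .bot 0 (fun _ => x)
  · exact hax 5 .bot 0 (fun k => if k = 0 then x else y)
  · exact (sat_indf _ φ i v).1 (hax 6 φ i v)


/-! ### The naming of the elements -/

section Naming

open Henkin (H H_stable H_succ)

variable {M : Type}

/-- The requirement on the element chosen at stage `e`. -/
def Req (A : AStr M) (e : ℕ) (h : ℕ → M) (x : M) : Prop :=
  (∀ k ≤ e, x ≠ h k) ∧ ∀ (i : ℕ) (φ : AFml) (s : List (ℕ × ℕ)),
    e = Nat.pair (codeA (.all i φ)) (Encodable.encode s) →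
    (¬ satA A (.all i φ) (fun j => h (asg s j))) →
    (∃ k ≤ e, ¬ satA A φ (update (fun j => h (asg s j)) i (h k))) ∨
      ¬ satA A φ (update (fun j => h (asg s j)) i x)

theorem exists_req [Infinite M] (A : AStr M) (e : ℕ) (h : ℕ → M) : ∃ x, Req A e h x := by
  classical
  obtain ⟨y, hy⟩ := Infinite.exists_notMem_finset ((Finset.range (e + 1)).image h)
  have hy' : ∀ k ≤ e, y ≠ h k := by
    intro k hk hyk
    apply hy
    rw [Finset.mem_image]
    exact ⟨k, Finset.mem_range.mpr (by omega), hyk.symm⟩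
  by_cases hex : ∃ (i : ℕ) (φ : AFml) (s : List (ℕ × ℕ)),
      e = Nat.pair (codeA (.all i φ)) (Encodable.encode s) ∧
      ¬ satA A (.all i φ) (fun j => h (asg s j))
  · obtain ⟨i, φ, s, he, hsat⟩ := hex
    have huniq : ∀ (i' : ℕ) (φ' : AFml) (s' : List (ℕ × ℕ)),
        e = Nat.pair (codeA (.all i' φ')) (Encodable.encode s') → i' = i ∧ φ' = φ ∧ s' = s := by
      intro i' φ' s' he'
      rw [he, Nat.pair_eq_pair] at he'
      have h1 := codeA_injective he'.1
      have h2 := Encodable.encode_injective he'.2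
      injection h1 with h3 h4
      exact ⟨h3.symm, h4.symm, h2.symm⟩
    have hx : ∃ x, ¬ satA A φ (update (fun j => h (asg s j)) i x) := by
      by_contra hcon
      push Not at hcon
      exact hsat hcon
    obtain ⟨x, hx⟩ := hx
    by_cases hk : ∃ k ≤ e, x = h k
    · obtain ⟨k, hk, rfl⟩ := hk
      refine ⟨y, hy', ?_⟩
      intro i' φ' s' he' _
      obtain ⟨rfl, rfl, rfl⟩ := huniq i' φ' s' he'
      exact Or.inl ⟨k, hk, hx⟩
    · push Not at hk
      refine ⟨x, hk, ?_⟩
      intro i' φ' s' he' _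
      obtain ⟨rfl, rfl, rfl⟩ := huniq i' φ' s' he'
      exact Or.inr hx
  · refine ⟨y, hy', ?_⟩
    intro i φ s he hs
    exact absurd ⟨i, φ, s, he, hs⟩ hex

/-- `c` names enough elements -/
def Naming (A : AStr M) (c : ℕ → M) : Prop :=
  Injective c ∧ ∀ (i : ℕ) (φ : AFml) (s : List (ℕ × ℕ)),
    (¬ satA A (.all i φ) (fun j => c (asg s j))) →
    ∃ k ≤ Nat.pair (codeA (.all i φ)) (Encodable.encode s) + 1,
      ¬ satA A φ (update (fun j => c (asg s j)) i (c k))

theorem exists_naming [Infinite M] (A : AStr M) : ∃ c : ℕ → M, Naming A c := by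
  classical
  choose ch hch using fun (e : ℕ) (h : ℕ → M) => exists_req A e h
  refine ⟨fun n => H A.zero ch n n, ?_, ?_⟩
  · have hlt : ∀ a b, a < b → H A.zero ch a a ≠ H A.zero ch b b := by
      intro a b hab
      obtain ⟨b, rfl⟩ : ∃ b', b = b' + 1 := ⟨b - 1, by omega⟩
      rw [H_succ, ← H_stable A.zero ch a b (by omega)]
      exact ((hch b (H A.zero ch b)).1 a (by omega)).symm
    intro a b hab
    rcases lt_trichotomy a b with h | h | h
    · exact absurd hab (hlt a b h)
    · exact h
    · exact absurd hab.symm (hlt b a h)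
  · intro i φ s hs
    set e := Nat.pair (codeA (.all i φ)) (Encodable.encode s) with he
    have hasg : (fun j => H A.zero ch (asg s j) (asg s j)) = fun j => H A.zero ch e (asg s j) := by
      funext j
      rw [H_stable A.zero ch (asg s j) e]
      exact (asg_le s j).trans (Nat.right_le_pair _ _)
    rw [hasg] at hs ⊢
    rcases (hch e (H A.zero ch e)).2 i φ s he hs with ⟨k, hk, h⟩ | h
    · refine ⟨k, by omega, ?_⟩
      show ¬ satA A φ (update (fun j => H A.zero ch e (asg s j)) i (H A.zero ch k k))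
      rw [← H_stable A.zero ch k e hk]
      exact h
    · refine ⟨e + 1, le_refl _, ?_⟩
      show ¬ satA A φ (update (fun j => H A.zero ch e (asg s j)) i (H A.zero ch (e + 1) (e + 1)))
      rw [H_succ]
      exact h

end Naming

/-! ### The clauses are satisfiable -/

section Sound

variable {M : Type} (A : AStr M) (c : ℕ → M)

open Classical in
/-- The truth function. -/
noncomputable def XA (e : ℕ) : Bool :=
  decide (satA A (decA e.unpair.1) (fun j => c (asg (lst e.unpair.2) j)))

theorem XA_iff (φ : AFml) (s : List (ℕ × ℕ)) :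
    XA A c (Nat.pair (codeA φ) (Encodable.encode s)) = true ↔
      satA A φ (fun j => c (asg s j)) := by
  classical
  unfold XA
  rw [decide_eq_true_iff, Nat.unpair_pair]
  simp only [decA_codeA, lst_encode]

theorem XA_iff' (φ : AFml) (s : List (ℕ × ℕ)) :
    XA A c (Nat.pair (codeA φ) (Encodable.encode s)) = false ↔
      ¬ satA A φ (fun j => c (asg s j)) := by
  rw [← XA_iff, Bool.not_eq_true]

theorem comp_asg_cons (i k : ℕ) (s : List (ℕ × ℕ)) :
    (fun j => c (asg ((i, k) :: s) j)) = update (fun j => c (asg s j)) i (c k) := by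
  rw [asg_cons]
  funext j
  by_cases h : j = i
  · subst h; simp
  · simp [h]

theorem XA_EI (t : Tm) (k : ℕ) (s : List (ℕ × ℕ)) :
    XA A c (EI (codeT t) k (Encodable.encode s)) = true ↔
      t.val A (fun j => c (asg s j)) = c k := by
  have e : EI (codeT t) k (Encodable.encode s) =
      Nat.pair (codeA (.atom (t, .var (codeT t)))) (Encodable.encode ((codeT t, k) :: s)) := by
    rw [← co_eq]; rfl
  rw [e, XA_iff, comp_asg_cons]
  have e2 : satA A (.atom (t, .var (codeT t))) (update (fun j => c (asg s j)) (codeT t) (c k)) ↔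
      t.val A (update (fun j => c (asg s j)) (codeT t) (c k)) =
        update (fun j => c (asg s j)) (codeT t) (c k) (codeT t) := Iff.rfl
  rw [e2, update_self, t.val_congr A (update (fun j => c (asg s j)) (codeT t) (c k))
    (fun j => c (asg s j)) fun j hj => update_of_ne (occ_lt_codeT t j hj).ne _ _]

theorem XA_EI' (t : Tm) (k : ℕ) (s : List (ℕ × ℕ)) :
    XA A c (EI (codeT t) k (Encodable.encode s)) = false ↔
      ¬ t.val A (fun j => c (asg s j)) = c k := by
  rw [← XA_EI, Bool.not_eq_true]

variable {A c}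

theorem sound_st (hc : Naming A c) (kind k a sc : ℕ) : ∃ l ∈ st kind k a sc, XA A c l.1 = l.2 := by
  classical
  obtain ⟨φ, rfl⟩ := codeA_surjective a
  obtain ⟨s, rfl⟩ : ∃ s : List (ℕ × ℕ), Encodable.encode s = sc := ⟨lst sc, encode_lst sc⟩
  cases φ with
  | atom a =>
    rw [st_atom]
    cases h : XA A c 0 with
    | true => exact ⟨(0, true), by simp, h⟩
    | false => exact ⟨(0, false), by simp, h⟩
  | bot =>
    rw [st_bot]
    refine ⟨_, List.mem_singleton_self _, ?_⟩
    simp only
    rw [XA_iff']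
    exact id
  | imp φ ψ =>
    rw [st_imp]
    have h1 := XA_iff A c (.imp φ ψ) s
    have hφ := XA_iff A c φ s
    have hψ := XA_iff A c ψ s
    have e : satA A (.imp φ ψ) (fun j => c (asg s j)) ↔
      (satA A φ (fun j => c (asg s j)) → satA A ψ (fun j => c (asg s j))) := Iff.rfl
    rw [e] at h1
    split
    · by_cases hp : satA A φ (fun j => c (asg s j))
      · by_cases hq : satA A ψ (fun j => c (asg s j))
        · exact ⟨(Nat.pair (codeA ψ) (Encodable.encode s), true), by simp, hψ.mpr hq⟩
        · refine ⟨(Nat.pair (codeA (.imp φ ψ)) (Encodable.encode s), false), by simp, ?_⟩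
          simp only
          rw [← Bool.not_eq_true, h1]
          exact fun h => hq (h hp)
      · refine ⟨(Nat.pair (codeA φ) (Encodable.encode s), false), by simp, ?_⟩
        simp only
        rw [← Bool.not_eq_true, hφ]
        exact hp
    · split
      · by_cases hp : satA A φ (fun j => c (asg s j))
        · exact ⟨(Nat.pair (codeA φ) (Encodable.encode s), true), by simp, hφ.mpr hp⟩
        · exact ⟨(Nat.pair (codeA (.imp φ ψ)) (Encodable.encode s), true), by simp,
            h1.mpr (fun h => absurd h hp)⟩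
      · by_cases hq : satA A ψ (fun j => c (asg s j))
        · exact ⟨(Nat.pair (codeA (.imp φ ψ)) (Encodable.encode s), true), by simp,
            h1.mpr (fun _ => hq)⟩
        · refine ⟨(Nat.pair (codeA ψ) (Encodable.encode s), false), by simp, ?_⟩
          simp only
          rw [← Bool.not_eq_true, hψ]
          exact hq
  | all i φ =>
    rw [st_all]
    have h1 := XA_iff A c (.all i φ) s
    have e : satA A (.all i φ) (fun j => c (asg s j)) ↔
      ∀ x, satA A φ (update (fun j => c (asg s j)) i x) := Iff.rfl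
    split
    · by_cases ha : satA A (.all i φ) (fun j => c (asg s j))
      · refine ⟨(Nat.pair (codeA φ) (co i k (Encodable.encode s)), true), by simp, ?_⟩
        simp only
        rw [co_eq, XA_iff, comp_asg_cons]
        exact e.mp ha (c k)
      · refine ⟨(Nat.pair (codeA (.all i φ)) (Encodable.encode s), false), by simp, ?_⟩
        simp only
        rw [← Bool.not_eq_true, h1]
        exact ha
    · by_cases ha : satA A (.all i φ) (fun j => c (asg s j))
      · exact ⟨(Nat.pair (codeA (.all i φ)) (Encodable.encode s), true), by simp, h1.mpr ha⟩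
      · obtain ⟨k', hk', hk2⟩ := hc.2 i φ s ha
        refine ⟨(Nat.pair (codeA φ) (co i k' (Encodable.encode s)), false), ?_, ?_⟩
        · refine List.mem_cons_of_mem _ (List.mem_map.mpr ⟨k', ?_, rfl⟩)
          rw [List.mem_range]
          omega
        · simp only
          rw [co_eq, XA_iff', comp_asg_cons]
          exact hk2

/-- a clause with three negative literals and a positive one -/
theorem lit4 {X : ℕ → Bool} {a b d e : ℕ}
    (h : X a = true → X b = true → X d = true → X e = true) :
    ∃ l ∈ [(a, false), (b, false), (d, false), (e, true)], X l.1 = l.2 := by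
  simp only [List.mem_cons, List.not_mem_nil, or_false, exists_eq_or_imp, exists_eq_left]
  revert h
  generalize X a = a; generalize X b = b; generalize X d = d; generalize X e = e
  cases a <;> cases b <;> cases d <;> cases e <;> simp

theorem lit3 {X : ℕ → Bool} {a b d : ℕ} {v : Bool}
    (h : X a = true → X b = true → X d = v) :
    ∃ l ∈ [(a, false), (b, false), (d, v)], X l.1 = l.2 := by
  simp only [List.mem_cons, List.not_mem_nil, or_false, exists_eq_or_imp, exists_eq_left]
  revert h
  generalize X a = a; generalize X b = b; generalize X d = d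
  cases a <;> cases b <;> cases d <;> cases v <;> simp

theorem lit2 {X : ℕ → Bool} {a d : ℕ} {v : Bool} (h : X a = true → X d = v) :
    ∃ l ∈ [(a, false), (d, v)], X l.1 = l.2 := by
  simp only [List.mem_cons, List.not_mem_nil, or_false, exists_eq_or_imp, exists_eq_left]
  revert h
  generalize X a = a; generalize X d = d
  cases a <;> cases d <;> cases v <;> simp

theorem lit1 {X : ℕ → Bool} {d : ℕ} {v : Bool} (h : X d = v) :
    ∃ l ∈ [(d, v)], X l.1 = l.2 := by
  simpa using h

theorem sound (hA : IsPA A) (hc : Naming A c) : OK (XA A c) := by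
  classical
  rintro ⟨kind, a, b, x, y, z, sc⟩
  obtain ⟨s, rfl⟩ : ∃ s : List (ℕ × ℕ), Encodable.encode s = sc := ⟨lst sc, encode_lst sc⟩
  unfold cla
  simp only
  split_ifs with h3 h4 hxy h5 h6 h7 h8 h9 h10 h11
  · -- existence
    obtain ⟨t, rfl⟩ := codeT_surj a
    apply lit1
    have e : fl (codeT t) (fi (fa (codeT t) (cv (codeT t))) 0) =
        codeA (.all (codeT t) (.imp (.atom (t, .var (codeT t))) .bot)) := rfl
    rw [e, XA_iff']
    intro h
    have h2 := h (t.val A (fun j => c (asg s j)))
    apply h2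
    have e2 : Fml.Sat (fun (a : Tm × Tm) w => a.1.val A w = a.2.val A w)
        (.atom (t, .var (codeT t))) (update (fun j => c (asg s j)) (codeT t)
          (t.val A (fun j => c (asg s j)))) ↔
        t.val A (update (fun j => c (asg s j)) (codeT t) (t.val A (fun j => c (asg s j)))) =
        update (fun j => c (asg s j)) (codeT t) (t.val A (fun j => c (asg s j))) (codeT t) :=
      Iff.rfl
    rw [e2, update_self, t.val_congr A (update (fun j => c (asg s j)) (codeT t)
      (t.val A (fun j => c (asg s j))))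
      (fun j => c (asg s j)) fun j hj => update_of_ne (occ_lt_codeT t j hj).ne _ _]
  · cases h : XA A c 0 with
    | true => exact ⟨(0, true), by simp, h⟩
    | false => exact ⟨(0, false), by simp, h⟩
  · -- uniqueness
    obtain ⟨t, rfl⟩ := codeT_surj a
    apply lit2
    rw [XA_EI, XA_EI']
    intro h1 h2
    exact hxy (hc.1 (h1.symm.trans h2))
  · -- zero
    apply lit2
    have e : (0 : ℕ) = codeT .zero := rfl
    have e1 : EI 0 x (Encodable.encode s) = EI (codeT .zero) x (Encodable.encode s) := rfl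
    have e2 : EI 0 x 0 = EI (codeT .zero) x (Encodable.encode ([] : List (ℕ × ℕ))) := rfl
    rw [e1, e2, XA_EI, XA_EI]
    exact id
  · -- variables
    apply lit1
    have e1 : cv a = codeT (.var a) := rfl
    rw [e1, XA_EI, lst_encode]
    rfl
  · -- successor
    obtain ⟨t, rfl⟩ := codeT_surj a
    apply lit3
    have e1 : cs (codeT t) = codeT (.succ t) := rfl
    have e2 : cs (cv 0) = codeT (.succ (.var 0)) := rfl
    have e3 : co 0 x 0 = Encodable.encode [(0, x)] := co_eq 0 x []
    rw [e1, e2, e3, XA_EI, XA_EI, XA_EI]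
    intro h1 h2
    simp only [Tm.val] at h2 ⊢
    rw [← h2, h1]
    rfl
  · -- sum
    obtain ⟨t, rfl⟩ := codeT_surj a
    obtain ⟨u, rfl⟩ := codeT_surj b
    apply lit4
    have e1 : ca (codeT t) (codeT u) = codeT (.add t u) := rfl
    have e2 : ca (cv 0) (cv 1) = codeT (.add (.var 0) (.var 1)) := rfl
    have e3 : co 0 x (co 1 y 0) = Encodable.encode [(0, x), (1, y)] := by
      rw [← co_eq, ← co_eq]; rfl
    rw [e1, e2, e3, XA_EI, XA_EI, XA_EI, XA_EI]
    intro h1 h2 h3
    simp only [Tm.val] at h3 ⊢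
    rw [← h3, h1, h2]
    rfl
  · -- product
    obtain ⟨t, rfl⟩ := codeT_surj a
    obtain ⟨u, rfl⟩ := codeT_surj b
    apply lit4
    have e1 : cm (codeT t) (codeT u) = codeT (.mul t u) := rfl
    have e2 : cm (cv 0) (cv 1) = codeT (.mul (.var 0) (.var 1)) := rfl
    have e3 : co 0 x (co 1 y 0) = Encodable.encode [(0, x), (1, y)] := by
      rw [← co_eq, ← co_eq]; rfl
    rw [e1, e2, e3, XA_EI, XA_EI, XA_EI, XA_EI]
    intro h1 h2 h3
    simp only [Tm.val] at h3 ⊢
    rw [← h3, h1, h2]
    rfl
  · -- equations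
    obtain ⟨t, rfl⟩ := codeT_surj a
    obtain ⟨u, rfl⟩ := codeT_surj b
    apply lit3
    have e1 : fa (codeT t) (codeT u) = codeA (.atom (t, u)) := rfl
    rw [e1, XA_EI, XA_EI]
    intro h1 h2
    have h3 := XA_iff A c (.atom (t, u)) s
    have e2 : satA A (.atom (t, u)) (fun j => c (asg s j)) ↔
      t.val A (fun j => c (asg s j)) = u.val A (fun j => c (asg s j)) := Iff.rfl
    rw [e2, h1, h2, hc.1.eq_iff] at h3
    rw [Bool.eq_iff_iff, h3, decide_eq_true_iff]
  · -- axioms
    apply lit1
    obtain ⟨φ, rfl⟩ := codeA_surjective b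
    unfold axc axt
    have key : ∀ ψ : AFml, satA A ψ (fun j => c (asg s j)) →
        XA A c (Nat.pair (codeA ψ) (Encodable.encode s)) = true := fun ψ h => (XA_iff A c ψ s).2 h
    split_ifs
    · exact key _ fun h => hA.succ_ne_zero _ h
    · exact key _ fun h => hA.succ_inj _ _ h
    · exact key _ (hA.add_zero _)
    · exact key _ (hA.add_succ _ _)
    · exact key _ (hA.mul_zero _)
    · exact key _ (hA.mul_succ _ _)
    · rw [← codeA_indf]
      exact key _ ((sat_indf A φ x _).2 (hA.ind φ x _))
  · exact sound_st hc _ _ _ _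

end Sound

/-! ### Universal closure -/

/-- `∀ v_{n-1} … ∀ v_0 φ` -/
def clos (φ : AFml) : ℕ → AFml
  | 0 => φ
  | n + 1 => .all n (clos φ n)

theorem sat_clos {M : Type} (A : AStr M) (φ : AFml) (n : ℕ) : ∀ v : ℕ → M,
    satA A (clos φ n) v ↔ ∀ w : ℕ → M, (∀ k ≥ n, w k = v k) → satA A φ w := by
  induction n with
  | zero =>
    intro v
    constructor
    · intro h w hw
      have : w = v := funext fun k => hw k (Nat.zero_le _)
      rw [this]; exact h
    · intro h; exact h v fun _ _ => rfl
  | succ n ih =>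
    intro v
    have e : satA A (clos φ (n + 1)) v ↔ ∀ x, satA A (clos φ n) (update v n x) := Iff.rfl
    rw [e]
    constructor
    · intro h w hw
      refine (ih _).1 (h (w n)) w fun k hk => ?_
      by_cases hkn : k = n
      · subst hkn; simp
      · rw [update_of_ne hkn]; exact hw k (by omega)
    · intro h x
      refine (ih _).2 fun w hw => h w fun k hk => ?_
      rw [hw k (by omega), update_of_ne (by omega)]

/-- The code of the closure. -/
def closc (c n : ℕ) : ℕ := Nat.rec c (fun k r => fl k r) n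

theorem codeA_clos (φ : AFml) (n : ℕ) : codeA (clos φ n) = closc (codeA φ) n := by
  induction n with
  | zero => rfl
  | succ n ih =>
    have e1 : codeA (clos φ (n + 1)) = fl n (codeA (clos φ n)) := rfl
    have e2 : closc (codeA φ) (n + 1) = fl n (closc (codeA φ) n) := rfl
    rw [e1, e2, ih]

theorem primrec_closc : Primrec fun c : ℕ => closc c c := by
  have h : Primrec₂ fun (c : ℕ) (p : ℕ × ℕ) => fl p.1 p.2 :=
    pr_fl (Primrec.fst.comp Primrec.snd) (Primrec.snd.comp Primrec.snd)
  exact Primrec.nat_rec' Primrec.id Primrec.id h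

/-- all clauses -/
def CC (a m : ℕ) : List (ℕ × Bool) :=
  if m = 0 then [(Nat.pair (closc a a) 0, false)] else cla (Denumerable.ofNat T (m - 1))

theorem computable_CC : Computable₂ CC := by
  have h : Primrec₂ CC := by
    unfold CC
    refine pr_ite Primrec.snd 0 (pr_l1 (pr_pair (primrec_closc.comp Primrec.fst)
      (Primrec.const 0)) (Primrec.const false)) ?_
    exact primrec_cla.comp ((Primrec.ofNat T).comp (Primrec.nat_sub.comp Primrec.snd
      (Primrec.const 1)))
  exact h.to_comp

end Cl

open Cl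

/-- Module M3a: the Henkin clauses -/
theorem exists_clauses : ∃ C : ℕ → ℕ → List (ℕ × Bool), Computable₂ C ∧ ∀ φ : AFml,
    (∃ X : ℕ → Bool, ∀ m, ∃ l ∈ C (codeA φ) m, X l.1 = l.2) ↔
      ∃ (M : Type) (A : AStr M) (v : ℕ → M), IsPA A ∧ ¬ satA A φ v := by
  refine ⟨CC, computable_CC, fun φ => ⟨?_, ?_⟩⟩
  · rintro ⟨X, hX⟩
    have hok : OK X := by
      intro p
      have h := hX (Encodable.encode p + 1)
      unfold CC at h
      rwa [if_neg (by omega), Nat.add_sub_cancel, Denumerable.ofNat_encode] at h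
    have h0 := hX 0
    unfold CC at h0
    rw [if_pos rfl] at h0
    simp only [List.mem_singleton, exists_eq_left] at h0
    rw [← codeA_clos] at h0
    have h1 : ¬ satA (strX hok) (clos φ (codeA φ)) (asg []) := by
      rw [truth hok, Henkin.encode_nil, h0]
      simp
    rw [sat_clos] at h1
    push Not at h1
    obtain ⟨w, _, hw⟩ := h1
    exact ⟨ℕ, strX hok, w, isPA_strX hok, hw⟩
  · rintro ⟨M, A, v, hA, hv⟩
    have : Infinite M := Infinite.of_injective _ (num_injective hA)
    obtain ⟨c, hc⟩ := exists_naming A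
    refine ⟨XA A c, fun m => ?_⟩
    unfold CC
    split_ifs with h
    · apply lit1
      rw [← codeA_clos, ← Henkin.encode_nil, XA_iff', sat_clos]
      intro h1
      apply hv
      have h2 := h1 (fun k => if k < codeA φ then v k else c (asg [] k))
        fun k hk => if_neg (by omega)
      refine (satA_congr A φ fun k hk => ?_).1 h2
      exact if_pos (free_lt_codeA φ k hk)
    · exact sound hA hc _

end H87.SF
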