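import Pool.Agent.Helper87.SF.Base
import Pool.Agent.Helper97.PAS.Arith

/-!
# Basic facts about conditions
-/

namespace H87.SF

open H97.PAS Function

theorem Cond.le_refl (p : Cond) : p ≤ p := ⟨Nat.le_refl _, fun _ _ _ h => h⟩

theorem Cond.le_trans {p q r : Cond} (h : p ≤ q) (h' : q ≤ r) : p ≤ r :=
  ⟨Nat.le_trans h'.1 h.1, fun M A v hv => h'.2 M A v (h.2 M A v hv)⟩

theorem Cond.Sat.mono {p q : Cond} {P : SP} (h : p.Sat P) (hq : q ≤ p) : q.Sat P :=
  fun M A v hv => h M A v (hq.2 M A v hv)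

theorem Cond.sat_self (p : Cond) : p.Sat p.P := fun _ _ _ h => h.2.1

theorem F_mono {m : ℕ} {p q : Cond} {τ : List ℕ} (h : q ≤ p) (hF : F m p τ) : F m q τ := by
  induction m generalizing p q τ with
  | zero =>
    obtain ⟨⟨h1, h2⟩, h3⟩ := hF
    exact ⟨⟨h1.trans h.1, fun k hk => (h2 k hk).trans_le h.1⟩, h3.mono h⟩
  | succ m ih =>
    intro i hi
    rcases hF i hi with ⟨h1, ρ, h2, h3⟩ | ⟨h1, h2⟩
    · exact Or.inl ⟨h1, ρ, h2, ih h h3⟩
    · exact Or.inr ⟨h1, fun s hs hsq ρ hρ => h2 s hs (Cond.le_trans hsq h) ρ hρ⟩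

/-- extend a finite injective sequence to an injective one -/
theorem exists_extend {M : Type} [Infinite M] (N : ℕ) (v : ℕ → M)
    (hv : ∀ i < N, ∀ j < N, v i = v j → i = j) :
    ∃ w : ℕ → M, (∀ i < N, w i = v i) ∧ Injective w := by
  classical
  have hfin : (Set.range fun i : Fin N => v i).Finite := Set.finite_range _
  have hinf := hfin.infinite_compl
  let f := hinf.natEmbedding
  have hf : ∀ k, ∀ i < N, v i ≠ (f k : M) := by
    intro k i hi h
    exact (f k).2 ⟨⟨i, hi⟩, h⟩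
  refine ⟨fun i => if i < N then v i else (f i : M), fun i hi => if_pos hi, ?_⟩
  intro i j hij
  simp only at hij
  split_ifs at hij with h1 h2 h2
  · exact hv i h1 j h2 hij
  · exact absurd hij (hf j i h1)
  · exact absurd hij.symm (hf i j h2)
  · exact f.injective (Subtype.ext hij)

theorem infinite_of_isPA {M : Type} {A : AStr M} (hA : IsPA A) : Infinite M :=
  Infinite.of_injective _ (num_injective hA)

/-- the models of a condition can be taken injective -/
theorem Cond.Cons.exists_inj {p : Cond} (hp : p.Cons) :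
    ∃ (M : Type) (A : AStr M) (v : ℕ → M), p.Mod A v ∧ Injective v := by
  obtain ⟨M, A, v, hA, hφ, hv⟩ := hp
  have := infinite_of_isPA hA
  obtain ⟨w, hw, hinj⟩ := exists_extend p.N v hv
  refine ⟨M, A, w, ⟨hA, ?_, fun i _ j _ h => hinj h⟩, hinj⟩
  exact (satA_congr A p.φ fun k hk => hw k (p.free k hk)).2 hφ

/-- `Mod` depends only on the values of the constants -/
theorem Cond.Mod.congr {p : Cond} {M : Type} {A : AStr M} {v w : ℕ → M} (h : p.Mod A v)
    (hw : ∀ k < p.N, v k = w k) : p.Mod A w := by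
  refine ⟨h.1, (satA_congr A p.φ fun k hk => hw k (p.free k hk)).1 h.2.1, ?_⟩
  intro i hi j hj hij
  rw [← hw i hi, ← hw j hj] at hij
  exact h.2.2 i hi j hj hij

/-- strengthen a condition by a formula about more constants -/
theorem exists_and (p : Cond) (N : ℕ) (hN : p.N ≤ N) (φ : AFml) (hφ : ∀ k, freeA φ k → k < N) :
    ∃ q : Cond, q.N = N ∧ q ≤ p ∧ ∀ (M : Type) (A : AStr M) (v : ℕ → M), q.Mod A v ↔
      IsPA A ∧ satA A p.φ v ∧ satA A φ v ∧ ∀ i < N, ∀ j < N, v i = v j → i = j := by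
  have key : ∀ (M : Type) (A : AStr M) (v : ℕ → M),
      satA A (Fml.and p.φ φ) v ↔ satA A p.φ v ∧ satA A φ v := fun M A v =>
    Fml.sat_and p.φ φ v
  refine ⟨⟨N, Fml.and p.φ φ, fun k hk => ?_⟩, rfl, ⟨hN, fun M A v h => ?_⟩, fun M A v => ?_⟩
  · rcases (Fml.free_and p.φ φ k).1 hk with h | h
    · exact (p.free k h).trans_le hN
    · exact hφ k h
  · obtain ⟨h1, h2, h3⟩ := h
    exact ⟨h1, ((key M A v).1 h2).1, fun i hi j hj hij => h3 i (hi.trans_le hN) j (hj.trans_le hN) hij⟩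
  · constructor
    · rintro ⟨h1, h2, h3⟩
      exact ⟨h1, ((key M A v).1 h2).1, ((key M A v).1 h2).2, h3⟩
    · rintro ⟨h1, h2, h3, h4⟩
      exact ⟨h1, (key M A v).2 ⟨h2, h3⟩, h4⟩

end H87.SF
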