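import Pool.Agent.Helper87.SF.SubstM
import Pool.Agent.Helper97.PAS.Arith
import Pool.Agent.Helper97.PAS.Sigma1

/-!
# Module M1a: terms and bounded formulas
-/

namespace H87.SF

open H97.PAS Function

variable {P Q : SP}

/-! ### terms -/

theorem TP.var (i : ℕ) : TP fun _ _ e => e i := ⟨.var i, fun _ _ _ => rfl⟩
theorem TP.zero : TP fun _ A _ => A.zero := ⟨.zero, fun _ _ _ => rfl⟩
theorem TP.succ {f : ∀ M : Type, AStr M → (ℕ → M) → M} (hf : TP f) :
    TP fun M A e => A.succ (f M A e) := by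
  obtain ⟨t, ht⟩ := hf
  exact ⟨.succ t, fun M A v => congrArg A.succ (ht M A v)⟩
theorem TP.add {f g : ∀ M : Type, AStr M → (ℕ → M) → M} (hf : TP f) (hg : TP g) :
    TP fun M A e => A.add (f M A e) (g M A e) := by
  obtain ⟨t, ht⟩ := hf
  obtain ⟨s, hs⟩ := hg
  exact ⟨.add t s, fun M A v => congrArg₂ A.add (ht M A v) (hs M A v)⟩
theorem TP.mul {f g : ∀ M : Type, AStr M → (ℕ → M) → M} (hf : TP f) (hg : TP g) :
    TP fun M A e => A.mul (f M A e) (g M A e) := by
  obtain ⟨t, ht⟩ := hf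
  obtain ⟨s, hs⟩ := hg
  exact ⟨.mul t s, fun M A v => congrArg₂ A.mul (ht M A v) (hs M A v)⟩
theorem TP.num (k : ℕ) : TP fun _ A _ => num A k := ⟨numT k, fun _ A v => numT_val A k v⟩
theorem TP.tl {f : ∀ M : Type, AStr M → (ℕ → M) → M} (hf : TP f) :
    TP fun M A e => f M A (tl e) := by
  obtain ⟨t, ht⟩ := hf
  exact ⟨t.ren Nat.succ, fun M A v => (t.val_ren A Nat.succ v).trans (ht M A _)⟩

/-! ### auxiliary lemmas -/

/-- occurrences in a renamed term -/
theorem occ_ren (f : ℕ → ℕ) (t : Tm) (k : ℕ) (h : (t.ren f).Occ k) : ∃ l, t.Occ l ∧ k = f l := by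
  induction t with
  | var i => exact ⟨i, rfl, h⟩
  | zero => exact absurd h id
  | succ t ih => exact ih h
  | add s t ih₁ ih₂ =>
    rcases h with h | h
    · obtain ⟨l, h1, h2⟩ := ih₁ h
      exact ⟨l, Or.inl h1, h2⟩
    · obtain ⟨l, h1, h2⟩ := ih₂ h
      exact ⟨l, Or.inr h1, h2⟩
  | mul s t ih₁ ih₂ =>
    rcases h with h | h
    · obtain ⟨l, h1, h2⟩ := ih₁ h
      exact ⟨l, Or.inl h1, h2⟩
    · obtain ⟨l, h1, h2⟩ := ih₂ h
      exact ⟨l, Or.inr h1, h2⟩

/-- meaning of the bounded quantifier -/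
theorem sat_ballD {M : Type} (A : AStr M) {i j : ℕ} {t : Tm} (φ : AFml) (hij : i ≠ j)
    (hi : ¬ t.Occ i) (hj : ¬ t.Occ j) (v : ℕ → M) :
    satA A (.all i (.imp (Fml.ex j (.atom (.add (.var j) (.var i), t))) φ)) v ↔
      ∀ x, A.le x (t.val A v) → satA A φ (update v i x) := by
  unfold satA
  simp only [Fml.sat_all, Fml.sat_imp, Fml.sat_ex, Fml.sat_atom, Tm.val]
  refine forall_congr' fun x => imp_congr ?_ Iff.rfl
  unfold AStr.le
  refine exists_congr fun z => ?_
  have h1 : t.val A (update (update v i x) j z) = t.val A v := by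
    refine t.val_congr A _ _ fun k hk => ?_
    have hkj : k ≠ j := fun h => hj (h ▸ hk)
    have hki : k ≠ i := fun h => hi (h ▸ hk)
    rw [update_of_ne hkj, update_of_ne hki]
  rw [h1, update_self, update_of_ne hij, update_self]

/-- renaming for bounded formulas -/
theorem IsD0.ren {φ : AFml} (h : IsD0 φ) : ∀ f : ℕ → ℕ, ∃ φ' : AFml, IsD0 φ' ∧
    ∀ (M : Type) (A : AStr M) (v : ℕ → M), satA A φ' v ↔ satA A φ (v ∘ f) := by
  induction h with
  | atom a =>
    intro f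
    refine ⟨.atom (a.1.ren f, a.2.ren f), IsD0.atom _, fun M R v => ?_⟩
    unfold satA
    simp only [Fml.sat_atom, Tm.val_ren]
  | bot => intro f; exact ⟨.bot, IsD0.bot, fun M R v => Iff.rfl⟩
  | imp _ _ ih₁ ih₂ =>
    intro f
    obtain ⟨φ', d₁, h₁⟩ := ih₁ f
    obtain ⟨ψ', d₂, h₂⟩ := ih₂ f
    refine ⟨.imp φ' ψ', IsD0.imp d₁ d₂, fun M R v => ?_⟩
    have h1 := h₁ M R v
    have h2 := h₂ M R v
    unfold satA at *
    simp only [Fml.sat_imp, h1, h2]
  | @ball i j t φ hij hi hj _ ih =>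
    intro f
    obtain ⟨N₁, hN₁⟩ := exists_boundA φ
    obtain ⟨N₂, hN₂⟩ := t.exists_bound
    obtain ⟨m, hm⟩ : ∃ m, ∀ k < max N₁ N₂, f k < m :=
      ⟨(Finset.range (max N₁ N₂)).sup f + 1, fun k hk =>
        Nat.lt_succ_of_le (Finset.le_sup (f := f) (Finset.mem_range.2 hk))⟩
    obtain ⟨φ', hD, h⟩ := ih (update f i m)
    have hocc : ∀ k, (t.ren f).Occ k → k < m := by
      intro k hk
      obtain ⟨l, hl, rfl⟩ := occ_ren f t k hk
      exact hm l (lt_of_lt_of_le (hN₂ l hl) (le_max_right _ _))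
    have o1 : ¬ (t.ren f).Occ m := fun h => absurd (hocc m h) (lt_irrefl _)
    have o2 : ¬ (t.ren f).Occ (m + 1) := fun h => absurd (hocc (m + 1) h) (by omega)
    have hmm : m ≠ m + 1 := by omega
    refine ⟨.all m (.imp (Fml.ex (m + 1) (.atom (.add (.var (m + 1)) (.var m), t.ren f))) φ'),
      IsD0.ball hmm o1 o2 hD, fun M A v => ?_⟩
    rw [sat_ballD A φ' hmm o1 o2 v, sat_ballD A φ hij hi hj (v ∘ f), Tm.val_ren]
    refine forall_congr' fun x => imp_congr Iff.rfl ?_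
    rw [h]
    refine satA_congr A φ fun k hk => ?_
    by_cases hki : k = i
    · subst hki; simp
    · rw [update_of_ne hki, comp_apply, update_of_ne hki, comp_apply,
        update_of_ne (hm k (lt_of_lt_of_le (hN₁ k hk) (le_max_left _ _))).ne]

/-! ### bounded formulas -/

theorem DP.congr (h : DP P) (hPQ : ∀ (M : Type) (A : AStr M) (e : ℕ → M), IsPA A →
    (P M A e ↔ Q M A e)) : DP Q := by
  obtain ⟨φ, hφ, hd⟩ := h
  exact ⟨φ, hφ, fun M A hA v => (hd M A hA v).trans (hPQ M A v hA)⟩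
theorem DP.ren (f : ℕ → ℕ) (h : DP P) : DP fun M A e => P M A (e ∘ f) := by
  obtain ⟨φ, hφ, hd⟩ := h
  obtain ⟨φ', hφ', h'⟩ := hφ.ren f
  exact ⟨φ', hφ', fun M A hA v => (h' M A v).trans (hd M A hA _)⟩
theorem DP.eq {f g : ∀ M : Type, AStr M → (ℕ → M) → M} (hf : TP f) (hg : TP g) :
    DP fun M A e => f M A e = g M A e := by
  obtain ⟨t, ht⟩ := hf
  obtain ⟨s, hs⟩ := hg
  refine ⟨.atom (t, s), IsD0.atom _, fun M A _ v => ?_⟩
  change t.val A v = s.val A v ↔ _
  rw [ht, hs]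
theorem DP.bot : DP fun _ _ _ => False := ⟨.bot, IsD0.bot, fun _ _ _ _ => Iff.rfl⟩
theorem DP.imp (h : DP P) (h' : DP Q) : DP fun M A e => P M A e → Q M A e := by
  obtain ⟨φ, hφ, hd⟩ := h
  obtain ⟨ψ, hψ, hd'⟩ := h'
  exact ⟨.imp φ ψ, IsD0.imp hφ hψ, fun M A hA v => imp_congr (hd M A hA v) (hd' M A hA v)⟩
theorem DP.not (h : DP P) : DP fun M A e => ¬ P M A e := h.imp DP.bot
theorem DP.and (h : DP P) (h' : DP Q) : DP fun M A e => P M A e ∧ Q M A e :=
  ((h.imp h'.not).not).congr fun _ _ _ _ => by tauto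
theorem DP.or (h : DP P) (h' : DP Q) : DP fun M A e => P M A e ∨ Q M A e :=
  (h.not.imp h').congr fun _ _ _ _ => by tauto
/-- bounded universal quantifier, in the de Bruijn style -/
theorem DP.ball {t : ∀ M : Type, AStr M → (ℕ → M) → M} (ht : TP t)
    {R : ∀ M : Type, AStr M → M → (ℕ → M) → Prop} (h : DP fun M A e => R M A (e 0) (tl e)) :
    DP fun M A e => ∀ x, A.le x (t M A e) → R M A x e := by
  obtain ⟨s, hs⟩ := ht
  obtain ⟨φ, hφ, hd⟩ := h
  obtain ⟨N₁, hN₁⟩ := exists_boundA φ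
  obtain ⟨N₂, hN₂⟩ := s.exists_bound
  obtain ⟨m, hm⟩ : ∃ m, m = max N₁ N₂ := ⟨_, rfl⟩
  obtain ⟨φ', hφ', h'⟩ := hφ.ren (fun k => Nat.casesOn k m fun k => k)
  have hocc : ∀ k, s.Occ k → k < m := fun k hk =>
    hm ▸ lt_of_lt_of_le (hN₂ k hk) (le_max_right _ _)
  have o1 : ¬ s.Occ m := fun h => absurd (hocc m h) (lt_irrefl _)
  have o2 : ¬ s.Occ (m + 1) := fun h => absurd (hocc (m + 1) h) (by omega)
  have hmm : m ≠ m + 1 := by omega
  refine ⟨.all m (.imp (Fml.ex (m + 1) (.atom (.add (.var (m + 1)) (.var m), s))) φ'),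
    IsD0.ball hmm o1 o2 hφ', fun M A hA v => ?_⟩
  rw [sat_ballD A φ' hmm o1 o2 v, hs]
  refine forall_congr' fun x => imp_congr Iff.rfl ?_
  rw [h']
  have h2 : satA A φ (update v m x ∘ fun k => Nat.casesOn k m fun k => k) ↔
      satA A φ (cns x v) := by
    refine satA_congr A φ fun k hk => ?_
    cases k with
    | zero => exact update_self _ _ _
    | succ k =>
      have h3 : k + 1 < N₁ := hN₁ _ hk
      have h4 : N₁ ≤ m := hm ▸ le_max_left _ _
      exact update_of_ne (show k ≠ m by omega) _ _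
  rw [h2]
  exact hd M A hA (cns x v)
theorem DP.bex {t : ∀ M : Type, AStr M → (ℕ → M) → M} (ht : TP t)
    {R : ∀ M : Type, AStr M → M → (ℕ → M) → Prop} (h : DP fun M A e => R M A (e 0) (tl e)) :
    DP fun M A e => ∃ x, A.le x (t M A e) ∧ R M A x e := by
  have h1 := (DP.ball ht (R := fun M A x e => ¬ R M A x e) h.not).not
  refine h1.congr fun M A e _ => ?_
  push Not
  rfl
theorem DP.le {f g : ∀ M : Type, AStr M → (ℕ → M) → M} (hf : TP f) (hg : TP g) :
    DP fun M A e => A.le (f M A e) (g M A e) := by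
  have h1 := DP.bex hg (R := fun M A z e => A.add z (f M A e) = g M A e)
    (DP.eq ((TP.var 0).add hf.tl) hg.tl)
  refine h1.congr fun M A e hA => ?_
  constructor
  · rintro ⟨z, -, hz⟩
    exact ⟨z, hz⟩
  · rintro ⟨z, hz⟩
    exact ⟨z, ⟨f M A e, by rw [hA.add_comm]; exact hz⟩, hz⟩

theorem DP.exists_free {N : ℕ} (h : DP P) (hd : Dep N P) :
    ∃ φ : AFml, IsD0 φ ∧ (∀ k, freeA φ k → k < N) ∧ Defines φ P := by
  obtain ⟨φ, hφ, hD⟩ := h
  refine ⟨sb (fun k => decide (N ≤ k)) 0 φ, isD0_sb _ _ hφ, fun k hk => ?_,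
    fun M A hA v => ?_⟩
  · have h1 := ((free_sb _ _ _ _).1 hk).1
    have h2 : ¬ N ≤ k := of_decide_eq_false h1
    omega
  · rw [sat_sb, hD M A hA]
    have hc : ∀ k < N, (if decide (N ≤ k) = true then num A 0 else v k) = v k := by
      intro k hk
      rw [if_neg]
      simp only [decide_eq_true_eq]
      omega
    exact ⟨hd M A _ _ hA hc, hd M A _ _ hA fun k hk => (hc k hk).symm⟩
/-- bounded formulas are absolute -/
theorem IsD0.abs {φ : AFml} (h : IsD0 φ) : Abs φ := by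
  induction h with
  | atom a =>
    intro M A hA v
    change a.1.val A _ = a.2.val A _ ↔ a.1.val std v = a.2.val std v
    rw [Sig.val_num hA, Sig.val_num hA]
    exact ⟨fun h => Sig.num_inj hA h, fun h => congrArg _ h⟩
  | bot => exact fun _ _ _ _ => Iff.rfl
  | imp _ _ ih₁ ih₂ => exact fun M A hA v => imp_congr (ih₁ M A hA v) (ih₂ M A hA v)
  | @ball i j t φ hij hi hj _ ih =>
    intro M A hA v
    rw [sat_ballD A φ hij hi hj, sat_ballD std φ hij hi hj, Sig.val_num hA]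
    have hup : ∀ k : ℕ, (update (fun l => num A (v l)) i (num A k)) =
        fun l => num A (update v i k l) := by
      intro k
      ext l
      by_cases hl : l = i
      · subst hl; rw [update_self, update_self]
      · rw [update_of_ne hl, update_of_ne hl]
    constructor
    · rintro h x ⟨z, hz⟩
      have h1 := h (num A x) ⟨num A z, by
        rw [← Sig.num_add hA]; exact congrArg _ hz⟩
      rw [hup, ih M A hA] at h1
      exact h1
    · rintro h x ⟨z, hz⟩
      obtain ⟨k, hk, rfl⟩ := Sig.le_num' hA hz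
      rw [hup, ih M A hA]
      exact h k ⟨t.val std v - k, by
        change t.val std v - k + k = _
        omega⟩

end H87.SF
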