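import Pool.Agent.Helper97.PAS.Syn

/-!
# Solovay families: definitions

Terms `Tm`, formulas `AFml`, satisfaction `satA`, structures `AStr`, models of Peano arithmetic
`IsPA`, numerals `num` and `AStr.diag` (the table of the operations of a structure with universe
`ℕ`, i.e. its atomic diagram as a function) are those of `H97.PAS`.
-/

namespace H87.SF

open H97.PAS Function

/-! ### Gödel numbers -/

/-- The Gödel number of a term. -/
def codeT : Tm → ℕ
  | .zero => 0
  | .var i => 4 * i + 1
  | .succ t => 4 * codeT t + 2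
  | .add s t => 4 * Nat.pair (codeT s) (codeT t) + 3
  | .mul s t => 4 * Nat.pair (codeT s) (codeT t) + 4

/-- The Gödel number of a formula of the language of arithmetic. -/
def codeA : AFml → ℕ
  | .bot => 0
  | .atom a => 3 * Nat.pair (codeT a.1) (codeT a.2) + 1
  | .imp φ ψ => 3 * Nat.pair (codeA φ) (codeA ψ) + 2
  | .all i φ => 3 * Nat.pair i (codeA φ) + 3

/-! ### The arithmetical hierarchy of formulas -/

/-- Bounded formulas (`Δ₀`): closed under the connectives and bounded quantifiers
`∀ v_i ≤ t, φ`, written `∀ v_i ((∃ v_j, v_j + v_i = t) → φ)`, where `v_i`, `v_j` do not occur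
in the term `t`. -/
inductive IsD0 : AFml → Prop
  | atom (a : Tm × Tm) : IsD0 (.atom a)
  | bot : IsD0 .bot
  | imp {φ ψ : AFml} : IsD0 φ → IsD0 ψ → IsD0 (.imp φ ψ)
  | ball {i j : ℕ} {t : Tm} {φ : AFml} : i ≠ j → ¬ t.Occ i → ¬ t.Occ j → IsD0 φ →
      IsD0 (.all i (.imp (Fml.ex j (.atom (.add (.var j) (.var i), t))) φ))

/-- `Hier true n φ`: `φ` is a `Σ_n` formula; `Hier false n φ`: `φ` is a `Π_n` formula.
(`n` alternating blocks of quantifiers, possibly empty, in front of a bounded formula.) -/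
inductive Hier : Bool → ℕ → AFml → Prop
  | base {b : Bool} {φ : AFml} : IsD0 φ → Hier b 0 φ
  | flip {b : Bool} {n : ℕ} {φ : AFml} : Hier (!b) n φ → Hier b (n + 1) φ
  | ex {n i : ℕ} {φ : AFml} : Hier true (n + 1) φ → Hier true (n + 1) (Fml.ex i φ)
  | all {n i : ℕ} {φ : AFml} : Hier false (n + 1) φ → Hier false (n + 1) (.all i φ)

/-- `T_n` for `T = Th(A)`: the set of the Gödel numbers of the `Σ_n` sentences true in `A`. -/
def SigTh {M : Type} (A : AStr M) (n : ℕ) : Set ℕ :=
  {c | ∃ φ : AFml, codeA φ = c ∧ Hier true n φ ∧ (∀ k, ¬ freeA φ k) ∧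
    ∀ v : ℕ → M, satA A φ v}

/-! ### Oracle computations -/

/-- The program with index `e` (a computable function which need not be total). -/
def prog (e : ℕ) : ℕ →. ℕ := (Denumerable.ofNat Nat.Partrec.Code e).eval

/-- `Phi e X x y`: the oracle program with index `e` and oracle `X`, on input `x`, outputs `y`.
The program is run on `x` and longer and longer initial segments `X 0, …, X (s-1)` of the oracle;
the output `0` means that a longer initial segment is requested, and the first output `y + 1`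
gives the answer `y`. -/
def Phi (e : ℕ) (X : ℕ → ℕ) (x y : ℕ) : Prop :=
  ∃ s, y + 1 ∈ prog e (Nat.pair x (Encodable.encode (seg X s))) ∧
    ∀ t < s, 0 ∈ prog e (Nat.pair x (Encodable.encode (seg X t)))

open Classical in
/-- The Turing jump of `X` (a `0/1`-valued function). -/
noncomputable def jump (X : ℕ → ℕ) (e : ℕ) : ℕ := if ∃ y, Phi e X e y then 1 else 0

/-- The `n`-th Turing jump of `X`. -/
noncomputable def jumps : ℕ → (ℕ → ℕ) → ℕ → ℕ
  | 0, X => X
  | n + 1, X => jump (jumps n X)

/-- `e` is an index of the set `S` as a set computable in `X`. -/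
def IsIndex (e : ℕ) (X : ℕ → ℕ) (S : Set ℕ) : Prop :=
  ∀ x, (x ∈ S → Phi e X x 1) ∧ (x ∉ S → Phi e X x 0)

/-! ### Solovay families -/

/-- `(t_n)_{n ≥ 1}` is a Solovay family for `Th(A)` relative to `A`. -/
structure SolovayFamily (A : AStr ℕ) (t : ℕ → ℕ → ℕ) : Prop where
  /-- `t_n` is computable from the `(n-1)`-st jump of `A`, uniformly in `n` -/
  unif : ∃ g : ℕ → ℕ, Computable g ∧ ∀ n ≥ 1, ∀ s, Phi (g n) (jumps (n - 1) A.diag) s (t n s)
  /-- the limit of `t_n` exists and is an index of `T_n` -/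
  lim : ∀ n ≥ 1, ∃ e s₀, (∀ s ≥ s₀, t n s = e) ∧ IsIndex e A.diag (SigTh A n)
  /-- every value of `t_n` is an index of a subset of `T_n` -/
  sub : ∀ n ≥ 1, ∀ s, ∃ S ⊆ SigTh A n, IsIndex (t n s) A.diag S

/-- `f` changes value at most `k` times. -/
def ChangesAtMost (k : ℕ) (f : ℕ → ℕ) : Prop :=
  ∀ F : Finset ℕ, (∀ s ∈ F, f (s + 1) ≠ f s) → F.card ≤ k

end H87.SF
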