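import Pool.Agent.Helper87.SF.DPM
import Pool.Agent.Helper87.SF.BetaM

/-!
# Module M6b: the formulas `G_k`, meaning
-/

namespace H87.SF

open H97.PAS Function

variable {κ : AFml} (hκ : IsKK κ)

theorem gv_dep (κ : AFml) (k N x : ℕ) : Dep N (GV κ k N x) := by
  rintro M A v w _ hvw ⟨b, c, h1, h2⟩
  exact ⟨b, c, fun i hi => (h1 i hi).trans (hvw i hi), h2⟩

/-! ### auxiliary lemmas on numerals -/

namespace GkSem

theorem num_add {M : Type} {A : AStr M} (h : IsPA A) (a b : ℕ) :
    A.add (num A a) (num A b) = num A (a + b) := by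
  induction b with
  | zero => exact h.add_zero _
  | succ b ih => rw [num_succ, h.add_succ, ih, ← Nat.add_assoc, num_succ]

theorem le_num_iff {M : Type} {A : AStr M} (h : IsPA A) (a b : ℕ) :
    A.le (num A a) (num A b) ↔ a ≤ b := by
  constructor
  · intro hab
    obtain ⟨k, hk, hk'⟩ := le_num h hab
    rw [num_injective h hk']
    exact hk
  · intro hab
    refine ⟨num A (b - a), ?_⟩
    rw [num_add h, Nat.sub_add_cancel hab]

/-- elements below a numeral -/
theorem lt_num {M : Type} {A : AStr M} (h : IsPA A) {x : M} {n : ℕ} (hx : A.le x (num A n))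
    (hx' : A.le (A.succ x) (num A n)) : ∃ k < n, x = num A k := by
  obtain ⟨k, _, rfl⟩ := le_num h hx
  rw [← num_succ, le_num_iff h] at hx'
  exact ⟨k, hx', rfl⟩

theorem pair_self {M : Type} {A : AStr M} (h : IsPA A) (y : ℕ) :
    PairR A (num A y) (num A y.unpair.1) (num A y.unpair.2) :=
  (pairR_num h _ _ _).2 (Nat.pair_unpair y).symm

theorem bv_beta {M : Type} {A : AStr M} (h : IsPA A) (b c : M) (i : ℕ) :
    Beta A b c (num A i) (bv A b c i) := (beta_iff h b c i _).2 rfl

theorem bv_le {M : Type} {A : AStr M} (h : IsPA A) (b c : M) (i : ℕ) :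
    A.le (bv A b c i) b := beta_le h (bv_beta h b c i)

theorem num_eq_iff {M : Type} {A : AStr M} (h : IsPA A) (a b : ℕ) :
    num A a = num A b ↔ a = b := ⟨fun hab => num_injective h hab, fun hab => by rw [hab]⟩

end GkSem

open GkSem

/-! ### meaning -/

theorem entry_iff {M : Type} {A : AStr M} (hA : IsPA A) (b c : M) (x k : ℕ) :
    EntryR A b c (num A x.unpair.1) (num A x.unpair.2) (num A x.unpair.2.unpair.1)
      (num A x.unpair.2.unpair.2) (num A k) ↔ bv A b c k = Entry A (bv A b c) x := by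
  have h0 : ∀ o : ℕ, num A o = A.zero ↔ o = 0 := fun o => num_eq_iff hA o 0
  have h1 : ∀ o : ℕ, num A o = A.succ A.zero ↔ o = 1 := fun o => by
    rw [← num_eq_iff hA o 1]; rfl
  have h2 : ∀ o : ℕ, num A o = A.succ (A.succ A.zero) ↔ o = 2 := fun o => by
    rw [← num_eq_iff hA o 2]; rfl
  have h3 : ∀ o : ℕ, A.le (A.succ (A.succ (A.succ A.zero))) (num A o) ↔ 3 ≤ o := fun o => by
    rw [← le_num_iff hA 3 o]; rfl
  have key : EntryR A b c (num A x.unpair.1) (num A x.unpair.2) (num A x.unpair.2.unpair.1)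
      (num A x.unpair.2.unpair.2) (num A k) ↔
      ((x.unpair.1 = 0 ∧ bv A b c k = A.zero) ∨
      (x.unpair.1 = 1 ∧ bv A b c k = A.succ (bv A b c x.unpair.2)) ∨
      (x.unpair.1 = 2 ∧ bv A b c k =
        A.add (bv A b c x.unpair.2.unpair.1) (bv A b c x.unpair.2.unpair.2)) ∨
      (3 ≤ x.unpair.1 ∧ bv A b c k =
        A.mul (bv A b c x.unpair.2.unpair.1) (bv A b c x.unpair.2.unpair.2))) := by
    rw [← h0, ← h1, ← h2, ← h3]
    constructor
    · intro h
      exact h _ (bv_le hA b c _) (bv_beta hA b c _) _ (bv_le hA b c _) (bv_beta hA b c _)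
        _ (bv_le hA b c _) (bv_beta hA b c _) _ (bv_le hA b c _) (bv_beta hA b c _)
    · intro h xu _ hxu xa _ hxa xb _ hxb xk _ hxk
      rw [beta_iff hA] at hxu hxa hxb hxk
      rw [← hxu, ← hxa, ← hxb, ← hxk]
      exact h
  rw [key, Entry]
  rcases ho : x.unpair.1 with _ | _ | _ | o
  · simp
  · simp
  · simp
  · simp

theorem g0_iff {M : Type} {A : AStr M} (hA : IsPA A) (y : ℕ) (b c : M) :
    G0 A (num A y) b c ↔ Facts A (bv A b c) (tauOf y) ∧
      ∀ i < dOf y, ∀ j < i, bv A b c i ≠ bv A b c j := by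
  have ul : ∀ n : ℕ, A.le (num A n.unpair.1) (num A n) := fun n =>
    (le_num_iff hA _ _).2 (Nat.unpair_left_le n)
  have ur : ∀ n : ℕ, A.le (num A n.unpair.2) (num A n) := fun n =>
    (le_num_iff hA _ _).2 (Nat.unpair_right_le n)
  have hbeta : ∀ d i : ℕ, bv A (num A d.unpair.1) (num A d.unpair.2) i = num A (Nat.beta d i) := by
    intro d i
    rw [bv_num hA, Nat.pair_unpair]
  have hf : Facts A (bv A b c) (tauOf y) ↔ ∀ i < y.unpair.2.unpair.1,
      bv A b c (Nat.beta y.unpair.2.unpair.2 i) = Entry A (bv A b c) i := by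
    unfold Facts tauOf
    constructor
    · intro h i hi
      have := h i (by simpa using hi)
      simpa using this
    · intro h i hi
      have := h i (by simpa using hi)
      simpa using this
  rw [hf]
  constructor
  · intro h
    have h' := h _ (ul y) _ (ur y) (pair_self hA y) _ (ul _) _ (ur _) (pair_self hA _)
      _ (ul _) _ (ur _) (pair_self hA _)
    constructor
    · intro i hi
      have h1 : A.le (num A i) (num A y.unpair.2.unpair.1) := (le_num_iff hA _ _).2 hi.le
      have h2 : A.le (A.succ (num A i)) (num A y.unpair.2.unpair.1) := by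
        rw [← num_succ]
        exact (le_num_iff hA _ _).2 hi
      have h3 := h'.1 (num A i) h1 h2 _ (ul i) _ (ur i) (pair_self hA i) _ (ul _) _ (ur _)
        (pair_self hA _) _ (bv_le hA (num A y.unpair.2.unpair.2.unpair.1)
          (num A y.unpair.2.unpair.2.unpair.2) i) (bv_beta hA _ _ _)
      rw [hbeta] at h3
      exact (entry_iff hA b c i _).1 h3
    · intro i hi j hj
      refine h'.2 (num A i) ((le_num_iff hA _ _).2 hi.le) ?_ (num A j)
        ((le_num_iff hA _ _).2 hj.le) ?_ _ (bv_le hA b c i) (bv_beta hA b c i)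
        _ (bv_le hA b c j) (bv_beta hA b c j)
      · rw [← num_succ]
        exact (le_num_iff hA _ _).2 hi
      · rw [← num_succ]
        exact (le_num_iff hA _ _).2 hj
  · rintro ⟨h1, h2⟩ D _ w _ hDw L _ d _ hLd d1 _ d2 _ hd
    obtain ⟨rfl, rfl⟩ := (pairR_num_left hA _ _ _).1 hDw
    obtain ⟨rfl, rfl⟩ := (pairR_num_left hA _ _ _).1 hLd
    obtain ⟨rfl, rfl⟩ := (pairR_num_left hA _ _ _).1 hd
    constructor
    · intro x hx hx' o _ u _ hou a1 _ a2 _ ha k _ hk
      obtain ⟨i, hi, rfl⟩ := lt_num hA hx hx'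
      obtain ⟨rfl, rfl⟩ := (pairR_num_left hA _ _ _).1 hou
      obtain ⟨rfl, rfl⟩ := (pairR_num_left hA _ _ _).1 ha
      rw [beta_iff hA, hbeta] at hk
      rw [← hk, entry_iff hA]
      exact h1 i hi
    · intro i hi hi' j hj hj' xi _ hxi xj _ hxj
      obtain ⟨i, hi2, rfl⟩ := lt_num hA hi hi'
      obtain ⟨j, hj2, rfl⟩ := lt_num hA hj hj'
      rw [← num_succ, le_num_iff hA] at hj'
      rw [beta_iff hA] at hxi hxj
      rw [← hxi, ← hxj]
      exact h2 i hi2 j hj'

theorem agree_iff {M : Type} {A : AStr M} (hA : IsPA A) (n : ℕ) (b c b' c' : M) :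
    Agree A (num A n) b c b' c' ↔ ∀ i < n, bv A b' c' i = bv A b c i := by
  constructor
  · intro h i hi
    rw [← beta_iff hA]
    refine h (num A i) ((le_num_iff hA _ _).2 hi.le) ?_ _ (bv_le hA b c i) (bv_beta hA b c i)
    rw [← num_succ]
    exact (le_num_iff hA _ _).2 hi
  · intro h i hi hi' x _ hx
    obtain ⟨i, hi2, rfl⟩ := lt_num hA hi hi'
    rw [beta_iff hA] at hx ⊢
    rw [h i hi2, hx]

theorem gk_succ_iff {M : Type} {A : AStr M} (hA : IsPA A) (κ : AFml) (k n x' y : ℕ) (b c : M) :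
    Gk κ (k + 1) M A (num A (Nat.pair n (Nat.pair x' y))) b c ↔
      Gk κ k M A (num A y) b c ∧ ∀ y' z, KR κ A (num A 0) (num A x') y' z →
        (∀ z', A.le z' (A.add y' z) → ¬ KR κ A (num A 1) (num A x') (num A 0) z') →
        ∀ b' c', (∀ i < n, bv A b' c' i = bv A b c i) → ¬ Gk κ k M A y' b' c' := by
  have p1 : PairR A (num A (Nat.pair n (Nat.pair x' y))) (num A n) (num A (Nat.pair x' y)) :=
    (pairR_num hA _ _ _).2 rfl
  have p2 : PairR A (num A (Nat.pair x' y)) (num A x') (num A y) := (pairR_num hA _ _ _).2 rfl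
  constructor
  · intro h
    obtain ⟨h1, h2⟩ := h _ _ p1 _ _ p2
    refine ⟨h1, ?_⟩
    intro y' z hz hz' b' c' hbc
    exact h2 y' z hz hz' b' c' ((agree_iff hA n b c b' c').2 hbc)
  · rintro ⟨h1, h2⟩ n' u hnu x'' y'' hxy
    obtain ⟨rfl, rfl⟩ := (pairR_num_left hA _ _ _).1 hnu
    rw [Nat.unpair_pair] at hxy ⊢
    obtain ⟨rfl, rfl⟩ := (pairR_num_left hA _ _ _).1 hxy
    rw [Nat.unpair_pair]
    refine ⟨h1, ?_⟩
    intro y' z hz hz' b' c' hbc
    exact h2 y' z hz hz' b' c' ((agree_iff hA n b c b' c').1 hbc)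

include hκ in
theorem kr_num {M : Type} {A : AStr M} (hA : IsPA A) (i x y z : ℕ) :
    KR κ A (num A i) (num A x) (num A y) (num A z) ↔ KR κ std i x y z := by
  have h := IsD0.abs hκ.1 M A hA (a4 i x y z)
  have he : (fun j => num A (a4 i x y z j)) = a4 (num A i) (num A x) (num A y) (num A z) := by
    funext j
    rcases j with _ | _ | _ | j <;> rfl
  rw [he] at h
  exact h

end H87.SF
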