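import Pool.Agent.Helper87.SF.Base
import Pool.Agent.Helper97.PAS.Clauses

/-!
# Module M3b: unsatisfiability of a computable family of clauses is r.e.
-/

namespace H87.SF

open H97.PAS Function

namespace Unsat

open H97.PAS.Clauses

/-- an existential quantifier in front of a computable predicate -/
theorem re_exists {g : ℕ → ℕ → Bool} (hg : Computable₂ g) :
    REPred fun a : ℕ => ∃ n, g a n = true := by
  have h1 : Partrec fun a : ℕ => Nat.rfind (fun n => (Part.some (g a n) : Part Bool)) :=
    Partrec.rfind hg.partrec₂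
  refine h1.dom_re.of_eq fun a => ?_
  rw [Nat.rfind_dom]
  constructor
  · rintro ⟨n, hn, -⟩
    exact ⟨n, (Part.mem_some_iff.1 hn).symm⟩
  · rintro ⟨n, hn⟩
    exact ⟨n, Part.mem_some_iff.2 hn.symm, fun _ => trivial⟩

/-- compactness -/
theorem exists_of_E (D : ℕ → List (ℕ × Bool)) (h : ∀ n, E (fun _ => 0) (fun m _ => D m) n []) :
    ∃ X : ℕ → Bool, ∀ m, ∃ l ∈ D m, X l.1 = l.2 := by
  let K : ℕ → Set (ℕ → Bool) := fun n => {X | ∀ m < n, ∃ l ∈ D m, n ≤ l.1 ∨ X l.1 = l.2}
  have hanti : Antitone K := by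
    intro n n' hn X hX m hm
    obtain ⟨l, hl, h1⟩ := hX m (lt_of_lt_of_le hm hn)
    exact ⟨l, hl, h1.imp (fun h2 => hn.trans h2) id⟩
  have hne : ∀ n, (K n).Nonempty := by
    intro n
    obtain ⟨Y, -, hY⟩ := h n
    exact ⟨Y, hY⟩
  have hcl : ∀ n, IsClosed (K n) := by
    intro n
    have e : K n = ⋂ m, ⋂ (_ : m < n), ⋃ l ∈ {l | l ∈ D m}, {X : ℕ → Bool | n ≤ l.1 ∨ X l.1 = l.2} := by
      ext X
      simp [K]
    rw [e]
    refine isClosed_iInter fun m => isClosed_iInter fun _ => ?_
    refine Set.Finite.isClosed_biUnion (List.finite_toSet (D m)) fun l _ => ?_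
    by_cases hl : n ≤ l.1
    · have : {X : ℕ → Bool | n ≤ l.1 ∨ X l.1 = l.2} = Set.univ := by
        ext X; simp [hl]
      rw [this]
      exact isClosed_univ
    · have : {X : ℕ → Bool | n ≤ l.1 ∨ X l.1 = l.2} = (fun X : ℕ → Bool => X l.1) ⁻¹' {l.2} := by
        ext X; simp [hl]
      rw [this]
      exact (isClosed_discrete _).preimage (continuous_apply l.1)
  obtain ⟨X, hX⟩ := IsCompact.nonempty_iInter_of_directed_nonempty_isCompact_isClosed K
    hanti.directed_ge hne (fun n => (hcl n).isCompact) hcl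
  rw [Set.mem_iInter] at hX
  refine ⟨X, fun m => ?_⟩
  obtain ⟨N, hN⟩ : ∃ N, ∀ l ∈ D m, l.1 < N := by
    refine ⟨(D m).foldr (fun l a => max (l.1 + 1) a) 0, ?_⟩
    generalize D m = L
    induction L with
    | nil => simp
    | cons a L ih =>
      intro l hl
      rw [List.mem_cons] at hl
      simp only [List.foldr_cons]
      rcases hl with rfl | hl
      · exact lt_of_lt_of_le (Nat.lt_succ_self _) (le_max_left _ _)
      · exact lt_of_lt_of_le (ih l hl) (le_max_right _ _)
  obtain ⟨l, hl, h1⟩ := hX (max N (m + 1)) m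
    (lt_of_lt_of_le (Nat.lt_succ_self m) (le_max_right _ _))
  refine ⟨l, hl, ?_⟩
  rcases h1 with h1 | h1
  · have := hN l hl
    have := le_max_left N (m + 1)
    omega
  · exact h1

theorem computable_table (C : ℕ → ℕ → List (ℕ × Bool)) (hC : Computable₂ C) :
    Computable (fun q : ℕ × ℕ => tabAux (fun m _ => C q.1 m) [] q.2) := by
  have h : Computable (fun q : ℕ × ℕ =>
      Nat.rec (motive := fun _ => List (List (ℕ × Bool))) []
        (fun m r => r ++ [C q.1 m]) q.2) := by
    have hg : Computable (fun z : (ℕ × ℕ) × (ℕ × List (List (ℕ × Bool))) =>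
        z.2.2 ++ [C z.1.1 z.2.1]) := by
      refine Computable.list_concat.comp (Computable.snd.comp Computable.snd) ?_
      exact hC.comp (Computable.fst.comp Computable.fst) (Computable.fst.comp Computable.snd)
    exact Computable.nat_rec Computable.snd (Computable.const []) hg.to₂
  refine h.of_eq ?_
  rintro ⟨a, n⟩
  show Nat.rec (motive := fun _ => List (List (ℕ × Bool))) []
        (fun m r => r ++ [C a m]) n = tabAux (fun m _ => C a m) [] n
  induction n with
  | zero => rfl
  | succ n ih => simp only [tabAux, ← ih]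

theorem tabAux_congr (D : ℕ → List (ℕ × Bool)) (σ τ : List ℕ) (n : ℕ) :
    tabAux (fun m _ => D m) σ n = tabAux (fun m _ => D m) τ n := by
  induction n with
  | zero => rfl
  | succ n ih => simp only [tabAux, ih]

end Unsat

open Unsat Clauses in
/-- Module M3b: unsatisfiability of a computable family of clauses is r.e. -/
theorem re_unsat (C : ℕ → ℕ → List (ℕ × Bool)) (hC : Computable₂ C) :
    REPred fun a : ℕ => ¬ ∃ X : ℕ → Bool, ∀ m, ∃ l ∈ C a m, X l.1 = l.2 := by
  have hg : Computable₂ (fun a n : ℕ => !(extB (tabAux (fun m _ => C a m) [] n) n [])) := by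
    have h1 : Primrec (fun q : List (List (ℕ × Bool)) × ℕ => !(extB q.1 q.2 [])) := by
      refine Primrec.not.comp ?_
      exact primrec_extB.comp (Primrec.pair Primrec.fst (Primrec.pair Primrec.snd
        (Primrec.const [])))
    have h2 := h1.to_comp.comp (Computable.pair (computable_table C hC) Computable.snd)
    exact h2.to₂
  refine (re_exists hg).of_eq fun a => ?_
  have key : ∀ n, (!(extB (tabAux (fun m _ => C a m) [] n) n [])) = true ↔
      ¬ E (fun _ => 0) (fun m _ => C a m) n [] := by
    intro n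
    have h1 := ext_iff (fun _ => 0) (fun m _ => C a m) n []
    have hlen : (seg (fun _ => 0) n).length = n := by simp [seg]
    rw [hlen] at h1
    rw [← h1, tabAux_congr (fun m => C a m) (seg (fun _ => 0) n) [] n]
    unfold extB
    simp
  simp only [key]
  constructor
  · rintro ⟨n, hn⟩ ⟨X, hX⟩
    apply hn
    refine ⟨X, by simp, fun m _ => ?_⟩
    obtain ⟨l, hl, h⟩ := hX m
    exact ⟨l, hl, Or.inr h⟩
  · intro h
    by_contra hcon
    push Not at hcon
    exact h (exists_of_E (C a) hcon)

end H87.SF
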