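import Pool.Agent.Helper87.SF.Base
import Pool.Agent.Helper87.SF.UnsatM

/-!
# Module M14: recursion theory
-/

namespace H87.SF

open H97.PAS Function

open Nat.Partrec (Code)

/-- the recursion theorem for r.e. sets -/
theorem exists_fix (R : Set ℕ) (hR : REPred (· ∈ R)) :
    ∃ e, ∀ n, n ∈ W e ↔ Nat.pair e n ∈ R := by
  have h1 : Partrec₂ (fun (c : Code) (n : ℕ) =>
      (Part.assert (Nat.pair (Encodable.encode c) n ∈ R) fun _ => Part.some ()).map
        (fun _ => (0 : ℕ))) := by
    have h2 : Computable (fun q : Code × ℕ => Nat.pair (Encodable.encode q.1) q.2) :=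
      Primrec₂.natPair.to_comp.comp (Computable.encode.comp Computable.fst) Computable.snd
    have h3 : Partrec (fun q : Code × ℕ =>
      Part.assert (Nat.pair (Encodable.encode q.1) q.2 ∈ R) fun _ => Part.some ()) := hR.comp h2
    exact h3.map (Computable.const 0).to₂
  obtain ⟨c, hc⟩ := Code.fixed_point₂ h1
  refine ⟨Encodable.encode c, fun n => ?_⟩
  unfold W prog
  rw [Set.mem_ofPred_eq, Denumerable.ofNat_encode, hc]
  simp [Part.assert]

theorem re_W {f g : ℕ → ℕ} (hf : Computable f) (hg : Computable g) :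
    REPred fun a => g a ∈ W (f a) := by
  have h1 : Partrec (fun a : ℕ => Code.eval (Denumerable.ofNat Code (f a)) (g a)) :=
    Code.eval_part.comp ((Computable.ofNat Code).comp hf) hg
  exact h1.dom_re

/-- r.e. predicates on `ℕ`: closure -/
theorem re_comp {P : ℕ → Prop} (h : REPred P) {f : ℕ → ℕ} (hf : Computable f) :
    REPred fun a => P (f a) := Partrec.comp h hf

theorem re_and {P Q : ℕ → Prop} (h : REPred P) (h' : REPred Q) :
    REPred fun a => P a ∧ Q a := by
  have h1 : Partrec fun a : ℕ => (Part.assert (P a) fun _ => Part.some ()).bind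
      fun _ => Part.assert (Q a) fun _ => Part.some () := by
    refine Partrec.bind h ?_
    exact (Partrec.comp h' Computable.fst).to₂
  refine h1.dom_re.of_eq fun a => ?_
  simp [Part.assert, Part.bind]

theorem re_or {P Q : ℕ → Prop} (h : REPred P) (h' : REPred Q) :
    REPred fun a => P a ∨ Q a := by
  obtain ⟨k, hk, hk'⟩ := Partrec.merge h h' (fun _ _ _ _ _ => rfl)
  refine hk.dom_re.of_eq fun a => ?_
  rw [Part.dom_iff_mem]
  constructor
  · rintro ⟨x, hx⟩
    rcases (hk' a x).1 hx with h1 | h1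
    · left
      obtain ⟨h2, -⟩ := h1
      exact h2.1
    · right
      obtain ⟨h2, -⟩ := h1
      exact h2.1
  · rintro (h1 | h1)
    · exact ⟨(), (hk' a ()).2 (Or.inl ⟨⟨h1, trivial⟩, rfl⟩)⟩
    · exact ⟨(), (hk' a ()).2 (Or.inr ⟨⟨h1, trivial⟩, rfl⟩)⟩

/-- a r.e. predicate is the domain of a code -/
theorem exists_code_of_re {P : ℕ → Prop} (h : REPred P) :
    ∃ c : Code, ∀ a, (c.eval a).Dom ↔ P a := by
  have h1 : Partrec fun a : ℕ => (Part.assert (P a) fun _ => Part.some ()).map
      (fun _ => (0 : ℕ)) := Partrec.map h (Computable.const 0).to₂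
  obtain ⟨c, hc⟩ := Code.exists_code.1 (Partrec.nat_iff.1 h1)
  refine ⟨c, fun a => ?_⟩
  rw [hc]
  simp [Part.assert]

theorem re_ex {P : ℕ → ℕ → Prop} (h : REPred fun a : ℕ => P a.unpair.1 a.unpair.2) :
    REPred fun a => ∃ k, P a k := by
  obtain ⟨c, hc⟩ := exists_code_of_re h
  have h1 : Computable₂ (fun a s : ℕ =>
      (Code.evaln s.unpair.1 c (Nat.pair a s.unpair.2)).isSome) := by
    have h2 : Primrec (fun q : ℕ × ℕ =>
        (Code.evaln q.2.unpair.1 c (Nat.pair q.1 q.2.unpair.2)).isSome) := by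
      refine Primrec.option_isSome.comp ?_
      exact Code.primrec_evaln.comp (f := fun a : (ℕ × Code) × ℕ => Code.evaln a.1.1 a.1.2 a.2)
        (g := fun q : ℕ × ℕ => ((q.2.unpair.1, c), Nat.pair q.1 q.2.unpair.2))
        (Primrec.pair (Primrec.pair (Primrec.fst.comp (Primrec.unpair.comp Primrec.snd))
          (Primrec.const c)) (Primrec₂.natPair.comp Primrec.fst
            (Primrec.snd.comp (Primrec.unpair.comp Primrec.snd))))
    exact h2.to_comp.to₂
  refine (Unsat.re_exists h1).of_eq fun a => ?_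
  constructor
  · rintro ⟨s, hs⟩
    rw [Option.isSome_iff_exists] at hs
    obtain ⟨x, hx⟩ := hs
    refine ⟨s.unpair.2, ?_⟩
    have h2 := (hc (Nat.pair a s.unpair.2)).1
      (Part.dom_iff_mem.2 ⟨x, Code.evaln_sound (Option.mem_def.2 hx)⟩)
    simpa using h2
  · rintro ⟨k, hk⟩
    have h2 := (hc (Nat.pair a k)).2 (by simpa using hk)
    obtain ⟨x, hx⟩ := Part.dom_iff_mem.1 h2
    obtain ⟨m, hm⟩ := Code.evaln_complete.1 hx
    refine ⟨Nat.pair m k, ?_⟩
    simp only [Nat.unpair_pair]
    rw [Option.isSome_iff_exists]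
    exact ⟨x, hm⟩

theorem re_dec {P : ℕ → Prop} (h : PrimrecPred P) : REPred P := by
  obtain ⟨inst, h1⟩ := h
  exact ComputablePred.to_re ⟨inst, h1.to_comp⟩

theorem primrec_beta : Primrec₂ Nat.beta := by
  have h : Primrec (fun q : ℕ × ℕ => q.1.unpair.1 % ((q.2 + 1) * q.1.unpair.2 + 1)) := by
    refine Primrec.nat_mod.comp (Primrec.fst.comp (Primrec.unpair.comp Primrec.fst)) ?_
    refine Primrec.succ.comp ?_
    exact Primrec.nat_mul.comp (Primrec.succ.comp Primrec.snd)
      (Primrec.snd.comp (Primrec.unpair.comp Primrec.fst))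
  exact h

theorem primrec_tauOf : Primrec tauOf := by
  unfold tauOf
  have hu2 : Primrec (fun y : ℕ => y.unpair.2) := Primrec.snd.comp Primrec.unpair
  refine Primrec.list_map (Primrec.list_range.comp
    (Primrec.fst.comp (Primrec.unpair.comp hu2))) ?_
  exact primrec_beta.comp (Primrec.snd.comp (Primrec.unpair.comp (hu2.comp Primrec.fst)))
    Primrec.snd

theorem primrecPred_good (N : ℕ) : PrimrecPred (Good N) := by
  have hd : Primrec dOf := Primrec.fst.comp Primrec.unpair
  have h1 : PrimrecPred (fun y : ℕ => N ≤ dOf y) := Primrec.nat_le.comp (Primrec.const N) hd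
  have h2 : PrimrecPred (fun y : ℕ => (tauOf y).length ≤ dOf y) :=
    Primrec.nat_le.comp (Primrec.list_length.comp primrec_tauOf) hd
  have h3 : PrimrecPred (fun y : ℕ => ∀ k ∈ tauOf y, k < dOf y) := by
    have h4 : PrimrecRel (fun (k y : ℕ) => k < y) := Primrec.nat_lt
    have h5 := h4.forall_mem_list
    exact PrimrecRel.comp h5 primrec_tauOf hd
  exact h1.and (h2.and h3)

/-- the bounded form of `PhiL` -/
def PhiN (c : Code) (k : ℕ) (ρ : List ℕ) (x y : ℕ) : Prop :=
  Code.evaln k c (Nat.pair x (Encodable.encode ρ)) = some (y + 1) ∧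
    ∀ t ∈ List.range ρ.length,
      Code.evaln k c (Nat.pair x (Encodable.encode (ρ.take t))) = some 0

theorem primrec_phiN (c : Code) : PrimrecPred (fun q : ℕ × List ℕ × ℕ × ℕ =>
    PhiN c q.1 q.2.1 q.2.2.1 q.2.2.2) := by
  have hev : ∀ {α : Type} [Primcodable α] {k m : α → ℕ}, Primrec k → Primrec m →
      Primrec (fun a => Code.evaln (k a) c (m a)) := by
    intro α _ k m hk hm
    exact Code.primrec_evaln.comp (f := fun a : (ℕ × Code) × ℕ => Code.evaln a.1.1 a.1.2 a.2)
      (g := fun a => ((k a, c), m a)) (Primrec.pair (Primrec.pair hk (Primrec.const c)) hm)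
  unfold PhiN
  refine PrimrecPred.and ?_ ?_
  · refine Primrec.eq.comp (hev Primrec.fst (Primrec₂.natPair.comp
      (Primrec.fst.comp (Primrec.snd.comp Primrec.snd))
      (Primrec.encode.comp (Primrec.fst.comp Primrec.snd)))) ?_
    exact Primrec.option_some.comp (Primrec.succ.comp
      (Primrec.snd.comp (Primrec.snd.comp Primrec.snd)))
  · have h1 : PrimrecRel (fun (t : ℕ) (q : ℕ × List ℕ × ℕ × ℕ) =>
        Code.evaln q.1 c (Nat.pair q.2.2.1 (Encodable.encode (q.2.1.take t))) = some 0) := by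
      refine Primrec.eq.comp (hev (Primrec.fst.comp Primrec.snd) (Primrec₂.natPair.comp
        (Primrec.fst.comp (Primrec.snd.comp (Primrec.snd.comp Primrec.snd)))
        (Primrec.encode.comp (Primrec.list_take.comp Primrec.fst
          (Primrec.fst.comp (Primrec.snd.comp Primrec.snd)))))) (Primrec.const _)
    have h2 := h1.forall_mem_list
    exact PrimrecRel.comp h2 (Primrec.list_range.comp (Primrec.list_length.comp
      (Primrec.fst.comp Primrec.snd))) Primrec.id

theorem phiL_iff_phiN (e : ℕ) (ρ : List ℕ) (x y : ℕ) :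
    PhiL e ρ x y ↔ ∃ k, PhiN (Denumerable.ofNat Code e) k ρ x y := by
  constructor
  · rintro ⟨h1, h2⟩
    obtain ⟨k₁, hk₁⟩ := Code.evaln_complete.1 h1
    have h3 : ∀ t, ∃ k, t < ρ.length →
        0 ∈ Code.evaln k (Denumerable.ofNat Code e)
          (Nat.pair x (Encodable.encode (ρ.take t))) := by
      intro t
      by_cases ht : t < ρ.length
      · obtain ⟨k, hk⟩ := Code.evaln_complete.1 (h2 t ht)
        exact ⟨k, fun _ => hk⟩
      · exact ⟨0, fun h => absurd h ht⟩
    choose K hK using h3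
    obtain ⟨B, hB⟩ : ∃ B, ∀ t < ρ.length, K t ≤ B := by
      refine ⟨(Finset.range ρ.length).sup K, fun t ht => ?_⟩
      exact Finset.le_sup (f := K) (Finset.mem_range.2 ht)
    refine ⟨max k₁ B, ?_, ?_⟩
    · exact Code.evaln_mono (le_max_left _ _) hk₁
    · intro t ht
      rw [List.mem_range] at ht
      exact Code.evaln_mono ((hB t ht).trans (le_max_right _ _)) (hK t ht)
  · rintro ⟨k, h1, h2⟩
    refine ⟨Code.evaln_sound h1, fun t ht => Code.evaln_sound (h2 t (List.mem_range.2 ht))⟩

/-- finite oracle computations are r.e. -/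
theorem re_phiL (e : ℕ) {h₁ h₂ h₃ : ℕ → ℕ} (c₁ : Computable h₁) (c₂ : Computable h₂)
    (c₃ : Computable h₃) : REPred fun a => PhiL e (tauOf (h₁ a)) (h₂ a) (h₃ a) := by
  classical
  have h1 : Computable₂ (fun a k : ℕ =>
      decide (PhiN (Denumerable.ofNat Code e) k (tauOf (h₁ a)) (h₂ a) (h₃ a))) := by
    have h2 := (primrec_phiN (Denumerable.ofNat Code e)).decide.to_comp
    have h3 : Computable (fun q : ℕ × ℕ => (q.2, tauOf (h₁ q.1), h₂ q.1, h₃ q.1)) :=
      Computable.pair Computable.snd (Computable.pair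
        (primrec_tauOf.to_comp.comp (c₁.comp Computable.fst))
        (Computable.pair (c₂.comp Computable.fst) (c₃.comp Computable.fst)))
    exact (h2.comp h3).to₂
  refine (Unsat.re_exists h1).of_eq fun a => ?_
  rw [phiL_iff_phiN]
  simp only [decide_eq_true_eq]

theorem seg_length (X : ℕ → ℕ) (s : ℕ) : (seg X s).length = s := by simp [seg]

theorem seg_take (X : ℕ → ℕ) {s t : ℕ} (h : t ≤ s) : (seg X s).take t = seg X t := by
  unfold seg
  rw [← List.map_take, List.take_range, min_eq_left h]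

theorem phi_iff (e : ℕ) (X : ℕ → ℕ) (x y : ℕ) :
    Phi e X x y ↔ ∃ s, PhiL e (seg X s) x y := by
  unfold Phi PhiL
  refine exists_congr fun s => and_congr Iff.rfl ?_
  rw [seg_length]
  refine forall_congr' fun t => forall_congr' fun ht => ?_
  rw [seg_take X ht.le]

/-- at most one finite part of the oracle is used -/
theorem phiL_unique {e : ℕ} {X : ℕ → ℕ} {x y y' s s' : ℕ} (h : PhiL e (seg X s) x y)
    (h' : PhiL e (seg X s') x y') : s = s' ∧ y = y' := by
  have key : ∀ {y y' s s' : ℕ}, PhiL e (seg X s) x y → PhiL e (seg X s') x y' → ¬ s < s' := by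
    intro y y' s s' h h' hlt
    have h1 := h'.2 s (by rw [seg_length]; exact hlt)
    rw [seg_take X hlt.le] at h1
    have h2 := Part.mem_unique h1 h.1
    omega
  have hs : s = s' := le_antisymm (not_lt.1 (key h' h)) (not_lt.1 (key h h'))
  subst hs
  refine ⟨rfl, ?_⟩
  have := Part.mem_unique h.1 h'.1
  omega

end H87.SF
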