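import Pool.Agent.Helper87.SF.UnsatM
import Pool.Agent.Helper87.SF.ClausesM

/-!
# Module M3: the set of formulas valid in all models of `PA` is r.e.
-/

namespace H87.SF

open H97.PAS Function

theorem exists_valid : ∃ V : Set ℕ, REPred (· ∈ V) ∧ ∀ φ : AFml, codeA φ ∈ V ↔
    ∀ (M : Type) (A : AStr M) (v : ℕ → M), IsPA A → satA A φ v := by
  obtain ⟨C, hC, h⟩ := exists_clauses
  refine ⟨{a | ¬ ∃ X : ℕ → Bool, ∀ m, ∃ l ∈ C a m, X l.1 = l.2}, re_unsat C hC, fun φ => ?_⟩
  rw [Set.mem_setOf_eq, h]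
  push Not
  exact Iff.rfl

/-- `P` is defined by a formula, in all structures. -/
def Dfn (P : SP) : Prop := ∃ φ : AFml, ∀ (M : Type) (A : AStr M) (v : ℕ → M),
  satA A φ v ↔ P M A v

theorem dfn_ball (n : ℕ) (P : ℕ → SP) (h : ∀ k, Dfn (P k)) :
    Dfn fun M A v => ∀ k < n, P k M A v := by
  induction n with
  | zero =>
    refine ⟨.imp .bot .bot, fun M A v => ?_⟩
    refine ⟨fun _ k hk => absurd hk (Nat.not_lt_zero k), fun _ h => h⟩
  | succ n ih =>
    obtain ⟨ψ, hψ⟩ := ih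
    obtain ⟨χ, hχ⟩ := h n
    refine ⟨Fml.and ψ χ, fun M A v => ?_⟩
    have key : satA A (Fml.and ψ χ) v ↔ satA A ψ v ∧ satA A χ v := Fml.sat_and ψ χ v
    rw [key, hψ, hχ]
    constructor
    · rintro ⟨h1, h2⟩ k hk
      rcases Nat.lt_succ_iff_lt_or_eq.1 hk with h3 | rfl
      exacts [h1 k h3, h2]
    · exact fun h1 => ⟨fun k hk => h1 k (Nat.lt_succ_of_lt hk), h1 n (Nat.lt_succ_self n)⟩

theorem dfn_distinct (N : ℕ) :
    Dfn fun _ _ v => ∀ i < N, ∀ j < N, v i = v j → i = j := by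
  refine dfn_ball N (fun i _ _ v => ∀ j < N, v i = v j → i = j) fun i => ?_
  refine dfn_ball N (fun j _ _ v => v i = v j → i = j) fun j => ?_
  by_cases hij : i = j
  · exact ⟨.imp .bot .bot, fun M A v => ⟨fun _ _ => hij, fun _ h => h⟩⟩
  · refine ⟨.imp (.atom (.var i, .var j)) .bot, fun M A v => ?_⟩
    exact ⟨fun h1 h2 => (h1 h2).elim, fun h1 h2 => hij (h1 h2)⟩

/-- the consequences of a condition of a given form are r.e. -/
theorem re_cons (r : Cond) (φ : AFml) (j : ℕ) :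
    REPred fun y : ℕ => r.Sat fun _ A v => satA A φ (update v j (num A y)) := by
  obtain ⟨V, hV, hVφ⟩ := exists_valid
  obtain ⟨δ, hδ⟩ := dfn_distinct r.N
  let g : ℕ → ℕ := fun y =>
    3 * Nat.pair (codeA (Fml.and r.φ δ)) (codeA (sb (fun k => decide (k = j)) y φ)) + 2
  have hg : Computable g := by
    have h1 : Primrec fun y => codeA (sb (fun k => decide (k = j)) y φ) := primrec_code_sb _ φ
    have h2 : Primrec g :=
      Primrec.nat_add.comp (Primrec.nat_mul.comp (Primrec.const 3)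
        (Primrec₂.natPair.comp (Primrec.const _) h1)) (Primrec.const 2)
    exact h2.to_comp
  have h3 : REPred fun y : ℕ => g y ∈ V := Partrec.comp hV hg
  refine h3.of_eq fun y => ?_
  have h4 : g y = codeA (.imp (Fml.and r.φ δ) (sb1 j y φ)) := rfl
  rw [h4, hVφ]
  have key : ∀ (M : Type) (A : AStr M) (v : ℕ → M),
      satA A (.imp (Fml.and r.φ δ) (sb1 j y φ)) v ↔
        (satA A r.φ v ∧ (∀ i < r.N, ∀ k < r.N, v i = v k → i = k) →
          satA A φ (update v j (num A y))) := by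
    intro M A v
    have h5 : satA A (Fml.and r.φ δ) v ↔ satA A r.φ v ∧ satA A δ v := Fml.sat_and r.φ δ v
    have h6 : satA A δ v ↔ ∀ i < r.N, ∀ k < r.N, v i = v k → i = k := hδ M A v
    rw [← sat_sb1, ← h6, ← h5]
    exact Iff.rfl
  constructor
  · intro h M A v hv
    exact (key M A v).1 (h M A v hv.1) hv.2
  · intro h M A v hA
    exact (key M A v).2 fun h7 => h M A v ⟨hA, h7⟩

end H87.SF
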