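import Pool.Agent.Helper87.SF.CondM
import Pool.Agent.Helper87.SF.GkM
import Pool.Agent.Helper87.SF.RecM
import Pool.Agent.Helper87.SF.ValidM
import Pool.Agent.Helper97.PAS.Sigma1

/-!
# Module M7: the finite description of the relevant consequences of a condition
-/

namespace H87.SF

open H97.PAS Function

theorem entry_congr {M : Type} (A : AStr M) {v w : ℕ → M} (x : ℕ) (h : ∀ i ≤ x, v i = w i) :
    Entry A v x = Entry A w x := by
  have h1 : x.unpair.2 ≤ x := Nat.unpair_right_le x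
  have h2 : x.unpair.2.unpair.1 ≤ x := (Nat.unpair_left_le _).trans h1
  have h3 : x.unpair.2.unpair.2 ≤ x := (Nat.unpair_right_le _).trans h1
  unfold Entry
  split
  · rfl
  · rw [h _ h1]
  · rw [h _ h2, h _ h3]
  · rw [h _ h2, h _ h3]

theorem facts_congr {M : Type} (A : AStr M) {N : ℕ} {v w : ℕ → M} {τ : List ℕ} (hb : Bd N τ)
    (h : ∀ i < N, v i = w i) (hf : Facts A v τ) : Facts A w τ := by
  intro i hi
  rw [← h _ (hb.2 _ (List.getElem_mem hi)), hf i hi]
  exact entry_congr A i fun j hj => h j ((hj.trans_lt hi).trans_le hb.1)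

theorem facts_take {M : Type} {A : AStr M} {v : ℕ → M} {τ : List ℕ} (hf : Facts A v τ) (n : ℕ) :
    Facts A v (τ.take n) := by
  intro i hi
  have hi' : i < τ.length := hi.trans_le (by simp)
  rw [List.getElem_take]
  exact hf i hi'

/-- the finite set of facts implied by a condition -/
theorem exists_max (r : Cond) (hr : r.Cons) : ∃ τ₀, F 0 r τ₀ ∧ ∀ τ, F 0 r τ → ∃ n, τ = τ₀.take n := by
  classical
  have hne : ∃ n, ∃ τ : List ℕ, τ.length = n ∧ F 0 r τ :=
    ⟨0, [], rfl, ⟨⟨Nat.zero_le _, by simp⟩, fun M A v _ i hi => by simp at hi⟩⟩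
  have hbd : ∀ n, (∃ τ : List ℕ, τ.length = n ∧ F 0 r τ) → n ≤ r.N := by
    rintro n ⟨τ, rfl, h⟩
    exact h.1.1
  obtain ⟨τ₀, h1, h2⟩ := Nat.findGreatest_spec (P := fun n => ∃ τ : List ℕ, τ.length = n ∧ F 0 r τ)
    (hbd _ hne.choose_spec) hne.choose_spec
  refine ⟨τ₀, h2, fun τ hτ => ⟨τ.length, ?_⟩⟩
  have hle : τ.length ≤ τ₀.length := by
    rw [h1]
    exact Nat.le_findGreatest (hbd _ ⟨τ, rfl, hτ⟩) ⟨τ, rfl, hτ⟩
  obtain ⟨M, A, v, hv⟩ := hr
  apply List.ext_getElem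
  · simp [hle]
  · intro i hi hi'
    rw [List.getElem_take]
    have hi0 : i < τ₀.length := hi.trans_le hle
    refine hv.2.2 _ (hτ.1.2 _ (List.getElem_mem hi)) _ (h2.1.2 _ (List.getElem_mem hi0)) ?_
    rw [hτ.2 M A v hv i hi, h2.2 M A v hv i hi0]

/-- the consequences of the form `¬ G_k(y)` are r.e. -/
theorem re_notGV {κ : AFml} (hκ : IsKK κ) (k N : ℕ) (s : Cond) :
    REPred fun y : ℕ => s.Sat fun M A v => ¬ GV κ k N y M A v := by
  obtain ⟨φ, hφ⟩ := gv_fml hκ k N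
  have h := re_cons s (Fml.neg φ) N
  have e : (fun y : ℕ => s.Sat fun _ A v => satA A (Fml.neg φ) (update v N (num A y))) =
      fun y : ℕ => s.Sat fun M A v => ¬ GV κ k N y M A v := by
    funext y
    refine propext (forall_congr' fun M => forall_congr' fun A => forall_congr' fun v =>
      forall_congr' fun hv => not_congr (hφ M A hv.1 y v))
  rwa [e] at h

theorem le_of_not_le {M : Type} {A : AStr M} (hA : IsPA A) {x y : M} (h : ¬ A.le x y) : A.le y x :=
  (hA.le_total x y).resolve_left h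

theorem fin {κ : AFml} (hκ : IsKK κ) (k : ℕ) (r : Cond) (hr : r.Cons) : ∃ x : ℕ,
    (∃ (M : Type) (A : AStr M) (v : ℕ → M), r.Mod A v ∧ GV κ k r.N x M A v) ∧
    (∀ q : Cond, q.N = r.N → q.Sat (GV κ k r.N x) → ∀ j ≤ k, Cle κ j r q) ∧
    (∀ (M : Type) (A : AStr M) (b c : M), IsPA A → Gk κ k M A (num A x) b c →
      ∀ i < r.N, ∀ j < i, bv A b c i ≠ bv A b c j) := by
  induction k with
  | zero =>
    obtain ⟨τ₀, h1, h2⟩ := exists_max r hr
    obtain ⟨x, hx1, hx2⟩ := exists_y r.N τ₀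
    refine ⟨x, ?_, ?_, ?_⟩
    · obtain ⟨M, A, v, hv⟩ := hr
      obtain ⟨b, c, hbc⟩ := exists_cod hv.1 r.N v
      refine ⟨M, A, v, hv, b, c, hbc, ?_⟩
      show G0 A (num A x) b c
      rw [g0_iff hv.1, hx1, hx2]
      refine ⟨facts_congr A h1.1 (fun i hi => (hbc i hi).symm) (h1.2 M A v hv), ?_⟩
      intro i hi j hj he
      rw [hbc i hi, hbc j (hj.trans hi)] at he
      exact absurd (hv.2.2 i hi j (hj.trans hi) he) hj.ne'
    · intro q hq hs j hj
      obtain rfl : j = 0 := by omega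
      intro τ hτ
      obtain ⟨n, rfl⟩ := h2 τ hτ
      refine ⟨by rw [hq]; exact hτ.1, fun M A v hv => ?_⟩
      obtain ⟨b, c, hbc, hG⟩ := hs M A v hv
      have hG' : G0 A (num A x) b c := hG
      rw [g0_iff hv.1, hx1, hx2] at hG'
      exact facts_take (facts_congr A h1.1 hbc hG'.1) n
    · intro M A b c hA hG i hi j hj
      have hG' : G0 A (num A x) b c := hG
      rw [g0_iff hA, hx1, hx2] at hG'
      exact hG'.2 i hi j hj
  | succ k ih =>
    obtain ⟨x₀, hA₀, hB₀, hD₀⟩ := ih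
    set N := r.N with hN
    -- the condition `r ∧ G_k(x₀)`
    obtain ⟨φ₀, -, hf₀, hd₀⟩ := (gv_hp hκ k N x₀).exists_free (gv_dep κ k N x₀)
    obtain ⟨r₀, -, hle, hr₀⟩ := exists_and r N le_rfl φ₀ hf₀
    have hmod : ∀ (M : Type) (A : AStr M) (v : ℕ → M), r.Mod A v → GV κ k N x₀ M A v →
        r₀.Mod A v := fun M A v hv hg =>
      (hr₀ M A v).2 ⟨hv.1, hv.2.1, (hd₀ M A hv.1 v).2 hg, hv.2.2⟩
    -- the r.e. set and the fixed point
    obtain ⟨e, he⟩ := exists_fix {p : ℕ | (p.unpair.2.unpair.1 = 0 ∧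
        r₀.Sat fun M A v => ¬ GV κ k N p.unpair.2.unpair.2 M A v) ∨
        (p.unpair.2 = Nat.pair 1 0 ∧
          r₀.Sat fun M A v => ¬ GV κ (k + 1) N (Nat.pair N (Nat.pair p.unpair.1 x₀)) M A v)} (by
      have u2 : Primrec fun p : ℕ => p.unpair.2 := Primrec.snd.comp Primrec.unpair
      have u1 : Primrec fun p : ℕ => p.unpair.1 := Primrec.fst.comp Primrec.unpair
      refine re_or (re_and (re_dec ?_) ?_) (re_and (re_dec ?_) ?_)
      · exact Primrec.eq.comp (u1.comp u2) (Primrec.const 0)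
      · exact re_comp (re_notGV hκ k N r₀) (u2.comp u2).to_comp
      · exact Primrec.eq.comp u2 (Primrec.const _)
      · exact re_comp (re_notGV hκ (k + 1) N r₀)
          (Primrec₂.natPair.comp (Primrec.const N)
            (Primrec₂.natPair.comp u1 (Primrec.const x₀))).to_comp)
    have he0 : ∀ y, Nat.pair 0 y ∈ W e ↔ r₀.Sat fun M A v => ¬ GV κ k N y M A v := by
      intro y
      rw [he, Set.mem_ofPred_eq]
      simp only [Nat.unpair_pair]
      constructor
      · rintro (⟨-, h⟩ | ⟨h, -⟩)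
        · exact h
        · rw [Nat.pair_eq_pair] at h
          exact absurd h.1 (by norm_num)
      · intro h; exact Or.inl ⟨trivial, h⟩
    have he1 : Nat.pair 1 0 ∈ W e ↔
        r₀.Sat fun M A v => ¬ GV κ (k + 1) N (Nat.pair N (Nat.pair e x₀)) M A v := by
      rw [he, Set.mem_ofPred_eq]
      simp only [Nat.unpair_pair]
      constructor
      · rintro (⟨h, -⟩ | ⟨-, h⟩)
        · exact absurd h (by norm_num)
        · exact h
      · intro h; exact Or.inr ⟨trivial, h⟩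
    set x := Nat.pair N (Nat.pair e x₀) with hx
    -- consistency
    have hA : ∃ (M : Type) (A : AStr M) (v : ℕ → M), r.Mod A v ∧ GV κ (k + 1) N x M A v := by
      by_contra hcon
      have hno : ∀ (M : Type) (A : AStr M) (v : ℕ → M), r.Mod A v → ¬ GV κ (k + 1) N x M A v :=
        fun M A v hv hg => hcon ⟨M, A, v, hv, hg⟩
      have hstop : Nat.pair 1 0 ∈ W e := he1.2 fun M A v hv => hno M A v (hle.2 M A v hv)
      obtain ⟨z₀, hz₀⟩ := (hκ.2.2 1 e 0).1 hstop
      obtain ⟨M, A, v, hv, hg⟩ := hA₀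
      have hv₀ := hmod M A v hv hg
      obtain ⟨b, c, hbc, hG⟩ := hg
      refine hno M A v hv ⟨b, c, hbc, (gk_succ_iff hv.1 κ k N e x₀ b c).2 ⟨hG, ?_⟩⟩
      intro y' z hyz hns b' c' hag hG'
      have h1 : ¬ A.le (num A z₀) (A.add y' z) := fun h =>
        hns _ h ((kr_num hκ hv.1 1 e 0 z₀).2 hz₀)
      obtain ⟨m, -, hm⟩ := le_num hv.1 (le_of_not_le hv.1 h1)
      have hy : A.le y' (num A m) := ⟨z, by rw [← hm, hv.1.add_comm]⟩
      have hz : A.le z (num A m) := ⟨y', by rw [← hm]⟩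
      obtain ⟨y₁, -, rfl⟩ := le_num hv.1 hy
      obtain ⟨z₁, -, rfl⟩ := le_num hv.1 hz
      have h2 : Nat.pair 0 y₁ ∈ W e :=
        (hκ.2.2 0 e y₁).2 ⟨z₁, (kr_num hκ hv.1 0 e y₁ z₁).1 hyz⟩
      exact (he0 y₁).1 h2 M A v hv₀ ⟨b', c', fun i hi => (hag i hi).trans (hbc i hi), hG'⟩
    have hstop : Nat.pair 1 0 ∉ W e := by
      intro h
      obtain ⟨M, A, v, hv, b, c, hbc, hG⟩ := hA
      have hg₀ : GV κ k N x₀ M A v := ⟨b, c, hbc, ((gk_succ_iff hv.1 κ k N e x₀ b c).1 hG).1⟩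
      exact he1.1 h M A v (hmod M A v hv hg₀) ⟨b, c, hbc, hG⟩
    refine ⟨x, hA, ?_, ?_⟩
    · intro q hq hs j hj
      rcases Nat.lt_or_ge k j with hkj | hkj
      · obtain rfl : j = k + 1 := by omega
        intro y hy M A v hv hg
        have h1 : Nat.pair 0 y ∈ W e := (he0 y).2 fun M A v hv => hy M A v (hle.2 M A v hv)
        obtain ⟨z₁, hz₁⟩ := (hκ.2.2 0 e y).1 h1
        obtain ⟨b, c, hbc, hG⟩ := hs M A v hv
        obtain ⟨b', c', hbc', hG'⟩ := hg
        refine ((gk_succ_iff hv.1 κ k N e x₀ b c).1 hG).2 (num A y) (num A z₁)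
          ((kr_num hκ hv.1 0 e y z₁).2 hz₁) ?_ b' c' ?_ hG'
        · intro z' hz' hk
          rw [← Sig.num_add hv.1] at hz'
          obtain ⟨m, -, rfl⟩ := le_num hv.1 hz'
          exact hstop ((hκ.2.2 1 e 0).2 ⟨m, (kr_num hκ hv.1 1 e 0 m).1 hk⟩)
        · intro i hi
          rw [hbc' i hi, hbc i hi]
      · refine hB₀ q hq ?_ j hkj
        intro M A v hv
        obtain ⟨b, c, hbc, hG⟩ := hs M A v hv
        exact ⟨b, c, hbc, ((gk_succ_iff hv.1 κ k N e x₀ b c).1 hG).1⟩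
    · intro M A b c hA' hG
      exact hD₀ M A b c hA' ((gk_succ_iff hA' κ k N e x₀ b c).1 hG).1

end H87.SF
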