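import Pool.Agent.Helper87.SF.CondM
import Pool.Agent.Helper87.SF.FinM

/-!
# Module M8: forcing of finite parts of the jumps by simple conditions
-/

namespace H87.SF

open H97.PAS Function

/-- add a predicate to a condition, with the meaning of the formula -/
theorem exists_cond_aux (N n : ℕ) {P : SP} (hP : HP true n P) (hd : Dep N P) :
    ∃ q : Cond, q.N = N ∧ HP true n q.P ∧
      (∀ (M : Type) (A : AStr M) (v : ℕ → M), IsPA A → (satA A q.φ v ↔ P M A v)) ∧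
      ∀ (M : Type) (A : AStr M) (v : ℕ → M), q.Mod A v ↔
        IsPA A ∧ P M A v ∧ ∀ i < N, ∀ j < N, v i = v j → i = j := by
  obtain ⟨φ, h1, h2, h3⟩ := hP.exists_free hd
  refine ⟨⟨N, φ, h2⟩, rfl, ⟨φ, h1, fun M A _ v => Iff.rfl⟩, fun M A v hA => h3 M A hA v,
    fun M A v => ?_⟩
  constructor
  · rintro ⟨hA, hφ, hv⟩
    exact ⟨hA, (h3 M A hA v).1 hφ, hv⟩
  · rintro ⟨hA, hφ, hv⟩
    exact ⟨hA, (h3 M A hA v).2 hφ, hv⟩

/-- add a predicate to a condition -/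
theorem exists_cond (N n : ℕ) {P : SP} (hP : HP true n P) (hd : Dep N P) : ∃ q : Cond, q.N = N ∧
    HP true n q.P ∧ ∀ (M : Type) (A : AStr M) (v : ℕ → M), q.Mod A v ↔
      IsPA A ∧ P M A v ∧ ∀ i < N, ∀ j < N, v i = v j → i = j := by
  obtain ⟨q, h1, h2, -, h4⟩ := exists_cond_aux N n hP hd
  exact ⟨q, h1, h2, h4⟩

/-- the formula of a condition depends only on its constants -/
theorem Cond.dep (p : Cond) {N : ℕ} (hN : p.N ≤ N) : Dep N p.P := by
  intro M A v w _ h hP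
  exact (satA_congr A p.φ fun k hk => h k ((p.free k hk).trans_le hN)).1 hP

theorem Dep.and {N : ℕ} {P Q : SP} (h : Dep N P) (h' : Dep N Q) :
    Dep N fun M A v => P M A v ∧ Q M A v :=
  fun M A v w hA hvw hPQ => ⟨h M A v w hA hvw hPQ.1, h' M A v w hA hvw hPQ.2⟩

/-- the condition `p` together with `G_m(x)`. -/
theorem exists_cond_gv {κ : AFml} (hκ : IsKK κ) (m x : ℕ) (p : Cond) {N : ℕ} (hN : p.N ≤ N) :
    ∃ q : Cond, q.N = N ∧ (∀ n > m, HP true n p.P → HP true n q.P) ∧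
      ∀ (M : Type) (A : AStr M) (v : ℕ → M), q.Mod A v ↔
        IsPA A ∧ (satA A p.φ v ∧ GV κ m N x M A v) ∧ ∀ i < N, ∀ j < N, v i = v j → i = j := by
  obtain ⟨n₀, hn₀⟩ := HP.of_fml p.φ
  have h1 : HP true (max n₀ (m + 1)) p.P := hn₀ _ (le_max_left _ _) true
  have h2 : HP true (max n₀ (m + 1)) (GV κ m N x) := (gv_hp hκ m N x).up (le_max_right _ _)
  obtain ⟨q, hq1, -, hq3, hq4⟩ := exists_cond_aux N _ (h1.and h2)
    ((p.dep hN).and (gv_dep κ m N x))
  refine ⟨q, hq1, fun n hn hp => ?_, hq4⟩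
  refine (hp.and ((gv_hp hκ m N x).up hn)).congr fun M A e hA => ?_
  exact (hq3 M A e hA).symm

theorem F_of_cle {κ : AFml} (hκ : IsKK κ) (m : ℕ) (r q : Cond) (hN : q.N = r.N)
    (hc : ∀ j ≤ m, Cle κ j r q) {τ : List ℕ} (hF : F m r τ) : F m q τ := by
  induction m generalizing r q τ with
  | zero => exact hc 0 le_rfl τ hF
  | succ m ih =>
    intro i hi
    rcases hF i hi with ⟨h1, ρ, h2, h3⟩ | ⟨h1, h2⟩
    · exact Or.inl ⟨h1, ρ, h2, ih r q hN (fun j hj => hc j (hj.trans (Nat.le_succ m))) h3⟩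
    · refine Or.inr ⟨h1, fun s hs hsq ρ hρ hFs => ?_⟩
      obtain ⟨x, hA, hB, hD⟩ := fin hκ m s hs
      have hrs : r.N ≤ s.N := by
        rw [← hN]
        exact hsq.1
      obtain ⟨r', hr'N, -, hr'⟩ := exists_cond_gv hκ m x r hrs
      by_cases hcons : r'.Cons
      · have hle : r' ≤ r := by
          refine ⟨by rw [hr'N]; exact hrs, fun M A v hv => ?_⟩
          obtain ⟨ha, hb, hd⟩ := (hr' M A v).1 hv
          exact ⟨ha, hb.1, fun i hi j hj => hd i (hi.trans_le hrs) j (hj.trans_le hrs)⟩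
        refine h2 r' hcons hle ρ hρ (ih s r' hr'N ?_ hFs)
        exact hB r' hr'N fun M A v hv => ((hr' M A v).1 hv).2.1.2
      · have hno : r.Sat fun M A v => ¬ GV κ m r.N x M A v := by
          rintro M A v hv ⟨b, c, hbc, hG⟩
          apply hcons
          refine ⟨M, A, bv A b c, (hr' M A _).2 ⟨hv.1, ⟨?_, b, c, fun _ _ => rfl, hG⟩, ?_⟩⟩
          · exact (satA_congr A r.φ fun k hk => hbc k (r.free k hk)).2 hv.2.1
          · intro i hi j hj hij
            rcases lt_trichotomy i j with h | h | h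
            · exact absurd hij.symm (hD M A b c hv.1 hG j hj i h)
            · exact h
            · exact absurd hij (hD M A b c hv.1 hG i hi j h)
        obtain ⟨M, A, v, hv, b, c, hbc, hG⟩ := hA
        exact hc (m + 1) le_rfl x hno M A v (hsq.2 M A v hv)
          ⟨b, c, fun i hi => hbc i (hi.trans_le hrs), hG⟩

theorem lemmaL {κ : AFml} (hκ : IsKK κ) (m : ℕ) (p r : Cond) (hr : r.Cons) (hrp : r ≤ p)
    {τ : List ℕ} (hF : F m r τ) : ∃ q : Cond, q.Cons ∧ q ≤ p ∧ F m q τ ∧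
      ∀ n > m, HP true n p.P → HP true n q.P := by
  obtain ⟨x, hA, hB, -⟩ := fin hκ m r hr
  obtain ⟨q, hqN, hq, hmod⟩ := exists_cond_gv hκ m x p hrp.1
  refine ⟨q, ?_, ?_, ?_, hq⟩
  · obtain ⟨M, A, v, hv, hG⟩ := hA
    exact ⟨M, A, v, (hmod M A v).2 ⟨hv.1, ⟨(hrp.2 M A v hv).2.1, hG⟩, hv.2.2⟩⟩
  · refine ⟨by rw [hqN]; exact hrp.1, fun M A v hv => ?_⟩
    obtain ⟨ha, hb, hd⟩ := (hmod M A v).1 hv
    exact ⟨ha, hb.1, fun i hi j hj => hd i (hi.trans_le hrp.1) j (hj.trans_le hrp.1)⟩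
  · refine F_of_cle hκ m r q hqN ?_ hF
    exact hB q hqN fun M A v hv => ((hmod M A v).1 hv).2.1.2

end H87.SF
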