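import Pool.Agent.Helper87.SF.WinM
import Pool.Agent.Helper87.SF.ForceM

/-!
# Module M12: the winning conditions are dense
-/

namespace H87.SF

open H97.PAS Function

/-- the situation after `j` forced changes at level `n` -/
def DMStage (g : ℕ → ℕ) (n j : ℕ) (q : Cond) : Prop :=
  HP true n q.P ∧ ∃ s e : ℕ → ℕ, (∀ i < j, s i < s (i + 1) ∧ e i ≠ e (i + 1)) ∧
    (∀ i ≤ j, ∃ τ, F (n - 1) q τ ∧ PhiL (g n) τ (s i) (e i)) ∧
    ∃ σ : AFml, Hier true n σ ∧ (∀ k, ¬ freeA σ k) ∧ Miss (e j) σ q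

theorem dm_miss_mono {e : ℕ} {σ : AFml} {p q : Cond} (h : Miss e σ p) (hq : q ≤ p) :
    Miss e σ q := by
  obtain ⟨τ, h1, h2, h3⟩ := h
  exact ⟨τ, F_mono hq h1, h2, h3.mono hq⟩

theorem dm_stage {g h : ℕ → ℕ} {n : ℕ} (hn : 2 ≤ n) (p : Cond) (hp : p.Cons)
    (hpn : HP true n p.P) (j : ℕ) :
    (∃ q : Cond, q.Cons ∧ q ≤ p ∧ Win g h q) ∨ ∃ q : Cond, q.Cons ∧ q ≤ p ∧ DMStage g n j q := by
  obtain ⟨κ, hκ⟩ := exists_KK
  have h1n : 1 ≤ n := by omega
  induction j with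
  | zero =>
    by_cases h0 : ∀ r : Cond, r.Cons → r ≤ p → ∀ τ e, F (n - 1) r τ → ¬ PhiL (g n) τ 0 e
    · exact Or.inl ⟨p, hp, Cond.le_refl p, n, h1n, Or.inl ⟨0, h0⟩⟩
    · push Not at h0
      obtain ⟨r, hr, hrp, τ, e, hF, hPhi⟩ := h0
      obtain ⟨q, hq, hqp, hqF, hqn⟩ := lemmaL hκ (n - 1) p r hr hrp hF
      obtain ⟨σ, hσ, hσf, q', hq', hqq', hB⟩ := win hn q hq (hqn n (by omega) hpn) e
      rcases hB with hB | ⟨hB, hM⟩
      · exact Or.inl ⟨q', hq', Cond.le_trans hqq' hqp, n, h1n,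
          Or.inr (Or.inl ⟨0, τ, e, σ, F_mono hqq' hqF, hPhi, hσ, hσf, hB⟩)⟩
      · refine Or.inr ⟨q', hq', Cond.le_trans hqq' hqp, hB, fun _ => 0, fun _ => e, ?_, ?_,
          σ, hσ, hσf, hM⟩
        · intro i hi
          exact absurd hi (Nat.not_lt_zero i)
        · intro i _
          exact ⟨τ, F_mono hqq' hqF, hPhi⟩
  | succ j ih =>
    rcases ih with ih | ⟨q, hq, hqp, hqn, s, e, hch, hval, σ, hσ, hσf, hM⟩
    · exact Or.inl ih
    by_cases h0 : ∀ r : Cond, r.Cons → r ≤ q → ∀ s' > s j, ∀ τ' e', F (n - 1) r τ' →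
      PhiL (g n) τ' s' e' → e' = e j
    · obtain ⟨τ, hτ, hτ'⟩ := hval j (Nat.le_refl j)
      exact Or.inl ⟨q, hq, hqp, n, h1n,
        Or.inr (Or.inr (Or.inl ⟨s j, τ, e j, σ, hτ, hτ', hσ, hσf, hM, h0⟩))⟩
    · push Not at h0
      obtain ⟨r, hr, hrq, s', hs', τ', e', hF, hPhi, hne⟩ := h0
      obtain ⟨q1, hq1, hq1q, hq1F, hq1n⟩ := lemmaL hκ (n - 1) q r hr hrq hF
      obtain ⟨σ', hσ', hσf', q2, hq2, hq21, hB⟩ := win hn q1 hq1 (hq1n n (by omega) hqn) e'
      have hq2q : q2 ≤ q := Cond.le_trans hq21 hq1q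
      rcases hB with hB | ⟨hB, hM'⟩
      · exact Or.inl ⟨q2, hq2, Cond.le_trans hq2q hqp, n, h1n,
          Or.inr (Or.inl ⟨s', τ', e', σ', F_mono hq21 hq1F, hPhi, hσ', hσf', hB⟩)⟩
      · refine Or.inr ⟨q2, hq2, Cond.le_trans hq2q hqp, hB,
          fun i => if i ≤ j then s i else s', fun i => if i ≤ j then e i else e', ?_, ?_,
          σ', hσ', hσf', ?_⟩
        · intro i hi
          rcases Nat.lt_or_ge i j with hij | hij
          · have h1 : i ≤ j := hij.le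
            have h2 : i + 1 ≤ j := hij
            simp only [h1, h2, if_true]
            exact hch i hij
          · have h1 : i = j := by omega
            subst h1
            have h2 : ¬ (i + 1 ≤ i) := by omega
            simp only [le_refl, if_true, h2, if_false]
            exact ⟨hs', fun h => hne h.symm⟩
        · intro i hi
          by_cases hij : i ≤ j
          · simp only [hij, if_true]
            obtain ⟨τ, hτ, hτ'⟩ := hval i hij
            exact ⟨τ, F_mono hq2q hτ, hτ'⟩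
          · simp only [hij, if_false]
            exact ⟨τ', F_mono hq21 hq1F, hPhi⟩
        · have h2 : ¬ (j + 1 ≤ j) := by omega
          simp only [h2, if_false]
          exact hM'

theorem dense_win (g h : ℕ → ℕ) (p : Cond) (hp : p.Cons) :
    ∃ q : Cond, q.Cons ∧ q ≤ p ∧ Win g h q := by
  obtain ⟨n0, hn0⟩ := HP.of_fml p.φ
  have hpn : HP true (max n0 2) p.P := hn0 _ (le_max_left _ _) true
  have hn : 2 ≤ max n0 2 := le_max_right _ _
  generalize max n0 2 = n at hpn hn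
  rcases dm_stage (g := g) (h := h) hn p hp hpn (h n + 1) with hw | ⟨q, hq, hqp, -, s, e, h1, h2, -⟩
  · exact hw
  · refine ⟨q, hq, hqp, n, by omega, Or.inr (Or.inr (Or.inr ⟨s, e, ?_, h2⟩))⟩
    intro j hj
    exact h1 j (by omega)

end H87.SF
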