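import Pool.Agent.Helper87.SF.Base
import Pool.Agent.Helper97.PAS.Sigma1

/-!
# Module M5: the bounded formula for `⟨i, y⟩ ∈ W_x`
-/

namespace H87.SF

open H97.PAS Function

namespace Repr

open H97.PAS.Sig (T0 D0)

/-- semantic bounded formulas are given by syntactic ones -/
theorem conv {S : (ℕ → ℕ) → Prop} (h : D0 S) (N : ℕ) (ρ : ℕ → ℕ) (hρ : ∀ i, ρ i < N) :
    ∃ θ : AFml, IsD0 θ ∧ (∀ k, freeA θ k → k < N) ∧
      ∀ v : ℕ → ℕ, satA std θ v ↔ S (fun i => v (ρ i)) := by
  induction h generalizing N ρ with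
  | eq hf hg =>
    obtain ⟨t, h1, h2⟩ := hf.conv N ρ hρ
    obtain ⟨t', h1', h2'⟩ := hg.conv N ρ hρ
    refine ⟨.atom (t, t'), IsD0.atom _, fun k hk => hk.elim (h1 k) (h1' k), fun v => ?_⟩
    show t.val std v = t'.val std v ↔ _
    rw [h2, h2']
  | bot => exact ⟨.bot, IsD0.bot, fun k hk => hk.elim, fun v => Iff.rfl⟩
  | imp _ _ ih1 ih2 =>
    obtain ⟨θ, a1, a2, a3⟩ := ih1 N ρ hρ
    obtain ⟨θ', b1, b2, b3⟩ := ih2 N ρ hρ
    exact ⟨.imp θ θ', IsD0.imp a1 b1, fun k hk => hk.elim (a2 k) (b2 k),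
      fun v => imp_congr (a3 v) (b3 v)⟩
  | @ball f S hf _ ih =>
    obtain ⟨t, h1, h2⟩ := hf.conv N ρ hρ
    obtain ⟨θ, a1, a2, a3⟩ := ih (N + 1) (Sig.cns N ρ) (fun i => by
      cases i with
      | zero => exact Nat.lt_succ_self N
      | succ i => exact (hρ i).trans (Nat.lt_succ_self N))
    refine ⟨Sig.ballF N t θ, ?_, ?_, ?_⟩
    · exact IsD0.ball (i := N) (j := N + 1) (t := t) (φ := θ) (by omega)
        (fun hk => absurd (h1 _ hk) (by omega)) (fun hk => absurd (h1 _ hk) (by omega)) a1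
    · rintro k ⟨hkN, hk⟩
      rcases hk with hk | hk
      · rcases hk with hk | hk
        · obtain ⟨hk1, hk⟩ := hk
          rcases hk with hk | hk
          · rcases hk with hk | hk
            · rcases hk with hk | hk
              · exact absurd hk hk1
              · exact absurd hk hkN
            · exact h1 k hk
          · exact hk.elim
        · exact hk.elim
      · have := a2 k hk
        omega
    · intro v
      rw [Sig.satA_ballF std h1, h2]
      refine forall_congr' fun x => ?_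
      refine imp_congr ?_ ?_
      · constructor
        · rintro ⟨z, hz⟩
          have : z + x = f (fun i => v (ρ i)) := hz
          omega
        · intro hx
          exact ⟨f (fun i => v (ρ i)) - x, by
            show f (fun i => v (ρ i)) - x + x = _
            omega⟩
      · rw [a3]
        have : (fun i => update v N x (Sig.cns N ρ i)) = Sig.cns x (fun i => v (ρ i)) := by
          ext i
          cases i with
          | zero => exact update_self _ _ _
          | succ i => exact update_of_ne (hρ i).ne _ _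
        rw [this]

/-- the universal r.e. set -/
theorem re_univ : REPred (· ∈ {p : ℕ | p.unpair.2 ∈ W p.unpair.1}) := by
  have h1 : Partrec (fun a : ℕ => Nat.Partrec.Code.eval
      (Denumerable.ofNat Nat.Partrec.Code a.unpair.1) a.unpair.2) :=
    Nat.Partrec.Code.eval_part.comp
      ((Computable.ofNat Nat.Partrec.Code).comp (Computable.fst.comp Computable.unpair))
      (Computable.snd.comp Computable.unpair)
  exact h1.dom_re

end Repr

theorem exists_KK : ∃ κ : AFml, IsKK κ := by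
  obtain ⟨T, hT, hST⟩ := Sig.re_matrix Repr.re_univ
  have hD : Sig.D0 (fun e => ∃ s ≤ e 3, ∃ p ≤ e 3,
      (∃ q ≤ e 3, q = Nat.pair (e 0) (e 2) ∧ p = Nat.pair (e 1) q) ∧ T p s) := by
    refine Sig.D0.ex (Sig.T0.var 3) (Sig.D0.ex (Sig.T0.var 4) (Sig.D0.and ?_ hT))
    -- `p = e 0`, `s = e 1`, `i = e 2`, `x = e 3`, `y = e 4`, `z = e 5`
    refine Sig.D0.ex (Sig.T0.var 5) (Sig.D0.and ?_ ?_)
    · exact Sig.D0.pair (Sig.T0.var 3) (Sig.T0.var 5) (Sig.T0.var 0)
    · exact Sig.D0.pair (Sig.T0.var 4) (Sig.T0.var 0) (Sig.T0.var 1)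
  obtain ⟨κ, h1, h2, h3⟩ := Repr.conv hD 4 (fun i => if i < 4 then i else 0) (fun i => by
    show (if i < 4 then i else 0) < 4
    split_ifs <;> omega)
  refine ⟨κ, h1, h2, fun i x y => ?_⟩
  have h4 : Nat.pair i y ∈ W x ↔
      Nat.pair x (Nat.pair i y) ∈ {p : ℕ | p.unpair.2 ∈ W p.unpair.1} := by
    simp
  rw [h4, hST]
  constructor
  · rintro ⟨s, hs⟩
    refine ⟨s + Nat.pair i y + Nat.pair x (Nat.pair i y), ?_⟩
    rw [h3]
    exact ⟨s, by show s ≤ s + _ + _; omega, Nat.pair x (Nat.pair i y),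
      by show _ ≤ s + _ + _; omega, ⟨Nat.pair i y, by show _ ≤ s + _ + _; omega, rfl, rfl⟩, hs⟩
  · rintro ⟨z, hz⟩
    rw [h3] at hz
    obtain ⟨s, -, p, -, ⟨q, -, hq, hp⟩, h5⟩ := hz
    have hq' : q = Nat.pair i y := hq
    have hp' : p = Nat.pair x q := hp
    subst hq'
    subst hp'
    exact ⟨s, h5⟩

end H87.SF
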