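import Pool.Agent.Helper87.SF.GkM
import Pool.Agent.Helper87.SF.RecM
import Pool.Agent.Helper87.SF.ValidM
import Pool.Agent.Helper87.SF.ReprM
import Pool.Agent.Helper87.SF.ForceM

/-!
# A condition without standard models
-/

namespace H87.SF

open H97.PAS Function

private theorem start_num_std (n : ℕ) : num std n = n := by
  induction n with
  | zero => rfl
  | succ n ih => rw [num, iterate_succ', comp_apply]; change Nat.succ (num std n) = _; rw [ih]

private theorem start_isPA_std : IsPA std where
  succ_ne_zero := fun x => Nat.succ_ne_zero x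
  succ_inj := fun x y h => Nat.succ.inj h
  add_zero := fun x => rfl
  add_succ := fun x y => rfl
  mul_zero := fun x => rfl
  mul_succ := fun x y => rfl
  ind := fun φ i v h0 hs x => by
    induction x with
    | zero => exact h0
    | succ n ih => exact hs n ih

private theorem start_numT {M : Type} (A : AStr M) (v : ℕ → M) (n : ℕ) :
    (numT n).val A v = num A n := by
  induction n with
  | zero => rfl
  | succ n ih =>
    rw [num, iterate_succ', comp_apply]
    change A.succ ((numT n).val A v) = _
    rw [ih]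
    rfl

/-- the formula `∃ z κ(1, v_0, 0, z)` -/
private theorem start_fml (κ : AFml) : ∃ ψ : AFml, ∀ (M : Type) (A : AStr M) (v : ℕ → M),
    satA A ψ v ↔ ∃ z, KR κ A (num A 1) (v 0) (num A 0) z := by
  obtain ⟨κ', hκ'⟩ := renA κ (fun k => if k = 0 then 1 else if k = 1 then 0 else
    if k = 2 then 2 else 3)
  refine ⟨Fml.ex 1 (Fml.and (.atom (.var 1, .succ .zero))
    (Fml.ex 2 (Fml.and (.atom (.var 2, .zero)) (Fml.ex 3 κ')))), fun M A v => ?_⟩
  have key : ∀ x y z : M, satA A κ' (update (update (update v 1 x) 2 y) 3 z) ↔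
      KR κ A x (v 0) y z := by
    intro x y z
    rw [hκ', KR]
    have : (update (update (update v 1 x) 2 y) 3 z ∘ fun k => if k = 0 then 1 else
        if k = 1 then 0 else if k = 2 then 2 else 3) = a4 x (v 0) y z := by
      funext k
      rcases k with _ | _ | _ | k
      · simp [a4, update]
      · simp [a4, update]
      · simp [a4, update]
      · simp [a4, update]
    rw [this]
  unfold satA at key ⊢
  simp only [Fml.sat_ex, Fml.sat_and, Fml.sat_atom, Tm.val, key]
  constructor
  · rintro ⟨x, hx, y, hy, z, hz⟩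
    have hx' : x = num A 1 := by rw [update_self] at hx; exact hx
    have hy' : y = num A 0 := by rw [update_self] at hy; exact hy
    subst hx' hy'
    exact ⟨z, hz⟩
  · rintro ⟨z, hz⟩
    exact ⟨num A 1, by simp [num], num A 0, by simp [num], z, hz⟩

/-- a sentence equivalent to a formula whose truth value does not depend on the assignment -/
private theorem start_close (ψ : AFml) : ∃ χ : AFml, (∀ k, ¬ freeA χ k) ∧
    ∀ (M : Type) (A : AStr M) (v : ℕ → M), satA A χ v ↔ ∀ w, satA A ψ w := by
  obtain ⟨N, hN⟩ := exists_boundA ψ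
  refine ⟨ψ.closeFrom 0 N, fun k hk => ?_, fun M A v => ?_⟩
  · have h1 := (Fml.free_closeFrom 0 N ψ k).1 hk
    have h2 := hN k h1.2
    omega
  · have h1 := Fml.sat_closeFrom (I := fun (a : Tm × Tm) w => a.1.val A w = a.2.val A w) 0 N ψ v
    change (Fml.closeFrom 0 N ψ).Sat _ v ↔ _
    rw [h1]
    constructor
    · intro h w
      have h2 := h (fun k => if k < N then w k else v k) (fun k hk => by
        rw [if_neg (by omega)])
      refine (satA_congr A ψ fun k hk => ?_).1 h2
      rw [if_pos (hN k hk)]
    · intro h w _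
      exact h w

/-- a condition without standard models -/
theorem exists_start : ∃ p : Cond, p.Cons ∧
    ∀ (M : Type) (A : AStr M) (v : ℕ → M), p.Mod A v → A.Nonstandard := by
  obtain ⟨κ, hκ⟩ := exists_KK
  obtain ⟨ψ, hψ⟩ := start_fml κ
  let r : Cond := ⟨0, .imp .bot .bot, fun k hk => by
    rcases hk with h | h
    · exact absurd h id
    · exact absurd h id⟩
  have hr : ∀ (M : Type) (A : AStr M) (v : ℕ → M), IsPA A → r.Mod A v := fun M A v hA =>
    ⟨hA, fun h => h, fun i hi => absurd hi (Nat.not_lt_zero i)⟩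
  obtain ⟨e, he⟩ := exists_fix {a : ℕ | r.Sat fun _ A v =>
    satA A (Fml.neg ψ) (update v 0 (num A a.unpair.1))}
    (re_comp (re_cons r (Fml.neg ψ) 0) (Computable.fst.comp Computable.unpair))
  have he' : ∀ n, n ∈ W e ↔ r.Sat fun _ A _ => ¬ ∃ z, KR κ A (num A 1) (num A e) (num A 0) z := by
    intro n
    rw [he n, Set.mem_ofPred_eq]
    have : ∀ (M : Type) (A : AStr M) (v : ℕ → M),
        satA A (Fml.neg ψ) (update v 0 (num A (Nat.pair e n).unpair.1)) ↔
          ¬ ∃ z, KR κ A (num A 1) (num A e) (num A 0) z := by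
      intro M A v
      have h1 := hψ M A (update v 0 (num A (Nat.pair e n).unpair.1))
      rw [update_self, Nat.unpair_pair] at h1
      rw [Nat.unpair_pair]
      exact not_congr h1
    constructor
    · intro h M A v hv
      exact (this M A v).1 (h M A v hv)
    · intro h M A v hv
      exact (this M A v).2 (h M A v hv)
  have hnot : Nat.pair 1 0 ∉ W e := by
    intro h
    have h1 := (he' _).1 h ℕ std id (hr _ _ _ start_isPA_std)
    beta_reduce at h1
    rw [start_num_std, start_num_std, start_num_std] at h1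
    exact h1 ((hκ.2.2 1 e 0).1 h)
  -- the sentence
  obtain ⟨χ, hχ1, hχ2⟩ := start_close (.imp (.atom (.var 0, numT e)) ψ)
  have hχ : ∀ (M : Type) (A : AStr M) (v : ℕ → M),
      satA A χ v ↔ ∃ z, KR κ A (num A 1) (num A e) (num A 0) z := by
    intro M A v
    rw [hχ2]
    constructor
    · intro h
      have h1 := h (fun _ => num A e) (by
        change (Tm.var 0).val A _ = (numT e).val A _
        rw [start_numT]
        rfl)
      exact (hψ M A _).1 h1
    · intro h w hw
      change (Tm.var 0).val A w = (numT e).val A w at hw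
      rw [start_numT] at hw
      refine (hψ M A w).2 ?_
      change w 0 = num A e at hw
      rw [hw]
      exact h
  refine ⟨⟨0, χ, fun k hk => absurd hk (hχ1 k)⟩, ?_, ?_⟩
  · have h1 : ¬ r.Sat fun _ A _ => ¬ ∃ z, KR κ A (num A 1) (num A e) (num A 0) z :=
      fun h => hnot ((he' _).2 h)
    unfold Cond.Sat at h1
    push Not at h1
    obtain ⟨M, A, v, hv, z, hz⟩ := h1
    exact ⟨M, A, v, hv.1, (hχ M A v).2 ⟨z, hz⟩, fun i hi => absurd hi (Nat.not_lt_zero i)⟩
  · rintro M A v ⟨hA, hs, -⟩
    obtain ⟨z, hz⟩ := (hχ M A v).1 hs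
    refine ⟨z, fun k hk => hnot ?_⟩
    subst hk
    exact (hκ.2.2 1 e 0).2 ⟨k, (kr_num hκ hA 1 e 0 k).1 hz⟩

end H87.SF
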