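import Pool.Agent.Helper87.SF.DenseM
import Pool.Agent.Helper87.SF.StartM

/-!
# Final assembly
-/

namespace H87.SF

open H97.PAS Function

section

variable {A : AStr ℕ} {G : ℕ → Cond}

theorem fm_forced (hG : Generic A G)
    (hdec : ∀ m L, ∃ i, ∃ τ : List ℕ, τ.length = L ∧ F m (G i) τ) (m L : ℕ) :
    ∃ j, F m (G j) (seg (jumps m A.diag) L) :=
  (truth_F hG hdec m _).1 (by simp [seg])

theorem fm_eq (hG : Generic A G)
    (hdec : ∀ m L, ∃ i, ∃ τ : List ℕ, τ.length = L ∧ F m (G i) τ) {m j : ℕ} {τ : List ℕ}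
    (h : F m (G j) τ) : τ = seg (jumps m A.diag) τ.length :=
  (truth_F hG hdec m _).2 ⟨j, h⟩

/-- every computation with the true oracle is forced below any condition of the sequence -/
theorem fm_phi (hG : Generic A G)
    (hdec : ∀ m L, ∃ i, ∃ τ : List ℕ, τ.length = L ∧ F m (G i) τ) {m e x y : ℕ}
    (h : Phi e (jumps m A.diag) x y) (i : ℕ) :
    ∃ r : Cond, r.Cons ∧ r ≤ G i ∧ ∃ τ, F m r τ ∧ PhiL e τ x y := by
  obtain ⟨L, hL⟩ := (phi_iff e _ x y).1 h
  obtain ⟨j, hj⟩ := fm_forced hG hdec m L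
  refine ⟨G (max i j), hG.cons _, hG.le (le_max_left i j), _, F_mono (hG.le (le_max_right i j)) hj,
    hL⟩

/-- a forced computation gives the true value -/
theorem fm_val (hG : Generic A G)
    (hdec : ∀ m L, ∃ i, ∃ τ : List ℕ, τ.length = L ∧ F m (G i) τ) {m e x y y' j : ℕ}
    {τ : List ℕ} (h : Phi e (jumps m A.diag) x y) (hτ : F m (G j) τ) (hy : PhiL e τ x y') :
    y = y' := by
  obtain ⟨L, hL⟩ := (phi_iff e _ x y).1 h
  rw [fm_eq hG hdec hτ] at hy
  exact (phiL_unique hL hy).2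

theorem fm_change {f : ℕ → ℕ} {a b : ℕ} (hab : a < b) (h : f a ≠ f b) :
    ∃ u, a ≤ u ∧ u < b ∧ f (u + 1) ≠ f u := by
  by_contra hcon
  push Not at hcon
  have key : ∀ d, a + d ≤ b → f (a + d) = f a := by
    intro d
    induction d with
    | zero => intro _; rfl
    | succ d ih =>
      intro hd
      rw [← ih (by omega)]
      exact hcon (a + d) (by omega) (by omega)
  apply h
  have := key (b - a) (by omega)
  rw [Nat.add_sub_cancel' hab.le] at this
  exact this.symm

theorem win_sound {A : AStr ℕ} {G : ℕ → Cond} (hG : Generic A G)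
    (hdec : ∀ m L, ∃ i, ∃ τ : List ℕ, τ.length = L ∧ F m (G i) τ) {g h : ℕ → ℕ} {i : ℕ}
    (hw : Win g h (G i)) {t : ℕ → ℕ → ℕ} (ht : SolovayFamily A t)
    (hg : ∀ n ≥ 1, ∀ s, Phi (g n) (jumps (n - 1) A.diag) s (t n s)) :
    ∃ n ≥ 1, ¬ ChangesAtMost (h n) (t n) := by
  obtain ⟨n, hn, hW⟩ := hw
  refine ⟨n, hn, fun hch => ?_⟩
  rcases hW with ⟨s, hs⟩ | ⟨s, τ, e, σ, hF, hP, hσ, hσf, hB⟩ | ⟨s, τ, e, σ, hF, hP, hσ, hσf, hM, hall⟩ |
    ⟨s, e, hse, hval⟩
  · obtain ⟨r, hr, hri, τ, hτ, hτ'⟩ := fm_phi hG hdec (hg n hn s) i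
    exact hs r hr hri τ _ hτ hτ'
  · have he : t n s = e := fm_val hG hdec (hg n hn s) hF hP
    obtain ⟨S, hS, hidx⟩ := ht.sub n hn s
    rw [he] at hidx
    rcases hB with hB | ⟨τ', y, hF', hP', hsat⟩
    · have : ∃ y, Phi e A.diag (codeA σ) y := by
        by_cases hx : codeA σ ∈ S
        · exact ⟨1, (hidx _).1 hx⟩
        · exact ⟨0, (hidx _).2 hx⟩
      obtain ⟨y, hy⟩ := this
      obtain ⟨r, hr, hri, τ', hτ, hτ'⟩ := fm_phi (m := 0) hG hdec hy i
      exact hB r hr hri τ' y hτ hτ'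
    · have hx : codeA σ ∈ S := by
        by_contra hx
        have := fm_val (m := 0) hG hdec ((hidx _).2 hx) hF' hP'
        omega
      obtain ⟨φ, hφ, -, -, htrue⟩ := hS hx
      rw [codeA_injective hφ] at htrue
      have hneg : satA A (Fml.neg σ) (id : ℕ → ℕ) := by
        apply hG.sound (Fml.neg σ) id i
        intro M B v hv
        exact hsat M B v hv
      exact hneg (htrue id)
  · obtain ⟨e', s₀, hlim, hidx⟩ := ht.lim n hn
    have key : ∀ s' > s, t n s' = e := by
      intro s' hs'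
      obtain ⟨r, hr, hri, τ', hτ, hτ'⟩ := fm_phi hG hdec (hg n hn s') i
      exact hall r hr hri s' hs' τ' _ hτ hτ'
    have hee : e' = e := by
      rw [← hlim (max s₀ (s + 1)) (le_max_left _ _)]
      exact key _ (by have := le_max_right s₀ (s + 1); omega)
    rw [hee] at hidx
    obtain ⟨τ', hF', hP', hsat⟩ := hM
    have htrue : codeA σ ∈ SigTh A n := by
      refine ⟨σ, rfl, hσ, hσf, fun v => ?_⟩
      apply hG.sound σ v i
      intro M B w hw
      refine (satA_congr B σ fun k hk => ?_).1 (hsat M B w hw)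
      exact absurd hk (hσf k)
    have := fm_val (m := 0) hG hdec ((hidx _).1 htrue) hF' hP'
    omega
  · have hv : ∀ j ≤ h n + 1, t n (s j) = e j := by
      intro j hj
      obtain ⟨τ, hF, hP⟩ := hval j hj
      exact fm_val hG hdec (hg n hn (s j)) hF hP
    have hex : ∀ j, ∃ u, j ≤ h n → s j ≤ u ∧ u < s (j + 1) ∧ t n (u + 1) ≠ t n u := by
      intro j
      by_cases hj : j ≤ h n
      · obtain ⟨h1, h2⟩ := hse j hj
        obtain ⟨u, hu⟩ := fm_change (f := t n) h1 (by
          rw [hv j (by omega), hv (j + 1) (by omega)]; exact h2)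
        exact ⟨u, fun _ => hu⟩
      · exact ⟨0, fun h => absurd h hj⟩
    choose u hu using hex
    have hmono : ∀ j, ∀ k, j < k → k ≤ h n → u j < u k := by
      intro j k hjk
      induction k with
      | zero => omega
      | succ k ih =>
        intro hk
        have h1 := (hu (k + 1) hk).1
        have h2 := (hu k (by omega)).2.1
        rcases Nat.lt_or_ge j k with hlt | hge
        · have := ih hlt (by omega)
          omega
        · have : j = k := by omega
          subst this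
          omega
    have hcard := hch ((Finset.range (h n + 1)).image u) (by
      intro x hx
      rw [Finset.mem_image] at hx
      obtain ⟨j, hj, rfl⟩ := hx
      rw [Finset.mem_range] at hj
      exact (hu j (by omega)).2.2)
    rw [Finset.card_image_of_injOn, Finset.card_range] at hcard
    · omega
    · intro a ha b hb hab
      rw [Finset.coe_range, Set.mem_Iio] at ha hb
      rcases lt_trichotomy a b with hlt | heq | hgt
      · have := hmono a b hlt (by omega)
        omega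
      · exact heq
      · have := hmono b a hgt (by omega)
        omega

end

theorem final : ∃ A : AStr ℕ, IsPA A ∧ A.Nonstandard ∧ ∀ t, SolovayFamily A t →
    ∀ h : ℕ → ℕ, Computable h → ∃ n ≥ 1, ¬ ChangesAtMost (h n) (t n) := by
  obtain ⟨p, hp, hns⟩ := exists_start
  let ι := (ℕ × ℕ) ⊕ ({f : ℕ → ℕ // Computable f} × {f : ℕ → ℕ // Computable f})
  have : Nonempty ι := ⟨Sum.inl (0, 0)⟩
  obtain ⟨c, hc⟩ := exists_surjective_nat ι
  let P : ι → Cond → Prop := fun k s => Sum.elim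
    (fun mL : ℕ × ℕ => ∃ τ : List ℕ, τ.length = mL.2 ∧ F mL.1 s τ)
    (fun gh : {f : ℕ → ℕ // Computable f} × {f : ℕ → ℕ // Computable f} =>
      Win gh.1.1 gh.2.1 s) k
  obtain ⟨A, G, hG, h0, hD⟩ := exists_generic p hp (fun i s => P (c i) s) (by
    intro i r hr _
    rcases hci : c i with mL | gh
    · obtain ⟨s, hs, hsr, τ, hτ, hF⟩ := dense_F mL.1 mL.2 r hr
      refine ⟨s, hs, hsr, ?_⟩
      exact ⟨τ, hτ, hF⟩
    · obtain ⟨s, hs, hsr, hW⟩ := dense_win gh.1.1 gh.2.1 r hr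
      exact ⟨s, hs, hsr, hW⟩)
  have hD' : ∀ k : ι, ∃ j, P k (G j) := by
    intro k
    obtain ⟨i, rfl⟩ := hc k
    exact hD i
  have hdec : ∀ m L, ∃ i, ∃ τ : List ℕ, τ.length = L ∧ F m (G i) τ := fun m L =>
    hD' (Sum.inl (m, L))
  have hmod : (G 0).Mod A id := by
    refine ⟨hG.pa, ?_, fun i _ j _ h => h⟩
    exact hG.sound _ id 0 (Cond.sat_self (G 0))
  refine ⟨A, hG.pa, hns ℕ A id (h0.2 ℕ A id hmod), ?_⟩
  intro t ht h hh
  obtain ⟨g, hgc, hg⟩ := ht.unif
  obtain ⟨j, hj⟩ := hD' (Sum.inr (⟨g, hgc⟩, ⟨h, hh⟩))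
  exact win_sound hG hdec (i := j) hj ht hg

end H87.SF
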