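import Pool.Agent.Helper87.SF.Base

/-!
# Module M2: substitution of numerals
-/

namespace H87.SF

open H97.PAS Function

theorem codeT_injective : Injective codeT := by
  intro s
  induction s with
  | var i =>
    intro t h
    cases t with
    | var j =>
      simp only [codeT] at h
      have : i = j := by omega
      rw [this]
    | zero => simp only [codeT] at h; omega
    | succ t => simp only [codeT] at h; omega
    | add a b => simp only [codeT] at h; omega
    | mul a b => simp only [codeT] at h; omega
  | zero =>
    intro t h
    cases t with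
    | var j => simp only [codeT] at h; omega
    | zero => rfl
    | succ t => simp only [codeT] at h; omega
    | add a b => simp only [codeT] at h; omega
    | mul a b => simp only [codeT] at h; omega
  | succ s ih =>
    intro t h
    cases t with
    | var j => simp only [codeT] at h; omega
    | zero => simp only [codeT] at h; omega
    | succ t =>
      simp only [codeT] at h
      rw [ih (show codeT s = codeT t by omega)]
    | add a b => simp only [codeT] at h; omega
    | mul a b => simp only [codeT] at h; omega
  | add s₁ s₂ ih₁ ih₂ =>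
    intro t h
    cases t with
    | var j => simp only [codeT] at h; omega
    | zero => simp only [codeT] at h; omega
    | succ t => simp only [codeT] at h; omega
    | add a b =>
      simp only [codeT] at h
      have h' : Nat.pair (codeT s₁) (codeT s₂) = Nat.pair (codeT a) (codeT b) := by omega
      rw [Nat.pair_eq_pair] at h'
      rw [ih₁ h'.1, ih₂ h'.2]
    | mul a b => simp only [codeT] at h; omega
  | mul s₁ s₂ ih₁ ih₂ =>
    intro t h
    cases t with
    | var j => simp only [codeT] at h; omega
    | zero => simp only [codeT] at h; omega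
    | succ t => simp only [codeT] at h; omega
    | add a b => simp only [codeT] at h; omega
    | mul a b =>
      simp only [codeT] at h
      have h' : Nat.pair (codeT s₁) (codeT s₂) = Nat.pair (codeT a) (codeT b) := by omega
      rw [Nat.pair_eq_pair] at h'
      rw [ih₁ h'.1, ih₂ h'.2]

theorem codeT_surjective : Surjective codeT := by
  intro n
  induction n using Nat.strong_induction_on with
  | _ n ih =>
    by_cases h0 : n = 0
    · exact ⟨.zero, h0.symm⟩
    obtain ⟨m, hm⟩ : ∃ m, m = (n - 1) / 4 := ⟨_, rfl⟩
    have hl : m.unpair.1 ≤ m := Nat.unpair_left_le m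
    have hr : m.unpair.2 ≤ m := Nat.unpair_right_le m
    rcases (by omega : n = 4 * m + 1 ∨ n = 4 * m + 2 ∨ n = 4 * m + 3 ∨ n = 4 * m + 4)
      with h | h | h | h
    · exact ⟨.var m, h.symm⟩
    · obtain ⟨t, ht⟩ := ih m (by omega)
      exact ⟨.succ t, by simp only [codeT, ht]; exact h.symm⟩
    · obtain ⟨s, hs⟩ := ih m.unpair.1 (by omega)
      obtain ⟨t, ht⟩ := ih m.unpair.2 (by omega)
      refine ⟨.add s t, ?_⟩
      simp only [codeT, hs, ht, Nat.pair_unpair]
      exact h.symm
    · obtain ⟨s, hs⟩ := ih m.unpair.1 (by omega)
      obtain ⟨t, ht⟩ := ih m.unpair.2 (by omega)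
      refine ⟨.mul s t, ?_⟩
      simp only [codeT, hs, ht, Nat.pair_unpair]
      exact h.symm

theorem codeA_injective : Injective codeA := by
  intro φ
  induction φ with
  | atom a =>
    intro ψ h
    cases ψ with
    | atom b =>
      obtain ⟨s, t⟩ := a
      obtain ⟨s', t'⟩ := b
      simp only [codeA] at h
      have h' : Nat.pair (codeT s) (codeT t) = Nat.pair (codeT s') (codeT t') := by omega
      rw [Nat.pair_eq_pair] at h'
      rw [codeT_injective h'.1, codeT_injective h'.2]
    | bot => simp only [codeA] at h; omega
    | imp _ _ => simp only [codeA] at h; omega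
    | all _ _ => simp only [codeA] at h; omega
  | bot =>
    intro ψ h
    cases ψ with
    | atom b => simp only [codeA] at h; omega
    | bot => rfl
    | imp _ _ => simp only [codeA] at h; omega
    | all _ _ => simp only [codeA] at h; omega
  | imp φ ψ ih₁ ih₂ =>
    intro χ h
    cases χ with
    | atom b => simp only [codeA] at h; omega
    | bot => simp only [codeA] at h; omega
    | imp φ' ψ' =>
      simp only [codeA] at h
      have h' : Nat.pair (codeA φ) (codeA ψ) = Nat.pair (codeA φ') (codeA ψ') := by omega
      rw [Nat.pair_eq_pair] at h'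
      rw [ih₁ h'.1, ih₂ h'.2]
    | all _ _ => simp only [codeA] at h; omega
  | all i φ ih =>
    intro χ h
    cases χ with
    | atom b => simp only [codeA] at h; omega
    | bot => simp only [codeA] at h; omega
    | imp _ _ => simp only [codeA] at h; omega
    | all j φ' =>
      simp only [codeA] at h
      have h' : Nat.pair i (codeA φ) = Nat.pair j (codeA φ') := by omega
      rw [Nat.pair_eq_pair] at h'
      rw [h'.1, ih h'.2]

theorem codeA_surjective : Surjective codeA := by
  intro n
  induction n using Nat.strong_induction_on with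
  | _ n ih =>
    by_cases h0 : n = 0
    · exact ⟨.bot, h0.symm⟩
    obtain ⟨m, hm⟩ : ∃ m, m = (n - 1) / 3 := ⟨_, rfl⟩
    have hl : m.unpair.1 ≤ m := Nat.unpair_left_le m
    have hr : m.unpair.2 ≤ m := Nat.unpair_right_le m
    rcases (by omega : n = 3 * m + 1 ∨ n = 3 * m + 2 ∨ n = 3 * m + 3) with h | h | h
    · obtain ⟨s, hs⟩ := codeT_surjective m.unpair.1
      obtain ⟨t, ht⟩ := codeT_surjective m.unpair.2
      refine ⟨.atom (s, t), ?_⟩
      simp only [codeA, hs, ht, Nat.pair_unpair]
      exact h.symm
    · obtain ⟨φ, hφ⟩ := ih m.unpair.1 (by omega)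
      obtain ⟨ψ, hψ⟩ := ih m.unpair.2 (by omega)
      refine ⟨.imp φ ψ, ?_⟩
      simp only [codeA, hφ, hψ, Nat.pair_unpair]
      exact h.symm
    · obtain ⟨φ, hφ⟩ := ih m.unpair.2 (by omega)
      refine ⟨.all m.unpair.1 φ, ?_⟩
      simp only [codeA, hφ, Nat.pair_unpair]
      exact h.symm

/-! ### Terms -/

theorem numT_val {M : Type} (A : AStr M) (n : ℕ) (v : ℕ → M) : (numT n).val A v = num A n := by
  induction n with
  | zero => rfl
  | succ n ih =>
    rw [numT, Tm.val, ih, num, num, iterate_succ_apply']

theorem numT_occ (n k : ℕ) : ¬ (numT n).Occ k := by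
  induction n with
  | zero => exact id
  | succ n ih => exact ih

theorem val_sbT {M : Type} (A : AStr M) (D : ℕ → Bool) (n : ℕ) (t : Tm) (v : ℕ → M) :
    (sbT D n t).val A v = t.val A (fun k => if D k then num A n else v k) := by
  induction t with
  | var i =>
    simp only [sbT, Tm.val]
    by_cases h : D i = true
    · rw [if_pos h, if_pos h, numT_val]
    · rw [if_neg h, if_neg h, Tm.val]
  | zero => rfl
  | succ t ih => simp only [sbT, Tm.val, ih]
  | add s t ih₁ ih₂ => simp only [sbT, Tm.val, ih₁, ih₂]
  | mul s t ih₁ ih₂ => simp only [sbT, Tm.val, ih₁, ih₂]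

theorem occ_sbT (D : ℕ → Bool) (n : ℕ) (t : Tm) (k : ℕ) :
    (sbT D n t).Occ k ↔ D k = false ∧ t.Occ k := by
  induction t with
  | var i =>
    simp only [sbT]
    by_cases h : D i = true
    · rw [if_pos h]
      constructor
      · intro h1
        exact absurd h1 (numT_occ n k)
      · rintro ⟨h1, h2⟩
        simp only [Tm.Occ] at h2
        subst h2
        rw [h] at h1
        exact absurd h1 (by decide)
    · rw [if_neg h]
      simp only [Tm.Occ]
      constructor
      · rintro rfl
        exact ⟨by simpa using h, rfl⟩
      · exact fun h1 => h1.2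
  | zero =>
    simp only [sbT, Tm.Occ, and_false]
  | succ t ih => simp only [sbT, Tm.Occ, ih]
  | add s t ih₁ ih₂ => simp only [sbT, Tm.Occ, ih₁, ih₂]; tauto
  | mul s t ih₁ ih₂ => simp only [sbT, Tm.Occ, ih₁, ih₂]; tauto

theorem sbT_congr {D D' : ℕ → Bool} (n : ℕ) (t : Tm) (h : ∀ k, t.Occ k → D k = D' k) :
    sbT D n t = sbT D' n t := by
  induction t with
  | var i => simp only [sbT, h i rfl]
  | zero => rfl
  | succ t ih => simp only [sbT, ih h]
  | add s t ih₁ ih₂ =>
    simp only [sbT, ih₁ (fun k hk => h k (Or.inl hk)), ih₂ (fun k hk => h k (Or.inr hk))]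
  | mul s t ih₁ ih₂ =>
    simp only [sbT, ih₁ (fun k hk => h k (Or.inl hk)), ih₂ (fun k hk => h k (Or.inr hk))]

/-! ### Formulas -/

/-- semantics of the substitution -/
theorem sat_sb {M : Type} (A : AStr M) (D : ℕ → Bool) (n : ℕ) (φ : AFml) (v : ℕ → M) :
    satA A (sb D n φ) v ↔ satA A φ (fun k => if D k then num A n else v k) := by
  induction φ generalizing D v with
  | atom a =>
    simp only [sb, satA, Fml.sat_atom, val_sbT]
  | bot => exact Iff.rfl
  | imp φ ψ ih₁ ih₂ =>
    have h1 := ih₁ D v
    have h2 := ih₂ D v
    simp only [satA] at h1 h2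
    simp only [sb, satA, Fml.sat_imp, h1, h2]
  | all i φ ih =>
    simp only [sb, satA, Fml.sat_all]
    refine forall_congr' fun x => ?_
    have h1 := ih (update D i false) (update v i x)
    simp only [satA] at h1
    rw [h1]
    have h2 : (fun k => if update D i false k = true then num A n else update v i x k) =
        update (fun k => if D k = true then num A n else v k) i x := by
      funext k
      by_cases hk : k = i
      · subst hk
        simp
      · rw [update_of_ne hk, update_of_ne hk, update_of_ne hk]
    rw [h2]

theorem sat_sb1 {M : Type} (A : AStr M) (j n : ℕ) (φ : AFml) (v : ℕ → M) :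
    satA A (sb1 j n φ) v ↔ satA A φ (update v j (num A n)) := by
  rw [sb1, sat_sb]
  have h : (fun k => if decide (k = j) = true then num A n else v k) =
      update v j (num A n) := by
    funext k
    by_cases hk : k = j
    · subst hk
      simp
    · rw [update_of_ne hk]
      simp [hk]
  rw [h]

theorem free_sb (D : ℕ → Bool) (n : ℕ) (φ : AFml) (k : ℕ) :
    freeA (sb D n φ) k ↔ D k = false ∧ freeA φ k := by
  induction φ generalizing D with
  | atom a =>
    simp only [sb, freeA, Fml.free_atom, occ_sbT]
    tauto
  | bot => simp only [sb, freeA, Fml.free_bot, and_false]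
  | imp φ ψ ih₁ ih₂ =>
    have h1 := ih₁ D
    have h2 := ih₂ D
    simp only [freeA] at h1 h2
    simp only [sb, freeA, Fml.free_imp, h1, h2]
    tauto
  | all i φ ih =>
    have h1 := ih (update D i false)
    simp only [freeA] at h1
    simp only [sb, freeA, Fml.free_all, h1]
    by_cases hk : k = i
    · subst hk
      simp
    · rw [update_of_ne hk]
      tauto

theorem isD0_sb (D : ℕ → Bool) (n : ℕ) {φ : AFml} (h : IsD0 φ) : IsD0 (sb D n φ) := by
  induction h generalizing D with
  | atom a => exact IsD0.atom _
  | bot => exact IsD0.bot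
  | imp _ _ ih₁ ih₂ => exact IsD0.imp (ih₁ D) (ih₂ D)
  | @ball i j t φ hij hti htj _ ih =>
    have h1 : sb D n (.all i (.imp (Fml.ex j (.atom (.add (.var j) (.var i), t))) φ)) =
        .all i (.imp (Fml.ex j (.atom (.add (.var j) (.var i), sbT D n t)))
          (sb (update D i false) n φ)) := by
      have h2 : sbT (update (update D i false) j false) n t = sbT D n t := by
        refine sbT_congr n t fun k hk => ?_
        have hkj : k ≠ j := fun h => htj (h ▸ hk)
        have hki : k ≠ i := fun h => hti (h ▸ hk)
        rw [update_of_ne hkj, update_of_ne hki]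
      have h3 : update (update D i false) j false j = false := update_self _ _ _
      have h4 : update (update D i false) j false i = false := by
        rw [update_of_ne hij, update_self]
      simp only [sb, Fml.ex, Fml.neg, sbT, h2, h3, h4]
      simp
    rw [h1]
    refine IsD0.ball hij (fun h => hti ((occ_sbT D n t i).1 h).2)
      (fun h => htj ((occ_sbT D n t j).1 h).2) (ih _)

theorem hier_sb (D : ℕ → Bool) (n : ℕ) {b : Bool} {m : ℕ} {φ : AFml} (h : Hier b m φ) :
    Hier b m (sb D n φ) := by
  induction h generalizing D with
  | base h => exact Hier.base (isD0_sb D n h)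
  | flip _ ih => exact Hier.flip (ih D)
  | @ex m i φ _ ih =>
    exact Hier.ex (ih (update D i false))
  | @all m i φ _ ih =>
    exact Hier.all (ih (update D i false))

theorem primrec_code_numT : Primrec fun n => codeT (numT n) := by
  have h : (fun n => codeT (numT n)) =
      fun n => Nat.rec (motive := fun _ => ℕ) 0 (fun _ c => 4 * c + 2) n := by
    funext n
    induction n with
    | zero => rfl
    | succ n ih => simp only [numT, codeT, ih]
  rw [h]
  refine Primrec.nat_rec₁ 0 ?_
  exact Primrec.nat_add.comp
    (Primrec.nat_mul.comp (Primrec.const 4) Primrec.snd) (Primrec.const 2)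

theorem primrec_code_sbT (D : ℕ → Bool) (t : Tm) : Primrec fun n => codeT (sbT D n t) := by
  induction t with
  | var i =>
    simp only [sbT]
    by_cases h : D i = true
    · simp only [if_pos h]
      exact primrec_code_numT
    · simp only [if_neg h]
      exact Primrec.const _
  | zero =>
    simp only [sbT]
    exact Primrec.const _
  | succ t ih =>
    simp only [sbT, codeT]
    exact Primrec.nat_add.comp (Primrec.nat_mul.comp (Primrec.const 4) ih) (Primrec.const 2)
  | add s t ih₁ ih₂ =>
    simp only [sbT, codeT]
    exact Primrec.nat_add.comp (Primrec.nat_mul.comp (Primrec.const 4)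
      (Primrec₂.natPair.comp ih₁ ih₂)) (Primrec.const 3)
  | mul s t ih₁ ih₂ =>
    simp only [sbT, codeT]
    exact Primrec.nat_add.comp (Primrec.nat_mul.comp (Primrec.const 4)
      (Primrec₂.natPair.comp ih₁ ih₂)) (Primrec.const 4)

/-- the code of `φ(D := n)` is a primitive recursive function of `n` -/
theorem primrec_code_sb (D : ℕ → Bool) (φ : AFml) : Primrec fun n => codeA (sb D n φ) := by
  induction φ generalizing D with
  | atom a =>
    simp only [sb, codeA]
    exact Primrec.nat_add.comp (Primrec.nat_mul.comp (Primrec.const 3)
      (Primrec₂.natPair.comp (primrec_code_sbT D a.1) (primrec_code_sbT D a.2)))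
      (Primrec.const 1)
  | bot =>
    simp only [sb]
    exact Primrec.const _
  | imp φ ψ ih₁ ih₂ =>
    simp only [sb, codeA]
    exact Primrec.nat_add.comp (Primrec.nat_mul.comp (Primrec.const 3)
      (Primrec₂.natPair.comp (ih₁ D) (ih₂ D))) (Primrec.const 2)
  | all i φ ih =>
    simp only [sb, codeA]
    exact Primrec.nat_add.comp (Primrec.nat_mul.comp (Primrec.const 3)
      (Primrec₂.natPair.comp (Primrec.const i) (ih (update D i false)))) (Primrec.const 3)

end H87.SF
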