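import Pool.Agent.Helper87.SF.CondM
import Pool.Agent.Helper87.SF.SubstM

/-!
# Module M9: generic models
-/

namespace H87.SF

open H97.PAS Function

/-! ### Adding formulas to conditions -/

theorem exists_bd (φ : AFml) (f : ℕ → ℕ) : ∃ N, ∀ k, freeA φ k → f k < N := by
  obtain ⟨B, hB⟩ := exists_boundA φ
  refine ⟨(Finset.range B).sup f + 1, fun k hk => ?_⟩
  exact Nat.lt_succ_of_le (Finset.le_sup (f := f) (Finset.mem_range.2 (hB k hk)))

/-- renaming with control of the free variables -/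
theorem exists_ren (φ : AFml) (f : ℕ → ℕ) (N : ℕ) (h : ∀ k, freeA φ k → f k < N) :
    ∃ φ' : AFml, (∀ k, freeA φ' k → k < N) ∧ ∀ (M : Type) (A : AStr M) (v : ℕ → M),
      satA A φ' v ↔ satA A φ (v ∘ f) := by
  obtain ⟨ψ, hψ⟩ := renA φ f
  obtain ⟨B, hB⟩ := exists_boundA ψ
  refine ⟨Fml.closeFrom N B ψ, fun k hk => ?_, fun M A v => ?_⟩
  · have h1 := (Fml.free_closeFrom N B ψ k).1 hk
    have h2 := hB k h1.2
    omega
  · have h1 := Fml.sat_closeFrom (I := fun (a : Tm × Tm) (w : ℕ → M) =>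
      a.1.val A w = a.2.val A w) N B ψ v
    change (Fml.closeFrom N B ψ).Sat _ v ↔ _
    rw [h1]
    have h2 : ∀ w : ℕ → M, ψ.Sat (fun a w => a.1.val A w = a.2.val A w) w ↔ satA A φ (w ∘ f) :=
      hψ M A
    constructor
    · intro hw
      exact (h2 v).1 (hw v fun _ _ => rfl)
    · intro hw w hwv
      rw [h2]
      refine (satA_congr A φ fun k hk => ?_).1 hw
      exact (hwv (f k) (Or.inl (h k hk))).symm

/-- add a formula which holds in a given injective model of `r` -/
theorem exists_add (r : Cond) {M : Type} (A : AStr M) (v : ℕ → M) (hr : r.Mod A v)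
    (hv : Injective v) (φ : AFml) (f : ℕ → ℕ) (hφ : satA A φ (v ∘ f)) (N : ℕ) :
    ∃ s : Cond, s.Cons ∧ s ≤ r ∧ N ≤ s.N ∧ s.Sat (fun _ B w => satA B φ (w ∘ f)) := by
  obtain ⟨N₀, hN₀⟩ := exists_bd φ f
  set N' := max (max r.N N₀) N with hN'
  obtain ⟨φ', h1, h2⟩ := exists_ren φ f N' fun k hk => by
    have := hN₀ k hk
    omega
  obtain ⟨s, hs1, hs2, hs3⟩ := exists_and r N' (by omega) φ' h1
  refine ⟨s, ⟨M, A, v, ?_⟩, hs2, by omega, fun M B w hw => ?_⟩
  · exact (hs3 M A v).2 ⟨hr.1, hr.2.1, (h2 M A v).2 hφ, fun i _ j _ hij => hv hij⟩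
  · exact (h2 M B w).1 ((hs3 M B w).1 hw).2.2.1

/-- existence of a descending sequence meeting countably many dense requirements -/
theorem exists_seq {ι : Type} [Countable ι] [Nonempty ι] (p : Cond) (hp : p.Cons)
    (R : ι → Cond → Prop)
    (hR : ∀ i, ∀ r : Cond, r.Cons → r ≤ p → ∃ s : Cond, s.Cons ∧ s ≤ r ∧ R i s) :
    ∃ g : ℕ → Cond, g 0 = p ∧ (∀ i, (g i).Cons) ∧ (∀ i, g (i + 1) ≤ g i) ∧
      ∀ i, ∃ j, R i (g j) := by
  obtain ⟨e, he⟩ := exists_surjective_nat ι
  choose S hS1 hS2 hS3 using hR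
  let g : ℕ → {r : Cond // r.Cons ∧ r ≤ p} := fun n => Nat.rec ⟨p, hp, Cond.le_refl p⟩
    (fun n r => ⟨S (e n) r.1 r.2.1 r.2.2, hS1 _ _ _ _, Cond.le_trans (hS2 _ _ _ _) r.2.2⟩) n
  refine ⟨fun n => (g n).1, rfl, fun i => (g i).2.1, fun i => hS2 (e i) (g i).1 (g i).2.1 (g i).2.2,
    fun i => ?_⟩
  obtain ⟨n, rfl⟩ := he i
  exact ⟨n + 1, hS3 (e n) (g n).1 (g n).2.1 (g n).2.2⟩

/-! ### Forcing along the sequence -/

/-- `P` is forced -/
def Fo (g : ℕ → Cond) (P : SP) : Prop := ∃ j, (g j).Sat P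

section

variable {g : ℕ → Cond}

theorem seq_le (hm : ∀ i, g (i + 1) ≤ g i) {i j : ℕ} (hij : i ≤ j) : g j ≤ g i := by
  induction j, hij using Nat.le_induction with
  | base => exact Cond.le_refl _
  | succ j _ ih => exact Cond.le_trans (hm j) ih

theorem Fo.and (hm : ∀ i, g (i + 1) ≤ g i) {P Q : SP} (hP : Fo g P) (hQ : Fo g Q) :
    Fo g fun M A v => P M A v ∧ Q M A v := by
  obtain ⟨i, hi⟩ := hP
  obtain ⟨j, hj⟩ := hQ
  refine ⟨max i j, fun M A v h => ⟨?_, ?_⟩⟩
  · exact hi.mono (seq_le hm (le_max_left i j)) M A v h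
  · exact hj.mono (seq_le hm (le_max_right i j)) M A v h

theorem Fo.imp {P Q : SP} (hP : Fo g P)
    (h : ∀ (M : Type) (A : AStr M) (v : ℕ → M), IsPA A → P M A v → Q M A v) : Fo g Q := by
  obtain ⟨i, hi⟩ := hP
  exact ⟨i, fun M A v hv => h M A v hv.1 (hi M A v hv)⟩

theorem Fo.false (hc : ∀ i, (g i).Cons) {P : SP} (hP : Fo g P)
    (h : ∀ (M : Type) (A : AStr M) (v : ℕ → M), IsPA A → ¬ P M A v) : False := by
  obtain ⟨i, hi⟩ := hP
  obtain ⟨M, A, v, hv⟩ := hc i
  exact h M A v hv.1 (hi M A v hv)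

theorem fo_true {P : SP} (h : ∀ (M : Type) (A : AStr M) (v : ℕ → M), IsPA A → P M A v) :
    Fo g P := ⟨0, fun M A v hv => h M A v hv.1⟩

theorem fo_ne (hu : ∀ N, ∃ i, N ≤ (g i).N) {a b : ℕ} (hab : a ≠ b) :
    Fo g fun _ _ v => v a ≠ v b := by
  obtain ⟨i, hi⟩ := hu (max a b + 1)
  refine ⟨i, fun M A v hv h => hab (hv.2.2 a ?_ b ?_ h)⟩
  · have := le_max_left a b
    omega
  · have := le_max_right a b
    omega

end

/-- the requirements for the construction of a model -/
structure Full (g : ℕ → Cond) : Prop where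
  cons : ∀ i, (g i).Cons
  mono : ∀ i, g (i + 1) ≤ g i
  unb : ∀ N, ∃ i, N ≤ (g i).N
  dec : ∀ (φ : AFml) (f : ℕ → ℕ), Fo g (fun _ B v => satA B φ (v ∘ f)) ∨
    Fo g (fun _ B v => ¬ satA B φ (v ∘ f))
  wit : ∀ (φ : AFml) (i : ℕ) (f : ℕ → ℕ), Fo g (fun _ B v => ¬ satA B (Fml.ex i φ) (v ∘ f)) ∨
    ∃ k, Fo g (fun _ B v => satA B φ (v ∘ update f i k))

theorem comp_update {M : Type} (v : ℕ → M) (f : ℕ → ℕ) (i k : ℕ) :
    v ∘ update f i k = update (v ∘ f) i (v k) := by
  funext j
  by_cases h : j = i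
  · subst h; simp
  · simp [update_of_ne h]

namespace Full

variable {g : ℕ → Cond}

/-- every term has a value -/
theorem exists_val (h : Full g) (t : Tm) (f : ℕ → ℕ) :
    ∃ k, Fo g fun _ B v => t.val B (v ∘ f) = v k := by
  obtain ⟨m, hm⟩ := t.exists_bound
  have hocc : ¬ t.Occ m := fun h' => lt_irrefl _ (hm m h')
  have hval : ∀ (M : Type) (B : AStr M) (w : ℕ → M) (x : M), t.val B (update w m x) = t.val B w := by
    intro M B w x
    refine t.val_congr B _ _ fun k hk => ?_
    have : k ≠ m := by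
      rintro rfl
      exact hocc hk
    rw [update_of_ne this]
  rcases h.wit (.atom (.var m, t)) m f with h1 | ⟨k, h1⟩
  · exfalso
    refine h1.false h.cons fun M A v _ hn => hn ?_
    have : satA A (Fml.ex m (.atom (.var m, t))) (v ∘ f) ↔
        ∃ x, satA A (.atom (.var m, t)) (update (v ∘ f) m x) := Fml.sat_ex _ _ _
    rw [this]
    refine ⟨t.val A (v ∘ f), ?_⟩
    change (update (v ∘ f) m (t.val A (v ∘ f))) m = t.val A (update (v ∘ f) m _)
    rw [update_self, hval]
  · refine ⟨k, h1.imp fun M A v _ h2 => ?_⟩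
    change (v ∘ update f m k) m = t.val A (v ∘ update f m k) at h2
    rw [comp_update, update_self, hval] at h2
    exact h2.symm

/-- the value of a term -/
noncomputable def V (h : Full g) (t : Tm) (f : ℕ → ℕ) : ℕ := (h.exists_val t f).choose

theorem V_spec (h : Full g) (t : Tm) (f : ℕ → ℕ) :
    Fo g fun _ B v => t.val B (v ∘ f) = v (h.V t f) := (h.exists_val t f).choose_spec

/-- the generic model -/
noncomputable def str (h : Full g) : AStr ℕ where
  zero := h.V .zero fun _ => 0
  succ i := h.V (.succ (.var 0)) fun _ => i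
  add i j := h.V (.add (.var 0) (.var 1)) fun k => if k = 0 then i else j
  mul i j := h.V (.mul (.var 0) (.var 1)) fun k => if k = 0 then i else j

theorem val_spec (h : Full g) (t : Tm) (f : ℕ → ℕ) :
    Fo g fun _ B v => t.val B (v ∘ f) = v (t.val h.str f) := by
  induction t with
  | var i => exact fo_true fun M A v _ => rfl
  | zero => exact h.V_spec .zero fun _ => 0
  | succ t ih =>
    refine (ih.and h.mono (h.V_spec (.succ (.var 0)) fun _ => t.val h.str f)).imp
      fun M A v _ hv => ?_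
    obtain ⟨h1, h2⟩ := hv
    change A.succ (t.val A (v ∘ f)) = _
    rw [h1]
    exact h2
  | add s t ih₁ ih₂ =>
    refine ((ih₁.and h.mono ih₂).and h.mono (h.V_spec (.add (.var 0) (.var 1))
      fun k => if k = 0 then s.val h.str f else t.val h.str f)).imp fun M A v _ hv => ?_
    obtain ⟨⟨h1, h2⟩, h3⟩ := hv
    change A.add (s.val A (v ∘ f)) (t.val A (v ∘ f)) = _
    rw [h1, h2]
    exact h3
  | mul s t ih₁ ih₂ =>
    refine ((ih₁.and h.mono ih₂).and h.mono (h.V_spec (.mul (.var 0) (.var 1))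
      fun k => if k = 0 then s.val h.str f else t.val h.str f)).imp fun M A v _ hv => ?_
    obtain ⟨⟨h1, h2⟩, h3⟩ := hv
    change A.mul (s.val A (v ∘ f)) (t.val A (v ∘ f)) = _
    rw [h1, h2]
    exact h3

/-- the truth lemma -/
theorem truth (h : Full g) (φ : AFml) : ∀ f : ℕ → ℕ,
    satA h.str φ f ↔ Fo g (fun _ B v => satA B φ (v ∘ f)) := by
  induction φ with
  | atom a =>
    obtain ⟨s, t⟩ := a
    intro f
    have h12 := (h.val_spec s f).and h.mono (h.val_spec t f)
    constructor
    · intro hst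
      change s.val h.str f = t.val h.str f at hst
      refine h12.imp fun M A v _ hv => ?_
      change s.val A (v ∘ f) = t.val A (v ∘ f)
      rw [hv.1, hv.2, hst]
    · intro hst
      change s.val h.str f = t.val h.str f
      by_contra hne
      refine ((hst.and h.mono h12).and h.mono (fo_ne h.unb hne)).false h.cons
        fun M A v _ hv => ?_
      obtain ⟨⟨h1, h2, h3⟩, h4⟩ := hv
      apply h4
      rw [← h2, ← h3]
      exact h1
  | bot =>
    intro f
    constructor
    · intro h1; exact h1.elim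
    · intro h1; exact (h1.false h.cons fun M A v _ hv => hv).elim
  | imp φ ψ ih₁ ih₂ =>
    intro f
    have e : satA h.str (.imp φ ψ) f ↔ (satA h.str φ f → satA h.str ψ f) := Iff.rfl
    rw [e, ih₁, ih₂]
    constructor
    · intro h1
      rcases h.dec φ f with h2 | h2
      · exact (h1 h2).imp fun M A v _ hv _ => hv
      · exact h2.imp fun M A v _ hv hv' => (hv hv').elim
    · intro h1 h2
      exact (h1.and h.mono h2).imp fun M A v _ hv => hv.1 hv.2
  | all i φ ih =>
    intro f
    have e : satA h.str (.all i φ) f ↔ ∀ x, satA h.str φ (update f i x) := Iff.rfl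
    rw [e]
    constructor
    · intro h1
      rcases h.dec (.all i φ) f with h2 | h2
      · exact h2
      · exfalso
        rcases h.wit (Fml.neg φ) i f with h3 | ⟨k, h3⟩
        · refine (h2.and h.mono h3).false h.cons fun M A v _ hv => ?_
          obtain ⟨h4, h5⟩ := hv
          apply h4
          intro x
          by_contra h6
          apply h5
          have e2 : satA A (Fml.ex i (Fml.neg φ)) (v ∘ f) ↔
              ∃ x, satA A (Fml.neg φ) (update (v ∘ f) i x) := Fml.sat_ex _ _ _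
          rw [e2]
          exact ⟨x, fun h7 => h6 h7⟩
        · have h4 := (ih (update f i k)).1 (h1 k)
          exact (h3.and h.mono h4).false h.cons fun M A v _ hv => hv.1 hv.2
    · intro h1 x
      rw [ih]
      refine h1.imp fun M A v _ hv => ?_
      rw [comp_update]
      exact hv (v x)

theorem exists_model (h : Full g) {φ : AFml} {f : ℕ → ℕ} (hφ : satA h.str φ f) :
    ∃ (M : Type) (A : AStr M) (v : ℕ → M), IsPA A ∧ satA A φ (v ∘ f) := by
  obtain ⟨i, hi⟩ := (h.truth φ f).1 hφ
  obtain ⟨M, A, v, hv⟩ := h.cons i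
  exact ⟨M, A, v, hv.1, hi M A v hv⟩

/-- a formula which holds in all models of PA for all assignments holds in the generic model -/
theorem of_valid (h : Full g) {φ : AFml}
    (hφ : ∀ (M : Type) (A : AStr M) (v : ℕ → M), IsPA A → satA A φ v) (f : ℕ → ℕ) :
    satA h.str φ f := by
  rw [h.truth]
  exact fo_true fun M A v hA => hφ M A _ hA

/-- the induction axiom as a formula -/
def indF (i m : ℕ) (φ : AFml) : AFml :=
  .imp (.all i (.imp (.atom (.var i, .zero)) φ))
    (.imp (.all i (.imp φ (.all m (.imp (.atom (.var m, .succ (.var i)))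
      (.all i (.imp (.atom (.var i, .var m)) φ)))))) (.all i φ))

theorem sat_indF {M : Type} (A : AStr M) {i m : ℕ} {φ : AFml} (him : i ≠ m) (hm : ¬ freeA φ m)
    (v : ℕ → M) : satA A (indF i m φ) v ↔ (satA A φ (update v i A.zero) →
      (∀ x, satA A φ (update v i x) → satA A φ (update v i (A.succ x))) →
      ∀ x, satA A φ (update v i x)) := by
  have e1 : satA A (.all i (.imp (.atom (.var i, .zero)) φ)) v ↔ satA A φ (update v i A.zero) := by
    have : satA A (.all i (.imp (.atom (.var i, .zero)) φ)) v ↔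
      ∀ x, (update v i x) i = A.zero → satA A φ (update v i x) := Iff.rfl
    rw [this]
    constructor
    · intro h; exact h A.zero (update_self _ _ _)
    · intro h x hx
      rw [update_self] at hx
      rw [hx]; exact h
  have e2 : satA A (.all i (.imp φ (.all m (.imp (.atom (.var m, .succ (.var i)))
      (.all i (.imp (.atom (.var i, .var m)) φ)))))) v ↔
      ∀ x, satA A φ (update v i x) → satA A φ (update v i (A.succ x)) := by
    have : satA A (.all i (.imp φ (.all m (.imp (.atom (.var m, .succ (.var i)))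
      (.all i (.imp (.atom (.var i, .var m)) φ)))))) v ↔
      ∀ x, satA A φ (update v i x) → ∀ y, (update (update v i x) m y) m =
        A.succ ((update (update v i x) m y) i) →
        ∀ z, (update (update (update v i x) m y) i z) i = (update (update (update v i x) m y) i z) m →
          satA A φ (update (update (update v i x) m y) i z) := Iff.rfl
    rw [this]
    refine forall_congr' fun x => imp_congr_right fun _ => ?_
    have e3 : ∀ y z, satA A φ (update (update (update v i x) m y) i z) ↔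
        satA A φ (update v i z) := by
      intro y z
      refine satA_congr A φ fun k hk => ?_
      have hkm : k ≠ m := by
        rintro rfl
        exact hm hk
      by_cases hki : k = i
      · subst hki; simp
      · rw [update_of_ne hki, update_of_ne hkm, update_of_ne hki, update_of_ne hki]
    simp only [e3, update_self, update_of_ne him, update_of_ne him.symm]
    constructor
    · intro h; exact h _ rfl _ rfl
    · rintro h y rfl z rfl; exact h
  have e4 : satA A (indF i m φ) v ↔ (satA A (.all i (.imp (.atom (.var i, .zero)) φ)) v →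
      satA A (.all i (.imp φ (.all m (.imp (.atom (.var m, .succ (.var i)))
      (.all i (.imp (.atom (.var i, .var m)) φ)))))) v → satA A (.all i φ) v) := Iff.rfl
  rw [e4, e1, e2]
  rfl

theorem isPA (h : Full g) : IsPA h.str where
  succ_ne_zero x := h.of_valid (φ := Fml.neg (.atom (.succ (.var 0), .zero)))
    (fun M A v hA => hA.succ_ne_zero (v 0)) fun _ => x
  succ_inj x y := h.of_valid (φ := .imp (.atom (.succ (.var 0), .succ (.var 1)))
    (.atom (.var 0, .var 1))) (fun M A v hA => hA.succ_inj (v 0) (v 1))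
      fun k => if k = 0 then x else y
  add_zero x := h.of_valid (φ := .atom (.add (.var 0) .zero, .var 0))
    (fun M A v hA => hA.add_zero (v 0)) fun _ => x
  add_succ x y := h.of_valid (φ := .atom (.add (.var 0) (.succ (.var 1)),
    .succ (.add (.var 0) (.var 1)))) (fun M A v hA => hA.add_succ (v 0) (v 1))
      fun k => if k = 0 then x else y
  mul_zero x := h.of_valid (φ := .atom (.mul (.var 0) .zero, .zero))
    (fun M A v hA => hA.mul_zero (v 0)) fun _ => x
  mul_succ x y := h.of_valid (φ := .atom (.mul (.var 0) (.succ (.var 1)),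
    .add (.mul (.var 0) (.var 1)) (.var 0))) (fun M A v hA => hA.mul_succ (v 0) (v 1))
      fun k => if k = 0 then x else y
  ind φ i v := by
    obtain ⟨B, hB⟩ := exists_boundA φ
    have him : i ≠ max B (i + 1) := by omega
    have hm : ¬ freeA φ (max B (i + 1)) := fun h' => by
      have := hB _ h'
      omega
    exact (sat_indF h.str him hm v).1 (h.of_valid (fun M A w hA =>
      (sat_indF A him hm w).2 (hA.ind φ i w)) v)

end Full

/-! ### The construction -/

instance : Countable AFml := codeA_injective.countable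

/-- the assignment given by a list -/
def ls (w : List ℕ) (k : ℕ) : ℕ := w.getD k 0

theorem exists_ls (f : ℕ → ℕ) (B : ℕ) : ∃ w : List ℕ, ∀ k < B, ls w k = f k := by
  refine ⟨(List.range B).map f, fun k hk => ?_⟩
  unfold ls
  rw [List.getD_eq_getElem _ _ (by simpa using hk)]
  simp

/-- the requirements -/
def Req (D : ℕ → Cond → Prop) : ℕ ⊕ ℕ ⊕ (AFml × List ℕ) ⊕ (AFml × ℕ × List ℕ) → Cond → Prop
  | .inl i, s => D i s
  | .inr (.inl N), s => N ≤ s.N
  | .inr (.inr (.inl (φ, w))), s => s.Sat (fun _ B v => satA B φ (v ∘ ls w)) ∨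
      s.Sat (fun _ B v => ¬ satA B φ (v ∘ ls w))
  | .inr (.inr (.inr (φ, i, w))), s => s.Sat (fun _ B v => ¬ satA B (Fml.ex i φ) (v ∘ ls w)) ∨
      ∃ k, s.Sat (fun _ B v => satA B φ (v ∘ update (ls w) i k))

theorem exists_unb (r : Cond) (hr : r.Cons) (N : ℕ) : ∃ s : Cond, s.Cons ∧ s ≤ r ∧ N ≤ s.N := by
  obtain ⟨M, A, v, h1, h2⟩ := hr.exists_inj
  obtain ⟨s, h3, h4, h5, -⟩ := exists_add r A v h1 h2 (.imp .bot .bot) id (fun h => h) N
  exact ⟨s, h3, h4, h5⟩

theorem exists_dec (r : Cond) (hr : r.Cons) (φ : AFml) (f : ℕ → ℕ) :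
    ∃ s : Cond, s.Cons ∧ s ≤ r ∧ (s.Sat (fun _ B v => satA B φ (v ∘ f)) ∨
      s.Sat (fun _ B v => ¬ satA B φ (v ∘ f))) := by
  obtain ⟨M, A, v, h1, h2⟩ := hr.exists_inj
  by_cases h : satA A φ (v ∘ f)
  · obtain ⟨s, h3, h4, -, h5⟩ := exists_add r A v h1 h2 φ f h 0
    exact ⟨s, h3, h4, Or.inl h5⟩
  · obtain ⟨s, h3, h4, -, h5⟩ := exists_add r A v h1 h2 (Fml.neg φ) f h 0
    exact ⟨s, h3, h4, Or.inr h5⟩

theorem exists_wit (r : Cond) (hr : r.Cons) (φ : AFml) (i : ℕ) (f : ℕ → ℕ) :
    ∃ s : Cond, s.Cons ∧ s ≤ r ∧ (s.Sat (fun _ B v => ¬ satA B (Fml.ex i φ) (v ∘ f)) ∨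
      ∃ k, s.Sat (fun _ B v => satA B φ (v ∘ update f i k))) := by
  obtain ⟨M, A, v, h1, h2⟩ := hr.exists_inj
  by_cases h : satA A (Fml.ex i φ) (v ∘ f)
  · have e : satA A (Fml.ex i φ) (v ∘ f) ↔ ∃ x, satA A φ (update (v ∘ f) i x) := Fml.sat_ex _ _ _
    obtain ⟨x, hx⟩ := e.1 h
    by_cases hxv : ∃ k, v k = x
    · obtain ⟨k, rfl⟩ := hxv
      rw [← comp_update] at hx
      obtain ⟨s, h3, h4, -, h5⟩ := exists_add r A v h1 h2 φ (update f i k) hx 0
      exact ⟨s, h3, h4, Or.inr ⟨k, h5⟩⟩
    · push Not at hxv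
      obtain ⟨N₀, hN₀⟩ := exists_bd φ f
      set k := max r.N N₀ with hk
      set v' := update v k x with hv'
      have hinj : Injective v' := by
        intro a b hab
        by_cases ha : a = k
        · by_cases hb : b = k
          · rw [ha, hb]
          · rw [hv', ha, update_self, update_of_ne hb] at hab
            exact absurd hab.symm (hxv b)
        · by_cases hb : b = k
          · rw [hv', hb, update_self, update_of_ne ha] at hab
            exact absurd hab (hxv a)
          · rw [hv', update_of_ne ha, update_of_ne hb] at hab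
            exact h2 hab
      have hmod : r.Mod A v' := h1.congr fun j hj => by
        rw [hv', update_of_ne (by omega)]
      have hx' : satA A φ (v' ∘ update f i k) := by
        refine (satA_congr A φ fun j hj => ?_).1 hx
        by_cases hji : j = i
        · subst hji
          simp [hv']
        · have hfj : f j < k := (hN₀ j hj).trans_le (le_max_right _ _)
          simp only [comp_apply, update_of_ne hji, hv', update_of_ne hfj.ne]
      obtain ⟨s, h3, h4, -, h5⟩ := exists_add r A v' hmod hinj φ (update f i k) hx' 0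
      exact ⟨s, h3, h4, Or.inr ⟨k, h5⟩⟩
  · obtain ⟨s, h3, h4, -, h5⟩ := exists_add r A v h1 h2 (Fml.neg (Fml.ex i φ)) f h 0
    exact ⟨s, h3, h4, Or.inl h5⟩

theorem exists_generic (p : Cond) (hp : p.Cons) (D : ℕ → Cond → Prop)
    (hD : ∀ i, ∀ r : Cond, r.Cons → r ≤ p → ∃ s : Cond, s.Cons ∧ s ≤ r ∧ D i s) :
    ∃ (A : AStr ℕ) (g : ℕ → Cond), Generic A g ∧ g 0 ≤ p ∧ ∀ i, ∃ j, D i (g j) := by
  obtain ⟨g, hg0, hc, hm, hR⟩ := exists_seq p hp (Req D) (by
    rintro (i | N | ⟨φ, w⟩ | ⟨φ, i, w⟩) r hr hrp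
    · exact hD i r hr hrp
    · exact exists_unb r hr N
    · exact exists_dec r hr φ (ls w)
    · exact exists_wit r hr φ i (ls w))
  have hfull : Full g := by
    refine ⟨hc, hm, fun N => hR (.inr (.inl N)), fun φ f => ?_, fun φ i f => ?_⟩
    · obtain ⟨B, hB⟩ := exists_boundA φ
      obtain ⟨w, hw⟩ := exists_ls f B
      have e : ∀ (M : Type) (A : AStr M) (v : ℕ → M), satA A φ (v ∘ ls w) ↔ satA A φ (v ∘ f) := by
        intro M A v
        refine satA_congr A φ fun k hk => ?_
        simp only [comp_apply, hw k (hB k hk)]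
      obtain ⟨j, hj⟩ := hR (.inr (.inr (.inl (φ, w))))
      rcases hj with hj | hj
      · exact Or.inl ⟨j, fun M A v hv => (e M A v).1 (hj M A v hv)⟩
      · exact Or.inr ⟨j, fun M A v hv h => hj M A v hv ((e M A v).2 h)⟩
    · obtain ⟨B, hB⟩ := exists_boundA φ
      obtain ⟨w, hw⟩ := exists_ls f B
      have e1 : ∀ (M : Type) (A : AStr M) (v : ℕ → M),
          satA A (Fml.ex i φ) (v ∘ ls w) ↔ satA A (Fml.ex i φ) (v ∘ f) := by
        intro M A v
        refine satA_congr A _ fun k hk => ?_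
        have hk' : k ≠ i ∧ freeA φ k := (Fml.free_ex i φ k).1 hk
        simp only [comp_apply, hw k (hB k hk'.2)]
      have e2 : ∀ (M : Type) (A : AStr M) (v : ℕ → M) (k : ℕ),
          satA A φ (v ∘ update (ls w) i k) ↔ satA A φ (v ∘ update f i k) := by
        intro M A v k
        refine satA_congr A _ fun j hj => ?_
        by_cases hji : j = i
        · subst hji; simp
        · simp only [comp_apply, update_of_ne hji, hw j (hB j hj)]
      obtain ⟨j, hj⟩ := hR (.inr (.inr (.inr (φ, i, w))))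
      rcases hj with hj | ⟨k, hj⟩
      · exact Or.inl ⟨j, fun M A v hv h => hj M A v hv ((e1 M A v).2 h)⟩
      · exact Or.inr ⟨k, j, fun M A v hv => (e2 M A v k).1 (hj M A v hv)⟩
  refine ⟨hfull.str, g, ⟨hfull.isPA, hc, hm, hfull.unb, fun φ f hφ => (hfull.truth φ f).1 hφ⟩, ?_,
    fun i => hR (.inl i)⟩
  rw [hg0]
  exact Cond.le_refl p

theorem Generic.le {A : AStr ℕ} {g : ℕ → Cond} (h : Generic A g) {i j : ℕ} (hij : i ≤ j) :
    g j ≤ g i := seq_le h.mono hij

theorem Generic.sound {A : AStr ℕ} {g : ℕ → Cond} (h : Generic A g) (φ : AFml) (f : ℕ → ℕ) (i : ℕ)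
    (hi : (g i).Sat fun _ B v => satA B φ (v ∘ f)) : satA A φ f := by
  by_contra hn
  obtain ⟨j, hj⟩ := h.truth (Fml.neg φ) f hn
  have hi' : Fo g (fun _ B v => satA B φ (v ∘ f)) := ⟨i, hi⟩
  have hj' : Fo g (fun _ B v => satA B (Fml.neg φ) (v ∘ f)) := ⟨j, hj⟩
  exact (hi'.and h.mono hj').false h.cons fun M B v _ hv => hv.2 hv.1

end H87.SF
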