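import Pool.Agent.Helper87.SF.HierM
import Pool.Agent.Helper87.SF.BetaM

/-!
# Module M6a: the formulas `G_k`, definability
-/

namespace H87.SF

open H97.PAS Function

/-! ### definability -/

theorem mdl_tp {c i : ∀ M : Type, AStr M → (ℕ → M) → M} (hc : TP c) (hi : TP i) :
    TP fun M A e => mdl A (c M A e) (i M A e) := (hi.succ.mul hc).succ

theorem beta_dp {b c i x : ∀ M : Type, AStr M → (ℕ → M) → M} (hb : TP b) (hc : TP c) (hi : TP i)
    (hx : TP x) : DP fun M A e => Beta A (b M A e) (c M A e) (i M A e) (x M A e) := by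
  have h1 : DP fun M A e => A.le (A.succ (x M A e)) (mdl A (c M A e) (i M A e)) :=
    DP.le hx.succ (mdl_tp hc hi)
  have h2 : DP fun M A e => ∃ q, A.le q (b M A e) ∧
      A.add (A.mul q (mdl A (c M A e) (i M A e))) (x M A e) = b M A e :=
    DP.bex hb (R := fun M A q e =>
      A.add (A.mul q (mdl A (c M A e) (i M A e))) (x M A e) = b M A e)
      (DP.eq (((TP.var 0).mul (mdl_tp hc hi).tl).add hx.tl) hb.tl)
  exact h1.and h2

theorem pairR_dp {p a b : ∀ M : Type, AStr M → (ℕ → M) → M} (hp : TP p) (ha : TP a) (hb : TP b) :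
    DP fun M A e => PairR A (p M A e) (a M A e) (b M A e) :=
  ((DP.le ha.succ hb).and (DP.eq hp ((hb.mul hb).add ha))).or
    ((DP.le hb ha).and (DP.eq hp (((ha.mul ha).add ha).add hb)))

theorem entryR_dp {b c o u a1 a2 k : ∀ M : Type, AStr M → (ℕ → M) → M} (hb : TP b) (hc : TP c)
    (ho : TP o) (hu : TP u) (ha1 : TP a1) (ha2 : TP a2) (hk : TP k) :
    DP fun M A e => EntryR A (b M A e) (c M A e) (o M A e) (u M A e) (a1 M A e) (a2 M A e)
      (k M A e) := by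
  unfold EntryR
  refine DP.ball hb (DP.imp (beta_dp hb.tl hc.tl hu.tl (TP.var 0)) ?_)
  refine DP.ball hb.tl (DP.imp (beta_dp hb.tl.tl hc.tl.tl ha1.tl.tl (TP.var 0)) ?_)
  refine DP.ball hb.tl.tl (DP.imp (beta_dp hb.tl.tl.tl hc.tl.tl.tl ha2.tl.tl.tl (TP.var 0)) ?_)
  refine DP.ball hb.tl.tl.tl (DP.imp
    (beta_dp hb.tl.tl.tl.tl hc.tl.tl.tl.tl hk.tl.tl.tl.tl (TP.var 0)) ?_)
  have ho' := ho.tl.tl.tl.tl
  refine ((DP.eq ho' TP.zero).and (DP.eq (TP.var 0) TP.zero)).or (DP.or ?_ (DP.or ?_ ?_))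
  · exact (DP.eq ho' TP.zero.succ).and (DP.eq (TP.var 0) (TP.var 3).succ)
  · exact (DP.eq ho' TP.zero.succ.succ).and (DP.eq (TP.var 0) ((TP.var 2).add (TP.var 1)))
  · exact (DP.le TP.zero.succ.succ.succ ho').and (DP.eq (TP.var 0) ((TP.var 2).mul (TP.var 1)))

theorem g0_dp' {y b c : ∀ M : Type, AStr M → (ℕ → M) → M} (hy : TP y) (hb : TP b) (hc : TP c) :
    DP fun M A e => G0 A (y M A e) (b M A e) (c M A e) := by
  unfold G0
  -- D, w
  refine DP.ball hy (DP.ball hy.tl (DP.imp (pairR_dp hy.tl.tl (TP.var 1) (TP.var 0)) ?_))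
  -- L, d
  refine DP.ball (TP.var 0) (DP.ball (TP.var 1)
    (DP.imp (pairR_dp (TP.var 2) (TP.var 1) (TP.var 0)) ?_))
  -- d1, d2
  refine DP.ball (TP.var 0) (DP.ball (TP.var 1)
    (DP.imp (pairR_dp (TP.var 2) (TP.var 1) (TP.var 0)) ?_))
  -- now d2 = 0, d1 = 1, d = 2, L = 3, w = 4, D = 5
  have hb6 := hb.tl.tl.tl.tl.tl.tl
  have hc6 := hc.tl.tl.tl.tl.tl.tl
  refine DP.and ?_ ?_
  · -- x
    refine DP.ball (TP.var 3) (DP.imp (DP.le (TP.var 0).succ (TP.var 4)) ?_)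
    -- o, u
    refine DP.ball (TP.var 0) (DP.ball (TP.var 1)
      (DP.imp (pairR_dp (TP.var 2) (TP.var 1) (TP.var 0)) ?_))
    -- a1, a2
    refine DP.ball (TP.var 0) (DP.ball (TP.var 1)
      (DP.imp (pairR_dp (TP.var 2) (TP.var 1) (TP.var 0)) ?_))
    -- a2 = 0, a1 = 1, u = 2, o = 3, x = 4, d2 = 5, d1 = 6
    refine DP.ball (TP.var 6) (DP.imp (beta_dp (TP.var 7) (TP.var 6) (TP.var 5) (TP.var 0)) ?_)
    -- k = 0, a2 = 1, a1 = 2, u = 3, o = 4
    exact entryR_dp hb6.tl.tl.tl.tl.tl.tl hc6.tl.tl.tl.tl.tl.tl (TP.var 4) (TP.var 3) (TP.var 2)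
      (TP.var 1) (TP.var 0)
  · -- i
    refine DP.ball (TP.var 5) (DP.imp (DP.le (TP.var 0).succ (TP.var 6)) ?_)
    -- j
    refine DP.ball (TP.var 0) (DP.imp (DP.le (TP.var 0).succ (TP.var 1)) ?_)
    refine DP.ball hb6.tl.tl (DP.imp (beta_dp hb6.tl.tl.tl hc6.tl.tl.tl (TP.var 2) (TP.var 0)) ?_)
    refine DP.ball hb6.tl.tl.tl (DP.imp
      (beta_dp hb6.tl.tl.tl.tl hc6.tl.tl.tl.tl (TP.var 2) (TP.var 0)) ?_)
    exact (DP.eq (TP.var 1) (TP.var 0)).not

theorem g0_dp : DP fun _ A e => G0 A (e 0) (e 1) (e 2) :=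
  g0_dp' (TP.var 0) (TP.var 1) (TP.var 2)

/-- the code `(v_j, v_k)` starts with `v_{f 0}, …, v_{f (N-1)}` -/
theorem cod_dp (N : ℕ) (f : ℕ → ℕ) (j k : ℕ) :
    DP fun _ A e => ∀ i < N, bv A (e j) (e k) i = e (f i) := by
  induction N with
  | zero =>
    refine (DP.imp DP.bot DP.bot).congr fun M A e hA => ?_
    exact ⟨fun _ i hi => absurd hi (Nat.not_lt_zero i), fun _ h => h⟩
  | succ N ih =>
    refine (ih.and (beta_dp (TP.var j) (TP.var k) (TP.num N) (TP.var (f N)))).congr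
      fun M A e hA => ?_
    rw [beta_iff hA]
    constructor
    · rintro ⟨h1, h2⟩ i hi
      rcases Nat.lt_succ_iff_lt_or_eq.mp hi with h | rfl
      · exact h1 i h
      · exact h2
    · intro h
      exact ⟨fun i hi => h i (Nat.lt_succ_of_lt hi), h N (Nat.lt_succ_self N)⟩

theorem le_refl' {M : Type} {A : AStr M} (hA : IsPA A) (x : M) : A.le x x :=
  ⟨A.zero, hA.zero_add x⟩

variable {κ : AFml} (hκ : IsKK κ)

include hκ in
theorem kr_dp (i j k l : ℕ) : DP fun _ A e => KR κ A (e i) (e j) (e k) (e l) := by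
  have h1 : DP fun _ A e => satA A κ e := ⟨κ, hκ.1, fun M A _ v => Iff.rfl⟩
  refine (h1.ren (a4 i j k l)).congr fun M A e hA => ?_
  have h2 : e ∘ a4 i j k l = a4 (e i) (e j) (e k) (e l) := by
    funext m
    match m with
    | 0 => rfl
    | 1 => rfl
    | 2 => rfl
    | (m + 3) => rfl
  rw [h2]
  exact Iff.rfl

include hκ in
theorem kr_dp' {i x y z : ∀ M : Type, AStr M → (ℕ → M) → M} (hi : TP i) (hx : TP x) (hy : TP y)
    (hz : TP z) : DP fun M A e => KR κ A (i M A e) (x M A e) (y M A e) (z M A e) := by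
  have h : DP fun M A e => ∃ p, A.le p (i M A e) ∧ (p = i M A e ∧
      ∃ q, A.le q (x M A e) ∧ (q = x M A e ∧
      ∃ r, A.le r (y M A e) ∧ (r = y M A e ∧
      ∃ s, A.le s (z M A e) ∧ (s = z M A e ∧ KR κ A p q r s)))) := by
    refine DP.bex hi (DP.and (DP.eq (TP.var 0) hi.tl) ?_)
    refine DP.bex hx.tl (DP.and (DP.eq (TP.var 0) hx.tl.tl) ?_)
    refine DP.bex hy.tl.tl (DP.and (DP.eq (TP.var 0) hy.tl.tl.tl) ?_)
    refine DP.bex hz.tl.tl.tl (DP.and (DP.eq (TP.var 0) hz.tl.tl.tl.tl) ?_)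
    exact kr_dp hκ 3 2 1 0
  refine h.congr fun M A e hA => ?_
  constructor
  · rintro ⟨p, -, rfl, q, -, rfl, r, -, rfl, s, -, rfl, h⟩
    exact h
  · intro h
    exact ⟨_, le_refl' hA _, rfl, _, le_refl' hA _, rfl, _, le_refl' hA _, rfl, _,
      le_refl' hA _, rfl, h⟩

theorem agree_dp {n b c b' c' : ∀ M : Type, AStr M → (ℕ → M) → M} (hn : TP n) (hb : TP b)
    (hc : TP c) (hb' : TP b') (hc' : TP c') :
    DP fun M A e => Agree A (n M A e) (b M A e) (c M A e) (b' M A e) (c' M A e) := by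
  unfold Agree
  refine DP.ball hn (DP.imp (DP.le (TP.var 0).succ hn.tl) ?_)
  refine DP.ball hb.tl (DP.imp (beta_dp hb.tl.tl hc.tl.tl (TP.var 1) (TP.var 0)) ?_)
  exact beta_dp hb'.tl.tl hc'.tl.tl (TP.var 1) (TP.var 0)

include hκ in
theorem gk_hp (k : ℕ) : HP false k fun M A e => Gk κ k M A (e 0) (e 1) (e 2) := by
  induction k with
  | zero => exact g0_dp.hp false 0
  | succ k ih =>
    unfold Gk
    refine HP.all (HP.all (HP.imp ((pairR_dp (TP.var 2) (TP.var 1) (TP.var 0)).hp _ _) ?_))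
    refine HP.all (HP.all (HP.imp ((pairR_dp (TP.var 2) (TP.var 1) (TP.var 0)).hp _ _) ?_))
    -- y = 0, x' = 1, u = 2, n = 3, x = 4, b = 5, c = 6
    refine HP.and ((ih.ren (a4 0 5 6 6)).up (Nat.le_succ k)) ?_
    refine HP.all (HP.all ?_)
    -- z = 0, y' = 1, y = 2, x' = 3, u = 4, n = 5, x = 6, b = 7, c = 8
    refine HP.imp ((kr_dp' hκ TP.zero (TP.var 3) (TP.var 1) (TP.var 0)).hp _ _) ?_
    refine HP.imp (DP.hp (DP.ball ((TP.var 1).add (TP.var 0))
      (kr_dp' hκ TP.zero.succ (TP.var 4) TP.zero (TP.var 0)).not) _ _) ?_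
    refine HP.all (HP.all ?_)
    -- c' = 0, b' = 1, z = 2, y' = 3, y = 4, x' = 5, u = 6, n = 7, x = 8, b = 9, c = 10
    refine HP.imp ((agree_dp (TP.var 7) (TP.var 9) (TP.var 10) (TP.var 1) (TP.var 0)).hp _ _) ?_
    exact (ih.ren (a4 3 1 0 0)).not.flip false (Nat.lt_succ_self k)

include hκ in
theorem gv_hp (k N x : ℕ) : HP true (k + 1) (GV κ k N x) := by
  unfold GV
  refine HP.ex (HP.ex (HP.and ((cod_dp N (fun i => i + 2) 1 0).hp _ _) ?_))
  have h1 := (((gk_hp hκ k).num 0 x).ren (a4 0 1 0 0)).flip true (Nat.lt_succ_self k)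
  refine h1.congr fun M A e hA => ?_
  have h2 : update (e ∘ a4 0 1 0 0) 0 (num A x) 0 = num A x := update_self _ _ _
  have h3 : update (e ∘ a4 0 1 0 0) 0 (num A x) 1 = e 1 := by
    rw [update_of_ne (by decide)]
    rfl
  have h4 : update (e ∘ a4 0 1 0 0) 0 (num A x) 2 = e 0 := by
    rw [update_of_ne (by decide)]
    rfl
  rw [h2, h3, h4]
  exact Iff.rfl

include hκ in
/-- `GV κ k N x`, uniformly in `x` (which is the value of `v_N`) -/
theorem gv_fml (k N : ℕ) : ∃ φ : AFml, ∀ (M : Type) (A : AStr M), IsPA A → ∀ (x : ℕ) (v : ℕ → M),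
    satA A φ (update v N (num A x)) ↔ GV κ k N x M A v := by
  have h : HP true (k + 1) fun M A e => ∃ b c : M, (∀ i < N, bv A b c i = e i) ∧
      Gk κ k M A (e N) b c := by
    refine HP.ex (HP.ex (HP.and ((cod_dp N (fun i => i + 2) 1 0).hp _ _) ?_))
    exact ((gk_hp hκ k).ren (a4 (N + 2) 1 0 0)).flip true (Nat.lt_succ_self k)
  obtain ⟨φ, -, hφ⟩ := h
  refine ⟨φ, fun M A hA x v => ?_⟩
  rw [hφ M A hA, GV]
  refine exists_congr fun b => exists_congr fun c => ?_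
  rw [update_self]
  refine and_congr (forall_congr' fun i => forall_congr' fun hi => ?_) Iff.rfl
  rw [update_of_ne (Nat.ne_of_lt hi)]

end H87.SF
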