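import Pool.Agent.Helper87.SF.DPM

/-!
# Module M1b: closure properties of the hierarchy
-/

namespace H87.SF

open H97.PAS Function

variable {b : Bool} {n : ℕ} {P Q : SP}

/-! ### auxiliary lemmas -/

theorem Hier.hm_of_d0 {φ : AFml} (h : IsD0 φ) : ∀ (n : ℕ) (b : Bool), Hier b n φ
  | 0, _ => .base h
  | n + 1, b => .flip (Hier.hm_of_d0 h n (!b))

theorem Hier.hm_d0 {φ : AFml} (h : Hier b 0 φ) : IsD0 φ := by
  cases h with
  | base h => exact h

theorem Hier.hm_succ {φ : AFml} (h : Hier b n φ) : Hier b (n + 1) φ := by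
  induction h with
  | base h => exact Hier.hm_of_d0 h _ _
  | flip _ ih => exact .flip ih
  | ex _ ih => exact .ex ih
  | all _ ih => exact .all ih

theorem Hier.hm_up {φ : AFml} (h : Hier b n φ) {m : ℕ} (hm : n ≤ m) : Hier b m φ := by
  induction hm with
  | refl => exact h
  | step _ ih => exact ih.hm_succ

theorem Hier.hm_flip {φ : AFml} (b' : Bool) (h : Hier b n φ) {m : ℕ} (hm : n < m) :
    Hier b' m φ := by
  by_cases hb : b' = b
  · subst hb; exact h.hm_up hm.le
  · obtain ⟨k, rfl⟩ : ∃ k, m = k + 1 := ⟨m - 1, by omega⟩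
    have : (!b') = b := by revert hb; cases b <;> cases b' <;> simp
    refine .flip ?_
    rw [this]
    exact h.hm_up (by omega)

/-- quantifiers, with named variables -/
theorem HP.exV (i : ℕ) (h : HP true (n + 1) P) :
    HP true (n + 1) fun M A e => ∃ x, P M A (update e i x) := by
  obtain ⟨φ, h1, h2⟩ := h
  refine ⟨Fml.ex i φ, .ex h1, fun M A hA v => ?_⟩
  unfold satA
  rw [Fml.sat_ex]
  exact exists_congr fun x => h2 M A hA _

theorem HP.allV (i : ℕ) (h : HP false (n + 1) P) :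
    HP false (n + 1) fun M A e => ∀ x, P M A (update e i x) := by
  obtain ⟨φ, h1, h2⟩ := h
  refine ⟨.all i φ, .all h1, fun M A hA v => ?_⟩
  unfold satA
  rw [Fml.sat_all]
  exact forall_congr' fun x => h2 M A hA _

/-- the quantifier of a block -/
def hmQf (b : Bool) {M : Type} (p : M → Prop) : Prop := if b then ∃ x, p x else ∀ x, p x

theorem hm_qf_congr (b : Bool) {M : Type} {p q : M → Prop} (h : ∀ x, p x ↔ q x) :
    hmQf b p ↔ hmQf b q := by
  cases b
  · exact forall_congr' h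
  · exact exists_congr h

theorem hm_qf_and (b : Bool) {M : Type} (x₀ : M) (p : M → Prop) (q : Prop) :
    (hmQf b p ∧ q) ↔ hmQf b fun x => p x ∧ q := by
  cases b
  · exact ⟨fun h x => ⟨h.1 x, h.2⟩, fun h => ⟨fun x => (h x).1, (h x₀).2⟩⟩
  · exact ⟨fun h => h.1.elim fun x hx => ⟨x, hx, h.2⟩, fun h => h.elim fun x hx =>
      ⟨⟨x, hx.1⟩, hx.2⟩⟩

theorem hm_and_qf (b : Bool) {M : Type} (x₀ : M) (p : M → Prop) (q : Prop) :
    (q ∧ hmQf b p) ↔ hmQf b fun x => q ∧ p x := by
  rw [and_comm, hm_qf_and b x₀]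
  exact hm_qf_congr b fun x => and_comm

theorem HP.hm_qfV (i : ℕ) (h : HP b (n + 1) P) :
    HP b (n + 1) fun M A e => hmQf b fun x => P M A (update e i x) := by
  cases b
  · exact HP.allV i h
  · exact HP.exV i h

/-- induction over one block of quantifiers -/
theorem Hier.hm_blk {C : AFml → Prop} (h0 : ∀ φ, Hier (!b) n φ → C φ)
    (h1 : ∀ (i : ℕ) (φ : AFml), Hier b (n + 1) φ → C φ →
      C (if b then Fml.ex i φ else .all i φ)) {φ : AFml} (h : Hier b (n + 1) φ) : C φ := by
  generalize hm : n + 1 = m at h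
  induction h with
  | base _ => omega
  | flip h _ =>
    obtain rfl : n = _ := Nat.succ.inj hm
    exact h0 _ h
  | @ex n' i φ h ih =>
    obtain rfl : n = n' := Nat.succ.inj hm
    exact h1 i φ h (ih h0 h1 rfl)
  | @all n' i φ h ih =>
    obtain rfl : n = n' := Nat.succ.inj hm
    exact h1 i φ h (ih h0 h1 rfl)

theorem hm_sat_blk {M : Type} (A : AStr M) (b : Bool) (i : ℕ) (φ : AFml) (v : ℕ → M) :
    satA A (if b then Fml.ex i φ else .all i φ) v ↔ hmQf b fun x => satA A φ (update v i x) := by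
  cases b
  · exact Iff.rfl
  · unfold satA
    simp only [if_true]
    rw [Fml.sat_ex]
    exact Iff.rfl

/-! ### the hierarchy -/

theorem DP.hp (h : DP P) (b : Bool) (n : ℕ) : HP b n P := by
  obtain ⟨φ, h1, h2⟩ := h
  exact ⟨φ, Hier.hm_of_d0 h1 n b, h2⟩

theorem HP.dp (h : HP b 0 P) : DP P := by
  obtain ⟨φ, h1, h2⟩ := h
  exact ⟨φ, h1.hm_d0, h2⟩

theorem HP.congr (h : HP b n P) (hPQ : ∀ (M : Type) (A : AStr M) (e : ℕ → M), IsPA A →
    (P M A e ↔ Q M A e)) : HP b n Q := by
  obtain ⟨φ, h1, h2⟩ := h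
  exact ⟨φ, h1, fun M A hA v => (h2 M A hA v).trans (hPQ M A v hA)⟩

theorem HP.flip (b' : Bool) (h : HP b n P) {m : ℕ} (hm : n < m) : HP b' m P := by
  obtain ⟨φ, h1, h2⟩ := h
  exact ⟨φ, h1.hm_flip b' hm, h2⟩

theorem HP.up (h : HP b n P) {m : ℕ} (hm : n ≤ m) : HP b m P := by
  obtain ⟨φ, h1, h2⟩ := h
  exact ⟨φ, h1.hm_up hm, h2⟩

theorem hm_sat {φ : AFml} (h : Hier b n φ) : HP b n fun _ A e => satA A φ e :=
  ⟨φ, h, fun _ _ _ _ => Iff.rfl⟩

/-- renaming with a new name for the bound variable -/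
theorem hm_fresh (φ : AFml) (i : ℕ) (f : ℕ → ℕ) :
    ∃ m, ∀ (M : Type) (A : AStr M) (v : ℕ → M) (x : M),
      satA A φ ((update v m x) ∘ (update f i m)) ↔ satA A φ (update (v ∘ f) i x) := by
  obtain ⟨N, hN⟩ := exists_boundA φ
  refine ⟨(Finset.range N).sup f + 1, fun M A v x => satA_congr A φ fun k hk => ?_⟩
  by_cases hki : k = i
  · subst hki; simp
  · have hm : f k < (Finset.range N).sup f + 1 :=
      Nat.lt_succ_of_le (Finset.le_sup (f := f) (Finset.mem_range.2 (hN k hk)))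
    rw [update_of_ne hki, comp_apply, update_of_ne hki, comp_apply, update_of_ne hm.ne]

theorem hm_ren : ∀ (n : ℕ) (b : Bool) {φ : AFml}, Hier b n φ → ∀ f : ℕ → ℕ,
    HP b n fun _ A e => satA A φ (e ∘ f)
  | 0, b, φ, h, f => by
    have hd : DP fun _ A e => satA A φ e := ⟨φ, h.hm_d0, fun _ _ _ _ => Iff.rfl⟩
    exact (hd.ren f).hp b 0
  | n + 1, b, φ, h, f => by
    revert f
    refine Hier.hm_blk (C := fun φ => ∀ f : ℕ → ℕ, HP b (n + 1) fun _ A e => satA A φ (e ∘ f))
      ?_ ?_ h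
    · intro φ h f
      exact (hm_ren n (!b) h f).flip b (Nat.lt_succ_self n)
    · intro i φ _ ih f
      obtain ⟨m, hm⟩ := hm_fresh φ i f
      refine ((ih (update f i m)).hm_qfV m).congr fun M A e hA => ?_
      rw [hm_sat_blk]
      exact hm_qf_congr b fun x => hm M A e x

theorem HP.ren (f : ℕ → ℕ) (h : HP b n P) : HP b n fun M A e => P M A (e ∘ f) := by
  obtain ⟨φ, h1, h2⟩ := h
  exact (hm_ren n b h1 f).congr fun M A e hA => h2 M A hA _

/-- quantifiers, in the de Bruijn style -/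
theorem HP.hm_qf0 (h : HP b (n + 1) P) :
    HP b (n + 1) fun M A e => hmQf b fun x => P M A (cns x e) := by
  obtain ⟨φ, h1, h2⟩ := h
  obtain ⟨N, hN⟩ := exists_boundA φ
  refine ((hm_ren (n + 1) b h1 (fun k => if k = 0 then N else k - 1)).hm_qfV N).congr
    fun M A e hA => ?_
  refine hm_qf_congr b fun x => ?_
  rw [← h2 M A hA]
  refine satA_congr A φ fun k hk => ?_
  have hk' := hN k hk
  rw [comp_apply]
  cases k with
  | zero => simp [cns]
  | succ k =>
    have : k ≠ N := by omega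
    simp [cns, update_of_ne this]

theorem hm_not : ∀ (n : ℕ) (b : Bool) {φ : AFml}, Hier b n φ →
    HP (!b) n fun _ A e => ¬ satA A φ e
  | 0, b, φ, h => by
    have hd : DP fun _ A e => satA A φ e := ⟨φ, h.hm_d0, fun _ _ _ _ => Iff.rfl⟩
    exact hd.not.hp _ 0
  | n + 1, b, φ, h => by
    refine Hier.hm_blk (C := fun φ => HP (!b) (n + 1) fun _ A e => ¬ satA A φ e) ?_ ?_ h
    · intro φ h
      exact (hm_not n (!b) h).flip (!b) (Nat.lt_succ_self n)
    · intro i φ _ ih
      refine (ih.hm_qfV i).congr fun M A e hA => ?_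
      rw [hm_sat_blk]
      cases b
      · exact not_forall.symm
      · exact not_exists.symm

theorem HP.not (h : HP b n P) : HP (!b) n fun M A e => ¬ P M A e := by
  obtain ⟨φ, h1, h2⟩ := h
  exact (hm_not n b h1).congr fun M A e hA => not_congr (h2 M A hA _)

theorem hm_and : ∀ (n : ℕ) (b : Bool) {φ ψ : AFml}, Hier b n φ → Hier b n ψ →
    ∀ f g : ℕ → ℕ, HP b n fun _ A e => satA A φ (e ∘ f) ∧ satA A ψ (e ∘ g)
  | 0, b, φ, ψ, h, h', f, g => by
    have hd : DP fun _ A e => satA A φ e := ⟨φ, h.hm_d0, fun _ _ _ _ => Iff.rfl⟩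
    have hd' : DP fun _ A e => satA A ψ e := ⟨ψ, h'.hm_d0, fun _ _ _ _ => Iff.rfl⟩
    exact ((hd.ren f).and (hd'.ren g)).hp b 0
  | n + 1, b, φ, ψ, h, h', f, g => by
    have key : ∀ {χ : AFml} (i : ℕ) (M : Type) (A : AStr M) (e : ℕ → M) (x : M) (f : ℕ → ℕ),
        satA A χ ((cns x e) ∘ (update (fun k => f k + 1) i 0)) ↔
          satA A χ (update (e ∘ f) i x) := by
      intro χ i M A e x f
      have : (cns x e) ∘ (update (fun k => f k + 1) i 0) = update (e ∘ f) i x := by
        funext k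
        by_cases hk : k = i
        · subst hk; simp [cns]
        · simp [update_of_ne hk, cns]
      rw [this]
    have key2 : ∀ (M : Type) (e : ℕ → M) (x : M) (g : ℕ → ℕ),
        (cns x e) ∘ (fun k => g k + 1) = e ∘ g := by
      intro M e x g
      rfl
    have step2 : ∀ {φ ψ : AFml}, Hier (!b) n φ → Hier b (n + 1) ψ → ∀ f g : ℕ → ℕ,
        HP b (n + 1) fun _ A e => satA A φ (e ∘ f) ∧ satA A ψ (e ∘ g) := by
      intro φ ψ hφ hψ
      refine Hier.hm_blk (C := fun ψ => ∀ f g : ℕ → ℕ,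
        HP b (n + 1) fun _ A e => satA A φ (e ∘ f) ∧ satA A ψ (e ∘ g)) ?_ ?_ hψ
      · intro ψ hψ f g
        exact (hm_and n (!b) hφ hψ f g).flip b (Nat.lt_succ_self n)
      · intro i ψ _ ih f g
        refine (ih (fun k => f k + 1) (update (fun k => g k + 1) i 0)).hm_qf0.congr
          fun M A e hA => ?_
        rw [hm_sat_blk, hm_and_qf b (e 0)]
        refine hm_qf_congr b fun x => ?_
        rw [key2 M e x f, key i M A e x g]
    revert f g
    refine Hier.hm_blk (C := fun φ => ∀ f g : ℕ → ℕ,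
      HP b (n + 1) fun _ A e => satA A φ (e ∘ f) ∧ satA A ψ (e ∘ g)) ?_ ?_ h
    · intro φ hφ f g
      exact step2 hφ h' f g
    · intro i φ _ ih f g
      refine (ih (update (fun k => f k + 1) i 0) (fun k => g k + 1)).hm_qf0.congr
        fun M A e hA => ?_
      rw [hm_sat_blk, hm_qf_and b (e 0)]
      refine hm_qf_congr b fun x => ?_
      rw [key2 M e x g, key i M A e x f]

theorem HP.and (h : HP b n P) (h' : HP b n Q) : HP b n fun M A e => P M A e ∧ Q M A e := by
  obtain ⟨φ, h1, h2⟩ := h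
  obtain ⟨ψ, h3, h4⟩ := h'
  exact (hm_and n b h1 h3 id id).congr fun M A e hA =>
    and_congr (h2 M A hA _) (h4 M A hA _)

theorem HP.or (h : HP b n P) (h' : HP b n Q) : HP b n fun M A e => P M A e ∨ Q M A e := by
  have := (h.not.and h'.not).not
  rw [Bool.not_not] at this
  exact this.congr fun M A e _ => by tauto

theorem HP.imp (h : HP (!b) n P) (h' : HP b n Q) : HP b n fun M A e => P M A e → Q M A e := by
  have := h.not
  rw [Bool.not_not] at this
  exact (this.or h').congr fun M A e _ => by tauto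

/-- quantifiers, in the de Bruijn style -/
theorem HP.all {R : ∀ M : Type, AStr M → M → (ℕ → M) → Prop}
    (h : HP false (n + 1) fun M A e => R M A (e 0) (tl e)) :
    HP false (n + 1) fun M A e => ∀ x, R M A x e := h.hm_qf0

theorem HP.ex {R : ∀ M : Type, AStr M → M → (ℕ → M) → Prop}
    (h : HP true (n + 1) fun M A e => R M A (e 0) (tl e)) :
    HP true (n + 1) fun M A e => ∃ x, R M A x e := h.hm_qf0

theorem hm_cnsN_succ {M : Type} (N : ℕ) (u e : ℕ → M) :
    cnsN (N + 1) u e = cnsN N u (cns (u N) e) := by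
  funext k
  unfold cnsN
  by_cases h1 : k < N
  · simp [h1, Nat.lt_succ_of_lt h1]
  · by_cases h2 : k = N
    · subst h2; simp [cns]
    · obtain ⟨j, rfl⟩ : ∃ j, k = N + 1 + j := ⟨k - (N + 1), by omega⟩
      have h3 : ¬ N + 1 + j < N := by omega
      have h4 : ¬ N + 1 + j < N + 1 := by omega
      have h5 : N + 1 + j - (N + 1) = j := by omega
      have h6 : N + 1 + j - N = j + 1 := by omega
      simp only [h3, h4, h5, h6, if_false, cns]

theorem HP.exN (N : ℕ) (h : HP true (n + 1) P) :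
    HP true (n + 1) fun M A e => ∃ u : ℕ → M, P M A (cnsN N u e) := by
  induction N with
  | zero =>
    refine h.congr fun M A e _ => ?_
    have : ∀ u : ℕ → M, cnsN 0 u e = e := by
      intro u; funext k; simp [cnsN]
    simp only [this]
    exact ⟨fun h => ⟨e, h⟩, fun h => h.elim fun _ h => h⟩
  | succ N ih =>
    refine ih.hm_qf0.congr fun M A e _ => ?_
    change (∃ x, ∃ u : ℕ → M, P M A (cnsN N u (cns x e))) ↔ _
    constructor
    · rintro ⟨x, u, hu⟩
      refine ⟨update u N x, ?_⟩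
      rw [hm_cnsN_succ]
      have : cnsN N (update u N x) (cns (update u N x N) e) = cnsN N u (cns x e) := by
        funext k
        unfold cnsN
        by_cases hk : k < N
        · simp only [hk, if_true]; rw [update_of_ne hk.ne]
        · simp only [hk, if_false]; rw [update_self]
      rw [this]; exact hu
    · rintro ⟨u, hu⟩
      rw [hm_cnsN_succ] at hu
      exact ⟨u N, u, hu⟩

theorem HP.num (h : HP b n P) (j k : ℕ) :
    HP b n fun M A e => P M A (update e j (H97.PAS.num A k)) := by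
  obtain ⟨φ, h1, h2⟩ := h
  exact ⟨sb1 j k φ, hier_sb _ k h1, fun M A hA v =>
    (sat_sb1 A j k φ v).trans (h2 M A hA _)⟩

theorem HP.exists_free {N : ℕ} (h : HP b n P) (hd : Dep N P) :
    ∃ φ : AFml, Hier b n φ ∧ (∀ k, freeA φ k → k < N) ∧ Defines φ P := by
  obtain ⟨φ, h1, h2⟩ := h
  refine ⟨sb (fun k => decide (N ≤ k)) 0 φ, hier_sb _ 0 h1, fun k hk => ?_,
    fun M A hA v => ?_⟩
  · have := ((free_sb _ _ _ _).1 hk).1
    simpa using this
  · rw [sat_sb, h2 M A hA]
    have : ∀ k < N, (fun k => if decide (N ≤ k) = true then H97.PAS.num A 0 else v k) k = v k := by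
      intro k hk
      have : ¬ N ≤ k := by omega
      simp [this]
    exact ⟨hd M A _ _ hA this, hd M A _ _ hA fun k hk => (this k hk).symm⟩

/-- every formula belongs to the hierarchy -/
theorem HP.of_fml (φ : AFml) : ∃ n, ∀ m ≥ n, ∀ b, HP b m fun _ A e => satA A φ e := by
  induction φ with
  | atom a => exact ⟨0, fun m _ b => hm_sat (Hier.hm_of_d0 (.atom a) m b)⟩
  | bot => exact ⟨0, fun m _ b => hm_sat (Hier.hm_of_d0 .bot m b)⟩
  | imp φ ψ ih₁ ih₂ =>
    obtain ⟨n₁, h₁⟩ := ih₁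
    obtain ⟨n₂, h₂⟩ := ih₂
    exact ⟨max n₁ n₂, fun m hm b => (h₁ m (le_trans (le_max_left _ _) hm) (!b)).imp
      (h₂ m (le_trans (le_max_right _ _) hm) b)⟩
  | all i φ ih =>
    obtain ⟨n, h⟩ := ih
    refine ⟨n + 2, fun m hm b => ?_⟩
    exact ((h (n + 1) (Nat.le_succ n) false).allV i).flip b (by omega)

end H87.SF
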