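import Pool.Agent.Helper87.SF.GenM
import Pool.Agent.Helper87.SF.RecM
import Pool.Agent.Helper87.SF.CondM

/-!
# Module M10: the truth lemma for the jumps
-/

namespace H87.SF

open H97.PAS Function

/-- The term of the entry of the operation table. -/
def entryT (x : ℕ) : Tm :=
  match x.unpair.1 with
  | 0 => .zero
  | 1 => .succ (.var x.unpair.2)
  | 2 => .add (.var x.unpair.2.unpair.1) (.var x.unpair.2.unpair.2)
  | _ => .mul (.var x.unpair.2.unpair.1) (.var x.unpair.2.unpair.2)

theorem entryT_val {M : Type} (A : AStr M) (v : ℕ → M) (x : ℕ) :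
    (entryT x).val A v = Entry A v x := by
  unfold entryT Entry
  generalize x.unpair.1 = a
  rcases a with _ | _ | _ | a <;> rfl

theorem entryT_occ {x k : ℕ} (h : (entryT x).Occ k) : k ≤ x := by
  have h1 : x.unpair.2 ≤ x := Nat.unpair_right_le x
  have h2 : x.unpair.2.unpair.1 ≤ x.unpair.2 := Nat.unpair_left_le _
  have h3 : x.unpair.2.unpair.2 ≤ x.unpair.2 := Nat.unpair_right_le _
  unfold entryT at h
  split at h
  · exact absurd h id
  · simp only [Tm.Occ] at h
    omega
  · simp only [Tm.Occ] at h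
    omega
  · simp only [Tm.Occ] at h
    omega

/-- The formula of a fact. -/
def factF (k x : ℕ) : AFml := .atom (.var k, entryT x)

theorem sat_factF {M : Type} (A : AStr M) (v : ℕ → M) (k x : ℕ) :
    satA A (factF k x) v ↔ v k = Entry A v x := by
  unfold factF satA
  rw [Fml.sat_atom, entryT_val]
  rfl

/-- finite conjunctions -/
def conjR (f : ℕ → AFml) : ℕ → AFml
  | 0 => .imp .bot .bot
  | n + 1 => Fml.and (conjR f n) (f n)

theorem sat_conjR {M : Type} (A : AStr M) (v : ℕ → M) (f : ℕ → AFml) (n : ℕ) :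
    satA A (conjR f n) v ↔ ∀ i < n, satA A (f i) v := by
  induction n with
  | zero =>
    constructor
    · intro _ i hi
      exact absurd hi (Nat.not_lt_zero i)
    · intro _ h
      exact h
  | succ n ih =>
    have h1 : satA A (conjR f (n + 1)) v ↔ satA A (conjR f n) v ∧ satA A (f n) v :=
      Fml.sat_and _ _ v
    rw [h1, ih]
    constructor
    · rintro ⟨h2, h3⟩ i hi
      rcases Nat.lt_succ_iff_lt_or_eq.1 hi with h | rfl
      · exact h2 i h
      · exact h3
    · intro h
      exact ⟨fun i hi => h i (hi.trans (Nat.lt_succ_self n)), h n (Nat.lt_succ_self n)⟩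

theorem free_conjR (f : ℕ → AFml) (n k : ℕ) (h : freeA (conjR f n) k) :
    ∃ i < n, freeA (f i) k := by
  induction n with
  | zero =>
    rcases h with h | h
    · exact absurd h id
    · exact absurd h id
  | succ n ih =>
    have h1 : freeA (conjR f n) k ∨ freeA (f n) k := (Fml.free_and _ _ k).1 h
    rcases h1 with h1 | h1
    · obtain ⟨i, hi, h2⟩ := ih h1
      exact ⟨i, hi.trans (Nat.lt_succ_self n), h2⟩
    · exact ⟨n, Nat.lt_succ_self n, h1⟩

theorem name_all {M : Type} [Infinite M] (N : ℕ) (v : ℕ → M) (hv : Injective v) (e : ℕ → M)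
    (L : ℕ) : ∃ N', N ≤ N' ∧ ∃ w : ℕ → M, Injective w ∧ (∀ i < N, w i = v i) ∧
      ∀ x < L, ∃ k < N', w k = e x := by
  induction L with
  | zero => exact ⟨N, le_rfl, v, hv, fun _ _ => rfl, fun x hx => absurd hx (Nat.not_lt_zero x)⟩
  | succ L ih =>
    obtain ⟨N', hN, w, hw, hwv, hwe⟩ := ih
    by_cases h : ∃ k < N', w k = e L
    · refine ⟨N', hN, w, hw, hwv, fun x hx => ?_⟩
      rcases Nat.lt_succ_iff_lt_or_eq.1 hx with hx | rfl
      · exact hwe x hx
      · exact h
    · push Not at h
      obtain ⟨u, hu, hui⟩ := exists_extend (N' + 1) (update w N' (e L)) (by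
        intro i hi j hj hij
        by_cases h1 : i = N' <;> by_cases h2 : j = N'
        · rw [h1, h2]
        · subst h1
          rw [update_self, update_of_ne h2] at hij
          exact absurd hij.symm (h j (by omega))
        · subst h2
          rw [update_self, update_of_ne h1] at hij
          exact absurd hij (h i (by omega))
        · rw [update_of_ne h1, update_of_ne h2] at hij
          exact hw hij)
      have hu' : ∀ i < N', u i = w i := fun i hi => by
        rw [hu i (by omega), update_of_ne (by omega)]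
      refine ⟨N' + 1, by omega, u, hui, fun i hi => ?_, fun x hx => ?_⟩
      · rw [hu' i (by omega), hwv i hi]
      · rcases Nat.lt_succ_iff_lt_or_eq.1 hx with hx | rfl
        · obtain ⟨k, hk, hk'⟩ := hwe x hx
          exact ⟨k, by omega, by rw [hu' k hk, hk']⟩
        · exact ⟨N', by omega, by rw [hu N' (by omega), update_self]⟩

theorem entry_congr {M : Type} (A : AStr M) {v w : ℕ → M} {x : ℕ} (h : ∀ k ≤ x, v k = w k) :
    Entry A v x = Entry A w x := by
  rw [← entryT_val, ← entryT_val]
  exact Tm.val_congr A _ v w fun k hk => h k (entryT_occ hk)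

theorem dense_F (m L : ℕ) (r : Cond) (hr : r.Cons) :
    ∃ s : Cond, s.Cons ∧ s ≤ r ∧ ∃ τ : List ℕ, τ.length = L ∧ F m s τ := by
  classical
  cases m with
  | zero =>
    obtain ⟨M, A, v, hM, hv⟩ := hr.exists_inj
    have := infinite_of_isPA hM.1
    obtain ⟨N', hN', w, hw, hwv, hwe⟩ := name_all (max r.N L) v hv (fun x => Entry A v x) L
    choose! K hK hK' using hwe
    obtain ⟨s, hsN, hsr, hs⟩ := exists_and r N' ((le_max_left _ _).trans hN')
      (conjR (fun x => factF (K x) x) L) (by
        intro k hk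
        obtain ⟨i, hi, hk2⟩ := free_conjR _ _ _ hk
        have hiN : i < N' := lt_of_lt_of_le hi ((le_max_right _ _).trans hN')
        rcases hk2 with hk2 | hk2
        · have hk3 : k = K i := hk2
          rw [hk3]
          exact hK i hi
        · exact lt_of_le_of_lt (entryT_occ hk2) hiN)
    refine ⟨s, ⟨M, A, w, ?_⟩, hsr, (List.range L).map K, by simp, ⟨?_, ?_⟩, ?_⟩
    · rw [hs]
      refine ⟨hM.1, (hM.congr fun k hk => ?_).2.1, ?_, fun i _ j _ h => hw h⟩
      · exact (hwv k (lt_of_lt_of_le hk (le_max_left _ _))).symm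
      · rw [sat_conjR]
        intro i hi
        rw [sat_factF, hK' i hi]
        refine entry_congr A fun k hk => ?_
        exact (hwv k (lt_of_le_of_lt hk (lt_of_lt_of_le hi (le_max_right _ _)))).symm
    · rw [List.length_map, List.length_range, hsN]
      exact (le_max_right _ _).trans hN'
    · intro k hk
      obtain ⟨x, hx, rfl⟩ := List.mem_map.1 hk
      rw [hsN]
      exact hK x (List.mem_range.1 hx)
    · intro B BA u hu i hi
      have h1 := ((hs B BA u).1 hu).2.2.1
      rw [sat_conjR] at h1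
      have hi' : i < L := by simpa using hi
      have h2 := h1 i hi'
      rw [sat_factF] at h2
      rw [← h2]
      simp
  | succ m =>
    induction L with
    | zero => exact ⟨r, hr, Cond.le_refl r, [], rfl, fun i hi => absurd hi (Nat.not_lt_zero i)⟩
    | succ L ih =>
      obtain ⟨s, hs, hsr, τ, hτ, hF⟩ := ih
      by_cases h : ∃ s' : Cond, s'.Cons ∧ s' ≤ s ∧ ∃ ρ, Halts L ρ ∧ F m s' ρ
      · obtain ⟨s', hs', hs's, ρ, hρ, hFρ⟩ := h
        have hF' : F (m + 1) s' τ := F_mono hs's hF
        refine ⟨s', hs', Cond.le_trans hs's hsr, τ ++ [1], by simp [hτ], ?_⟩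
        intro i hi
        rw [List.length_append, List.length_singleton, hτ] at hi
        rcases Nat.lt_succ_iff_lt_or_eq.1 hi with hi | rfl
        · have h1 := hF' i (by rw [hτ]; exact hi)
          rw [List.getElem_append_left (by rw [hτ]; exact hi)]
          exact h1
        · left
          refine ⟨?_, ρ, hρ, hFρ⟩
          rw [List.getElem_append_right (by rw [hτ])]
          simp
      · push Not at h
        refine ⟨s, hs, hsr, τ ++ [0], by simp [hτ], ?_⟩
        intro i hi
        rw [List.length_append, List.length_singleton, hτ] at hi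
        rcases Nat.lt_succ_iff_lt_or_eq.1 hi with hi | rfl
        · have h1 := hF i (by rw [hτ]; exact hi)
          rw [List.getElem_append_left (by rw [hτ]; exact hi)]
          exact h1
        · right
          refine ⟨?_, fun q hq hqs ρ hρ => h q hq hqs ρ hρ⟩
          rw [List.getElem_append_right (by rw [hτ])]
          simp

theorem seg_length' (X : ℕ → ℕ) (n : ℕ) : (seg X n).length = n := by
  simp [seg]

theorem eq_seg_iff (X : ℕ → ℕ) (τ : List ℕ) :
    τ = seg X τ.length ↔ ∀ i (hi : i < τ.length), τ[i] = X i := by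
  constructor
  · intro h i hi
    have h1 : (seg X τ.length)[i]'(by rw [seg_length']; exact hi) = X i := by
      simp [seg]
    rw [← h1]
    congr 1
  · intro h
    refine List.ext_getElem (by rw [seg_length']) fun i h1 h2 => ?_
    rw [h i h1]
    simp [seg]

theorem diag_eq (A : AStr ℕ) (x : ℕ) : A.diag x = Entry A id x := by
  unfold AStr.diag Entry
  generalize x.unpair.1 = a
  rcases a with _ | _ | _ | a <;> rfl

theorem F0_seg {A : AStr ℕ} {g : ℕ → Cond} (hg : Generic A g) {τ : List ℕ} {i : ℕ}
    (h : F 0 (g i) τ) : τ = seg A.diag τ.length := by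
  rw [eq_seg_iff]
  intro x hx
  have h1 := hg.sound (factF τ[x] x) id i (fun M B v hv => by
    change satA B (factF τ[x] x) v
    rw [sat_factF]
    exact h.2 M B v hv x hx)
  rw [sat_factF] at h1
  rw [diag_eq]
  exact h1

theorem exists_common {A : AStr ℕ} {g : ℕ → Cond} (hg : Generic A g) (L : ℕ) (P : ℕ → SP)
    (h : ∀ x < L, ∃ i, (g i).Sat (P x)) : ∃ i, ∀ x < L, (g i).Sat (P x) := by
  induction L with
  | zero => exact ⟨0, fun x hx => absurd hx (Nat.not_lt_zero x)⟩
  | succ L ih =>
    obtain ⟨i, hi⟩ := ih fun x hx => h x (by omega)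
    obtain ⟨j, hj⟩ := h L (Nat.lt_succ_self L)
    refine ⟨max i j, fun x hx => ?_⟩
    rcases Nat.lt_succ_iff_lt_or_eq.1 hx with hx | rfl
    · exact (hi x hx).mono (hg.le (le_max_left _ _))
    · exact hj.mono (hg.le (le_max_right _ _))

theorem seg_F0 {A : AStr ℕ} {g : ℕ → Cond} (hg : Generic A g) {τ : List ℕ}
    (h : τ = seg A.diag τ.length) : ∃ i, F 0 (g i) τ := by
  rw [eq_seg_iff] at h
  obtain ⟨i, hi⟩ := exists_common hg τ.length
    (fun x M B v => ∀ hx : x < τ.length, v τ[x] = Entry B v x) (fun x hx => by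
      obtain ⟨i, hi⟩ := hg.truth (factF τ[x] x) id (by
        rw [sat_factF, ← diag_eq]
        exact h x hx)
      refine ⟨i, fun M B v hv _ => ?_⟩
      have h2 : satA B (factF τ[x] x) v := hi M B v hv
      rw [sat_factF] at h2
      exact h2)
  obtain ⟨j, hj⟩ := hg.unb (max τ.length (τ.sum + 1))
  refine ⟨max i j, ⟨?_, ?_⟩, ?_⟩
  · exact ((le_max_left _ _).trans hj).trans (hg.le (le_max_right i j)).1
  · intro k hk
    have h1 : k ≤ τ.sum := List.le_sum_of_mem hk
    have h2 := ((le_max_right _ _).trans hj).trans (hg.le (le_max_right i j)).1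
    omega
  · intro M B v hv x hx
    exact (hi x hx).mono (hg.le (le_max_left i j)) M B v hv hx

theorem truth_F {A : AStr ℕ} {g : ℕ → Cond} (hg : Generic A g)
    (hdec : ∀ m L, ∃ i, ∃ τ : List ℕ, τ.length = L ∧ F m (g i) τ) (m : ℕ) (τ : List ℕ) :
    τ = seg (jumps m A.diag) τ.length ↔ ∃ i, F m (g i) τ := by
  induction m generalizing τ with
  | zero => exact ⟨fun h => seg_F0 hg h, fun ⟨i, hi⟩ => F0_seg hg hi⟩
  | succ m ih =>
    have key : ∀ (τ : List ℕ) (i : ℕ), F (m + 1) (g i) τ →
        τ = seg (jumps (m + 1) A.diag) τ.length := by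
      intro τ i hF
      rw [eq_seg_iff]
      intro x hx
      change τ[x] = jump (jumps m A.diag) x
      rcases hF x hx with ⟨h1, ρ, ⟨y, hy⟩, h2⟩ | ⟨h1, h2⟩
      · have h3 := (ih ρ).2 ⟨i, h2⟩
        rw [h1, jump, if_pos]
        refine ⟨y, (phi_iff _ _ _ _).2 ⟨ρ.length, ?_⟩⟩
        rw [← h3]
        exact hy
      · rw [h1, jump, if_neg]
        rintro ⟨y, hy⟩
        obtain ⟨s, hs⟩ := (phi_iff _ _ _ _).1 hy
        obtain ⟨j, hj⟩ := (ih (seg (jumps m A.diag) s)).1 (by rw [seg_length'])
        exact h2 (g (max i j)) (hg.cons _) (hg.le (le_max_left _ _)) _ ⟨y, hs⟩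
          (F_mono (hg.le (le_max_right _ _)) hj)
    constructor
    · intro h
      obtain ⟨i, τ', hτ', hF⟩ := hdec (m + 1) τ.length
      have h1 := key τ' i hF
      rw [hτ', ← h] at h1
      rw [← h1]
      exact ⟨i, hF⟩
    · rintro ⟨i, hF⟩
      exact key τ i hF

end H87.SF
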