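import Pool.Agent.Helper87.SF.Base

/-!
# Definitions for the diagonalisation
-/

namespace H87.SF

open H97.PAS Function

/-- the program `e` is forced to make a mistake of the first kind at the sentence `σ`: it is
forced to diverge, or to answer `yes` although `σ` is false -/
def Bad (e : ℕ) (σ : AFml) (q : Cond) : Prop :=
  (∀ s : Cond, s.Cons → s ≤ q → ∀ τ y, F 0 s τ → ¬ PhiL e τ (codeA σ) y) ∨
    ∃ τ y, F 0 q τ ∧ PhiL e τ (codeA σ) (y + 1) ∧ q.Sat fun _ A v => ¬ satA A σ v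

/-- the program `e` is forced to answer `no` at the true sentence `σ` -/
def Miss (e : ℕ) (σ : AFml) (q : Cond) : Prop :=
  ∃ τ, F 0 q τ ∧ PhiL e τ (codeA σ) 0 ∧ q.Sat fun _ A v => satA A σ v

/-- `q` forces that the family with the index function `g` has, at the level `n ≥ 1`, no
Solovay family function with at most `B` changes. -/
def Win (g : ℕ → ℕ) (h : ℕ → ℕ) (q : Cond) : Prop := ∃ n ≥ 1,
  (∃ s : ℕ, ∀ r : Cond, r.Cons → r ≤ q → ∀ τ e, F (n - 1) r τ → ¬ PhiL (g n) τ s e) ∨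
  (∃ s τ e σ, F (n - 1) q τ ∧ PhiL (g n) τ s e ∧ Hier true n σ ∧ (∀ k, ¬ freeA σ k) ∧
    Bad e σ q) ∨
  (∃ s τ e σ, F (n - 1) q τ ∧ PhiL (g n) τ s e ∧ Hier true n σ ∧ (∀ k, ¬ freeA σ k) ∧
    Miss e σ q ∧ ∀ r : Cond, r.Cons → r ≤ q → ∀ s' > s, ∀ τ' e', F (n - 1) r τ' →
      PhiL (g n) τ' s' e' → e' = e) ∨
  (∃ s e : ℕ → ℕ, (∀ j ≤ h n, s j < s (j + 1) ∧ e j ≠ e (j + 1)) ∧
    ∀ j ≤ h n + 1, ∃ τ, F (n - 1) q τ ∧ PhiL (g n) τ (s j) (e j))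

end H87.SF
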