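import Pool.Agent.Helper87.SF.WinDefs
import Pool.Agent.Helper87.SF.TruthM
import Pool.Agent.Helper87.SF.ReprM
import Pool.Agent.Helper87.SF.ValidM
import Pool.Agent.Helper87.SF.GkM
import Pool.Agent.Helper87.SF.ForceM

/-!
# Module M11: one diagonalisation step
-/

namespace H87.SF

open H97.PAS Function

/-! ### auxiliary facts -/

theorem HP.triv {b : Bool} {n : ℕ} : HP b n fun _ _ _ => True :=
  ((DP.bot.imp DP.bot).hp b n).congr fun _ _ _ _ => by simp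

theorem HP.ballN {b : Bool} {n : ℕ} {P : ℕ → SP} (m : ℕ) (h : ∀ z < m, HP b n (P z)) :
    HP b n fun M A v => ∀ z < m, P z M A v := by
  induction m with
  | zero => exact HP.triv.congr fun _ _ _ _ => by simp
  | succ m ih =>
    refine ((ih fun z hz => h z (hz.trans (Nat.lt_succ_self m))).and
      (h m (Nat.lt_succ_self m))).congr fun M A v _ => ?_
    constructor
    · rintro ⟨h1, h2⟩ z hz
      rcases Nat.lt_succ_iff_lt_or_eq.1 hz with h3 | rfl
      · exact h1 z h3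
      · exact h2
    · intro h1
      exact ⟨fun z hz => h1 z (hz.trans (Nat.lt_succ_self m)), h1 m (Nat.lt_succ_self m)⟩

theorem exists_perm (N N₁ : ℕ) (ι : ℕ → ℕ) (hN : N ≤ N₁) (h1 : ∀ i < N, ι i < N₁)
    (h2 : ∀ i < N, ∀ j < N, ι i = ι j → i = j) :
    ∃ e : Equiv.Perm ℕ, (∀ i < N, e i = ι i) ∧ ∀ k, N₁ ≤ k → e k = k := by
  induction N with
  | zero => exact ⟨1, fun i hi => absurd hi (Nat.not_lt_zero _), fun k _ => rfl⟩
  | succ N ih =>
    obtain ⟨e, he1, he2⟩ := ih (by omega) (fun i hi => h1 i (by omega))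
      (fun i hi j hj => h2 i (by omega) j (by omega))
    refine ⟨Equiv.swap (e N) (ι N) * e, ?_, ?_⟩
    · intro i hi
      rw [Equiv.Perm.mul_apply]
      rcases Nat.lt_succ_iff_lt_or_eq.1 hi with h3 | rfl
      · rw [he1 i h3, Equiv.swap_apply_of_ne_of_ne]
        · rw [← he1 i h3]
          exact fun h => h3.ne (e.injective h)
        · exact fun h => h3.ne (h2 i (by omega) N (by omega) h)
      · rw [Equiv.swap_apply_left]
    · intro k hk
      rw [Equiv.Perm.mul_apply, he2 k hk, Equiv.swap_apply_of_ne_of_ne]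
      · intro h
        have h3 : e k = e N := by rw [he2 k hk, ← h]
        have := e.injective h3
        omega
      · have := h1 N (by omega)
        omega

theorem perm_lt {e : Equiv.Perm ℕ} {N₁ N : ℕ} (he : ∀ k, N₁ ≤ k → e k = k) (hN : N₁ ≤ N) {k : ℕ}
    (hk : k < N) : e k < N := by
  by_contra h
  have h1 : e (e k) = e k := he _ (by omega)
  have := e.injective h1
  omega

/-- facts forced by a condition are seen by `GV` -/
theorem exists_code_F0 {κ : AFml} {N : ℕ} {s : Cond} (hN : N ≤ s.N) {τ : List ℕ} (hF : F 0 s τ) :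
    ∃ y, Good N y ∧ tauOf y = τ ∧ s.Sat (GV κ 0 N y) := by
  obtain ⟨y, hy1, hy2⟩ := exists_y s.N τ
  refine ⟨y, ⟨by rw [hy1]; exact hN, by rw [hy1, hy2]; exact hF.1⟩, hy2, fun M A v hv => ?_⟩
  obtain ⟨b, c, hbc⟩ := exists_cod hv.1 s.N v
  refine ⟨b, c, fun i hi => hbc i (hi.trans_le hN), ?_⟩
  show G0 A (num A y) b c
  rw [g0_iff hv.1, hy1, hy2]
  refine ⟨facts_congr A hF.1 (fun i hi => (hbc i hi).symm) (hF.2 M A v hv), ?_⟩
  intro i hi j hj he
  rw [hbc i hi, hbc j (hj.trans hi)] at he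
  exact absurd (hv.2.2 i hi j (hj.trans hi) he) hj.ne'

/-- the sentence of the diagonalisation: the index is the value of `v_0` -/
def PSI (κ : AFml) (p : Cond) : SP := fun M A e => ∃ u : ℕ → M,
  satA A p.φ u ∧ (∀ i < p.N, ∀ j < p.N, u i = u j → i = j) ∧
  ∃ y w, KR κ A (num A 0) (e 0) y w ∧
    (∃ b c, (∀ i < p.N, bv A b c i = u i) ∧ G0 A y b c) ∧
    ∀ z z', A.le z (A.add y w) → A.le z' (A.add y w) → KR κ A (num A 1) (e 0) z z' →
      ∀ b c, (∀ i < p.N, bv A b c i = u i) → ¬ G0 A z b c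

theorem kr_num_dp {κ : AFml} (hκ : IsKK κ) (a j k l : ℕ) :
    DP fun _ A e => KR κ A (num A a) (e j) (e k) (e l) := by
  have h := DP.bex (t := fun _ A _ => num A a) (TP.num a)
    (R := fun _ A x e => x = num A a ∧ KR κ A x (e j) (e k) (e l))
    ((DP.eq (TP.var 0) (TP.num a)).and (kr_dp hκ 0 (j + 1) (k + 1) (l + 1)))
  refine h.congr fun M A e hA => ?_
  constructor
  · rintro ⟨x, -, rfl, h⟩; exact h
  · intro h; exact ⟨num A a, ⟨A.zero, by rw [hA.zero_add]⟩, rfl, h⟩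

theorem g0_dp_vars (i j k : ℕ) : DP fun _ A e => G0 A (e i) (e j) (e k) := g0_dp.ren (a4 i j k k)

theorem dist_dp (N : ℕ) : DP fun _ _ e => ∀ i < N, ∀ j < N, e i = e j → i = j := by
  have h : HP true 0 fun _ _ e => ∀ i < N, ∀ j < N, e i = e j → i = j := by
    refine HP.ballN (P := fun i _ _ e => ∀ j < N, e i = e j → i = j) N fun i _ => ?_
    refine HP.ballN (P := fun j _ _ e => e i = e j → i = j) N fun j _ => ?_
    by_cases hij : i = j
    · exact HP.triv.congr fun _ _ _ _ => by simp [hij]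
    · exact ((DP.eq (TP.var i) (TP.var j)).not.hp true 0).congr fun M A e _ => by simp [hij]
  exact h.dp

theorem psi_hp {κ : AFml} (hκ : IsKK κ) {n : ℕ} (hn : 2 ≤ n) (p : Cond) (hpn : HP true n p.P) :
    HP true n (PSI κ p) := by
  obtain ⟨n, rfl⟩ : ∃ m, n = m + 1 := ⟨n - 1, by omega⟩
  set N := p.N with hN
  have hlast : HP true (n + 1) fun _ A e => ∀ z z', A.le z (A.add (e 1) (e 0)) →
      A.le z' (A.add (e 1) (e 0)) → KR κ A (num A 1) (e (N + 2)) z z' →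
      ∀ b c, (∀ i < N, bv A b c i = e (i + 2)) → ¬ G0 A z b c := by
    refine HP.flip (b := false) (n := 1) true ?_ (by omega)
    refine HP.all (HP.all ?_)
    refine HP.imp ((DP.le (TP.var 1) ((TP.var 3).add (TP.var 2))).hp _ _) ?_
    refine HP.imp ((DP.le (TP.var 0) ((TP.var 3).add (TP.var 2))).hp _ _) ?_
    refine HP.imp ((kr_num_dp hκ 1 (N + 4) 1 0).hp _ _) ?_
    refine HP.all (HP.all ?_)
    refine HP.imp ((cod_dp N (fun i => i + 6) 1 0).hp _ _) ?_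
    exact (g0_dp_vars 3 1 0).not.hp _ _
  have hmid : HP true (n + 1) fun _ A e => ∃ b c, (∀ i < N, bv A b c i = e (i + 2)) ∧
      G0 A (e 1) b c := by
    refine HP.ex (HP.ex ?_)
    exact ((cod_dp N (fun i => i + 4) 1 0).and (g0_dp_vars 3 1 0)).hp _ _
  have hin : HP true (n + 1) fun _ A e => ∃ y w, KR κ A (num A 0) (e N) y w ∧
      (∃ b c, (∀ i < N, bv A b c i = e i) ∧ G0 A y b c) ∧
      ∀ z z', A.le z (A.add y w) → A.le z' (A.add y w) → KR κ A (num A 1) (e N) z z' →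
      ∀ b c, (∀ i < N, bv A b c i = e i) → ¬ G0 A z b c := by
    refine HP.ex (HP.ex ?_)
    exact ((kr_num_dp hκ 0 (N + 2) 1 0).hp _ _).and (hmid.and hlast)
  have h := HP.exN N ((hpn.and ((dist_dp N).hp true (n + 1))).and hin)
  refine h.congr fun M A e _ => ?_
  refine exists_congr fun u => ?_
  have hu : ∀ i < N, cnsN N u e i = u i := fun i hi => if_pos hi
  have hu' : cnsN N u e N = e 0 := by
    unfold cnsN; rw [if_neg (lt_irrefl N), Nat.sub_self]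
  rw [hu', and_assoc]
  refine and_congr ?_ (and_congr ?_ ?_)
  · exact satA_congr A p.φ fun k hk => hu k (p.free k hk)
  · refine forall_congr' fun i => forall_congr' fun hi => forall_congr' fun j =>
      forall_congr' fun hj => ?_
    rw [hu i hi, hu j hj]
  · refine exists_congr fun y => exists_congr fun w => and_congr Iff.rfl (and_congr ?_ ?_)
    · refine exists_congr fun b => exists_congr fun c => and_congr ?_ Iff.rfl
      refine forall_congr' fun i => forall_congr' fun hi => ?_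
      rw [hu i hi]
    · refine forall_congr' fun z => forall_congr' fun z' => forall_congr' fun _ =>
        forall_congr' fun _ => forall_congr' fun _ => forall_congr' fun b => forall_congr' fun c =>
        imp_congr ?_ Iff.rfl
      refine forall_congr' fun i => forall_congr' fun hi => ?_
      rw [hu i hi]

theorem gv_congr {κ : AFml} {k N x : ℕ} {M : Type} {A : AStr M} {v w : ℕ → M}
    (h : ∀ i < N, v i = w i) (hg : GV κ k N x M A v) : GV κ k N x M A w := by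
  obtain ⟨b, c, h1, h2⟩ := hg
  exact ⟨b, c, fun i hi => (h1 i hi).trans (h i hi), h2⟩

theorem gv_mono {κ : AFml} {k N N' x : ℕ} (hN : N ≤ N') {M : Type} {A : AStr M} {v : ℕ → M}
    (hg : GV κ k N' x M A v) : GV κ k N x M A v := by
  obtain ⟨b, c, h1, h2⟩ := hg
  exact ⟨b, c, fun i hi => h1 i (hi.trans_le hN), h2⟩

/-- a condition which says that the facts in the list coded by `y` hold, with more constants, and
`Q` holds -/
theorem exists_facts {κ : AFml} (hκ : IsKK κ) {n : ℕ} (hn : 1 ≤ n) (p : Cond)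
    (hpn : HP true n p.P) {y : ℕ} (hy : Good p.N y) {Q : SP} (hQ : HP true n Q) (hQd : Dep p.N Q) :
    ∃ q : Cond, q ≤ p ∧ HP true n q.P ∧ q.Sat Q ∧ F 0 q (tauOf y) ∧
      q.Sat (GV κ 0 p.N y) ∧
      ∀ (M : Type) (A : AStr M) (v : ℕ → M), p.Mod A v → GV κ 0 p.N y M A v → Q M A v →
        ∃ v' : ℕ → M, (∀ i < p.N, v' i = v i) ∧ q.Mod A v' := by
  obtain ⟨n, rfl⟩ : ∃ m, n = m + 1 := ⟨n - 1, by omega⟩
  have hP : HP true (n + 1) fun M A v => (satA A p.φ v ∧ Q M A v) ∧ GV κ 0 (dOf y) y M A v :=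
    (hpn.and hQ).and ((gv_hp hκ 0 (dOf y) y).up (by omega))
  obtain ⟨q, hqN, hqP, hq⟩ := exists_cond (dOf y) (n + 1) hP (by
    intro M A v w hA hvw h
    have hvw' : ∀ k < p.N, v k = w k := fun k hk => hvw k (hk.trans_le hy.1)
    exact ⟨⟨(satA_congr A p.φ fun k hk => hvw' k (p.free k hk)).1 h.1.1,
      hQd M A v w hA hvw' h.1.2⟩, gv_congr hvw h.2⟩)
  refine ⟨q, ⟨by rw [hqN]; exact hy.1, fun M A v hv => ?_⟩, hqP, fun M A v hv => ?_, ⟨?_, ?_⟩,
    fun M A v hv => ?_, fun M A v hv hg hQv => ?_⟩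
  · obtain ⟨h1, h2, h3⟩ := (hq M A v).1 hv
    exact ⟨h1, h2.1.1, fun i hi j hj hij =>
      h3 i (hi.trans_le hy.1) j (hj.trans_le hy.1) hij⟩
  · exact ((hq M A v).1 hv).2.1.1.2
  · rw [hqN]; exact hy.2
  · intro M A v hv
    obtain ⟨h1, h2, h3⟩ := (hq M A v).1 hv
    obtain ⟨b, c, hbc, hG⟩ := h2.2
    have hG' : G0 A (num A y) b c := hG
    rw [g0_iff h1] at hG'
    exact facts_congr A hy.2 hbc hG'.1
  · exact gv_mono hy.1 ((hq M A v).1 hv).2.1.2
  · obtain ⟨b, c, hbc, hG⟩ := hg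
    have hG' : G0 A (num A y) b c := hG
    rw [g0_iff hv.1] at hG'
    refine ⟨bv A b c, hbc, (hq M A _).2 ⟨hv.1, ⟨⟨?_, ?_⟩, b, c, fun _ _ => rfl, hG⟩, ?_⟩⟩
    · exact (satA_congr A p.φ fun k hk => hbc k (p.free k hk)).2 hv.2.1
    · exact hQd M A v _ hv.1 (fun k hk => (hbc k hk).symm) hQv
    · intro i hi j hj hij
      rcases lt_trichotomy i j with h | h | h
      · exact absurd hij.symm (hG'.2 j hj i h)
      · exact h
      · exact absurd hij (hG'.2 i hi j h)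

theorem Cond.sat_ren (s : Cond) (e : Equiv.Perm ℕ) {N₁ : ℕ} (he : ∀ k, N₁ ≤ k → e k = k)
    (hN : N₁ ≤ s.N) (p : Cond) (hp : p.N ≤ s.N) : ∃ q : Cond, q.N = s.N ∧
      ∀ (M : Type) (A : AStr M) (v : ℕ → M), q.Mod A v ↔ s.Mod A (v ∘ e) ∧ satA A p.φ v := by
  obtain ⟨n, hn⟩ := HP.of_fml s.φ
  obtain ⟨m, hm⟩ := HP.of_fml p.φ
  have h1 := (hn (max n m) (le_max_left _ _) true).ren e
  have h2 := hm (max n m) (le_max_right _ _) true
  obtain ⟨q, hqN, -, hq⟩ := exists_cond s.N (max n m) (h1.and h2) (by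
    intro M A v w hA hvw h
    refine ⟨(satA_congr A s.φ fun k hk => ?_).1 h.1,
      (satA_congr A p.φ fun k hk => hvw k ((p.free k hk).trans_le hp)).1 h.2⟩
    exact hvw _ (perm_lt he hN (s.free k hk)))
  refine ⟨q, hqN, fun M A v => ?_⟩
  rw [hq]
  constructor
  · rintro ⟨hA, ⟨hs, hp⟩, hinj⟩
    exact ⟨⟨hA, hs, fun i hi j hj hij =>
      e.injective (hinj _ (perm_lt he hN hi) _ (perm_lt he hN hj) hij)⟩, hp⟩
  · rintro ⟨⟨hA, hs, hinj⟩, hp⟩
    refine ⟨hA, ⟨hs, hp⟩, fun i hi j hj hij => ?_⟩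
    have he' : ∀ k, N₁ ≤ k → e.symm k = k := fun k hk => by
      rw [Equiv.symm_apply_eq, he k hk]
    have := hinj (e.symm i) (perm_lt he' hN hi) (e.symm j) (perm_lt he' hN hj) (by
      simpa using hij)
    exact e.symm.injective this

/-- the density of the sets used to build the model -/
theorem dense_E {κ : AFml} (p : Cond) {V : ℕ → Prop}
    (hV : ∀ s : Cond, s.Cons → s ≤ p → ∃ s' : Cond, s'.Cons ∧ s' ≤ s ∧ ∃ z, V z ∧
      s'.Sat (GV κ 0 p.N z)) (ι : ℕ → ℕ) (r : Cond) (hr : r.Cons) :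
    ∃ s : Cond, s.Cons ∧ s ≤ r ∧ ((∀ i < p.N, ∀ j < p.N, ι i = ι j → i = j) →
      ((s.Sat fun _ A v => ¬ satA A p.φ (v ∘ ι)) ∨
        ∃ z, V z ∧ s.Sat fun M A v => GV κ 0 p.N z M A (v ∘ ι))) := by
  set N := p.N with hN
  by_cases hinj : ∀ i < N, ∀ j < N, ι i = ι j → i = j
  swap
  · exact ⟨r, hr, Cond.le_refl r, fun h => absurd h hinj⟩
  -- enough constants
  obtain ⟨N₁, hN₁⟩ : ∃ N₁, N₁ = r.N + N + (∑ i ∈ Finset.range N, ι i) + 1 := ⟨_, rfl⟩
  have hι : ∀ i < N, ι i < N₁ := fun i hi => by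
    have := Finset.single_le_sum (f := ι) (fun _ _ => Nat.zero_le _) (Finset.mem_range.2 hi)
    omega
  obtain ⟨r₁, hr₁N, hr₁, hr₁m⟩ := exists_and r N₁ (by omega) (.imp .bot .bot)
    (fun k hk => by rcases hk with h | h <;> exact h.elim)
  have hr₁c : r₁.Cons := by
    obtain ⟨M, A, v, hv, hvi⟩ := hr.exists_inj
    exact ⟨M, A, v, (hr₁m M A v).2 ⟨hv.1, hv.2.1, fun h => h, fun i _ j _ hij => hvi hij⟩⟩
  by_cases hs : r₁.Sat fun _ A v => ¬ satA A p.φ (v ∘ ι)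
  · exact ⟨r₁, hr₁c, hr₁, fun _ => Or.inl hs⟩
  obtain ⟨M, A, v₀, hv₀, hφ⟩ : ∃ (M : Type) (A : AStr M) (v : ℕ → M), r₁.Mod A v ∧
      satA A p.φ (v ∘ ι) := by
    by_contra hcon
    exact hs fun M A v hv h => hcon ⟨M, A, v, hv, h⟩
  obtain ⟨e, he1, he2⟩ := exists_perm N N₁ ι (by omega) hι hinj
  have he2' : ∀ k, N₁ ≤ k → e.symm k = k := fun k hk => by
    rw [Equiv.symm_apply_eq, he2 k hk]
  obtain ⟨r', hr'N, hr'⟩ := Cond.sat_ren r₁ e.symm he2' hr₁N.ge p (by omega)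
  have hr'c : r'.Cons := by
    refine ⟨M, A, v₀ ∘ e, (hr' M A _).2 ⟨?_, ?_⟩⟩
    · have : (v₀ ∘ e) ∘ e.symm = v₀ := by funext k; simp
      rw [this]; exact hv₀
    · refine (satA_congr A p.φ fun k hk => ?_).1 hφ
      show v₀ (ι k) = v₀ (e k)
      rw [he1 k (p.free k hk)]
  have hr'p : r' ≤ p := by
    refine ⟨by omega, fun M A v hv => ?_⟩
    have h1 := (hr' M A v).1 hv
    exact ⟨h1.1.1, h1.2, fun i hi j hj hij => hv.2.2 i (by omega) j (by omega) hij⟩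
  obtain ⟨s', hs'c, hs', z, hz, hgv⟩ := hV r' hr'c hr'p
  obtain ⟨s, hsN, hsm⟩ := Cond.sat_ren s' e he2 (by have := hs'.1; omega)
    ⟨0, .imp .bot .bot, fun k hk => by rcases hk with h | h <;> exact h.elim⟩ (Nat.zero_le _)
  have hsm' : ∀ (M : Type) (A : AStr M) (v : ℕ → M), s.Mod A v ↔ s'.Mod A (v ∘ e) :=
    fun M A v => (hsm M A v).trans ⟨fun h => h.1, fun h => ⟨h, fun h => h⟩⟩
  refine ⟨s, ?_, ?_, fun _ => Or.inr ⟨z, hz, fun M A v hv => ?_⟩⟩
  · obtain ⟨M, A, v, hv⟩ := hs'c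
    refine ⟨M, A, v ∘ e.symm, (hsm' _ _ _).2 ?_⟩
    have : (v ∘ e.symm) ∘ e = v := by funext k; simp
    rw [this]; exact hv
  · refine Cond.le_trans ⟨by have := hs'.1; omega, fun M A v hv => ?_⟩ hr₁
    have h1 := hs'.2 M A _ ((hsm' M A v).1 hv)
    have h2 := ((hr' M A _).1 h1).1
    have : (v ∘ e) ∘ e.symm = v := by funext k; simp
    rwa [this] at h2
  · refine gv_congr ?_ (hgv M A _ ((hsm' M A v).1 hv))
    intro i hi
    show v (e i) = v (ι i)
    rw [he1 i hi]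

/-- the assignments used in the enumeration -/
def lassg (m k : ℕ) : ℕ := (Denumerable.ofNat (List ℕ) m).getD k 0

theorem exists_lassg (N : ℕ) (u : ℕ → ℕ) : ∃ m, ∀ i < N, lassg m i = u i := by
  refine ⟨Encodable.encode ((List.range N).map u), fun i hi => ?_⟩
  unfold lassg
  rw [Denumerable.ofNat_encode, List.getD_eq_getElem?_getD, List.getElem?_map,
    List.getElem?_range hi]
  rfl

theorem win {n : ℕ} (hn : 2 ≤ n) (p : Cond) (hp : p.Cons) (hpn : HP true n p.P) (e : ℕ) :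
    ∃ σ : AFml, Hier true n σ ∧ (∀ k, ¬ freeA σ k) ∧ ∃ q : Cond, q.Cons ∧ q ≤ p ∧
      (Bad e σ q ∨ (HP true n q.P ∧ Miss e σ q)) := by
  classical
  obtain ⟨κ, hκ⟩ := exists_KK
  set N := p.N with hN
  -- the sentence
  obtain ⟨ψ, hψ, hψf, hψd⟩ := (psi_hp hκ hn p hpn).exists_free (N := 1) (by
    intro M A v w _ hvw h
    have : v 0 = w 0 := hvw 0 (by norm_num)
    unfold PSI at h ⊢
    rwa [this] at h)
  obtain ⟨f, hf⟩ := exists_fix {a : ℕ | (a.unpair.2.unpair.1 = 0 ∧ Good N a.unpair.2.unpair.2 ∧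
      PhiL e (tauOf a.unpair.2.unpair.2) (codeA (sb1 0 a.unpair.1 ψ)) 0) ∨
      (a.unpair.2.unpair.1 = 1 ∧ Good N a.unpair.2.unpair.2 ∧ ∃ j,
        PhiL e (tauOf a.unpair.2.unpair.2) (codeA (sb1 0 a.unpair.1 ψ)) (j + 1))} (by
    have u1 : Primrec fun p : ℕ => p.unpair.1 := Primrec.fst.comp Primrec.unpair
    have u2 : Primrec fun p : ℕ => p.unpair.2 := Primrec.snd.comp Primrec.unpair
    have c : Primrec fun a : ℕ => codeA (sb1 0 a.unpair.1 ψ) := (primrec_code_sb _ ψ).comp u1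
    refine re_or (re_and (re_dec ?_) (re_and (re_dec ?_) ?_))
      (re_and (re_dec ?_) (re_and (re_dec ?_) ?_))
    · exact Primrec.eq.comp (u1.comp u2) (Primrec.const 0)
    · exact (primrecPred_good N).comp (u2.comp u2)
    · exact re_phiL e (u2.comp u2).to_comp c.to_comp (Computable.const 0)
    · exact Primrec.eq.comp (u1.comp u2) (Primrec.const 1)
    · exact (primrecPred_good N).comp (u2.comp u2)
    · refine re_ex (P := fun a j => PhiL e (tauOf a.unpair.2.unpair.2)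
        (codeA (sb1 0 a.unpair.1 ψ)) (j + 1)) ?_
      exact re_phiL e ((u2.comp u2).comp u1).to_comp (c.comp u1).to_comp
        (Primrec.succ.comp u2).to_comp)
  set σ := sb1 0 f ψ with hσ
  have hf0 : ∀ y, Nat.pair 0 y ∈ W f ↔ Good N y ∧ PhiL e (tauOf y) (codeA σ) 0 := by
    intro y
    rw [hf, Set.mem_ofPred_eq]
    simp only [Nat.unpair_pair]
    constructor
    · rintro (⟨-, h⟩ | ⟨h, -⟩)
      · exact h
      · exact absurd h (by norm_num)
    · intro h; exact Or.inl ⟨trivial, h⟩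
  have hf1 : ∀ y, Nat.pair 1 y ∈ W f ↔ Good N y ∧ ∃ j, PhiL e (tauOf y) (codeA σ) (j + 1) := by
    intro y
    rw [hf, Set.mem_ofPred_eq]
    simp only [Nat.unpair_pair]
    constructor
    · rintro (⟨h, -⟩ | ⟨-, h⟩)
      · exact absurd h (by norm_num)
      · exact h
    · intro h; exact Or.inr ⟨trivial, h⟩
  have hσsat : ∀ (M : Type) (A : AStr M) (v : ℕ → M), IsPA A →
      (satA A σ v ↔ PSI κ p M A (update v 0 (num A f))) := fun M A v hA => by
    rw [hσ, sat_sb1]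
    exact hψd M A hA _
  have hσh : Hier true n σ := hier_sb _ _ hψ
  have hσf : ∀ k, ¬ freeA σ k := by
    intro k hk
    obtain ⟨h1, h2⟩ := (free_sb _ _ _ _).1 hk
    have := hψf k h2
    simp only [decide_eq_false_iff_not] at h1
    omega
  refine ⟨σ, hσh, hσf, ?_⟩
  by_contra hcon
  have hbad : ∀ q : Cond, q.Cons → q ≤ p → ¬ Bad e σ q := fun q hq hqp h =>
    hcon ⟨q, hq, hqp, Or.inl h⟩
  have hmiss : ∀ q : Cond, q.Cons → q ≤ p → HP true n q.P → ¬ Miss e σ q := fun q hq hqp h h' =>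
    hcon ⟨q, hq, hqp, Or.inr ⟨h, h'⟩⟩
  -- computations are forced
  have hV : ∀ s : Cond, s.Cons → s ≤ p → ∃ s' : Cond, s'.Cons ∧ s' ≤ s ∧ ∃ z,
      (Nat.pair 0 z ∈ W f ∨ Nat.pair 1 z ∈ W f) ∧ s'.Sat (GV κ 0 N z) := by
    intro s hs hsp
    have h1 : ¬ ∀ s' : Cond, s'.Cons → s' ≤ s → ∀ τ y, F 0 s' τ →
        ¬ PhiL e τ (codeA σ) y := fun h => hbad s hs hsp (Or.inl h)
    push Not at h1
    obtain ⟨s', hs'c, hs', τ, y, hF, hphi⟩ := h1
    obtain ⟨z, hz1, hz2, hz3⟩ := exists_code_F0 (κ := κ) ((Cond.le_trans hs' hsp).1) hF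
    refine ⟨s', hs'c, hs', z, ?_, hz3⟩
    cases y with
    | zero => exact Or.inl ((hf0 z).2 ⟨hz1, by rw [hz2]; exact hphi⟩)
    | succ y => exact Or.inr ((hf1 z).2 ⟨hz1, y, by rw [hz2]; exact hphi⟩)
  -- the answer `no` is contradicted by another answer
  have hN1 : ∀ (M : Type) (A : AStr M) (v : ℕ → M), p.Mod A v → ∀ y w,
      KR κ std 0 f y w → GV κ 0 N y M A v →
      ∃ z ≤ y + w, ∃ z' ≤ y + w, KR κ std 1 f z z' ∧ GV κ 0 N z M A v := by
    intro M A v hv y w hyw hg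
    by_contra hno
    push Not at hno
    obtain ⟨hgood, hphi⟩ := (hf0 y).1 ((hκ.2.2 0 f y).2 ⟨w, hyw⟩)
    have hQ : HP true n fun M A v => ∀ z < y + w + 1, (∃ z' ≤ y + w, KR κ std 1 f z z') →
        ¬ GV κ 0 N z M A v := by
      refine HP.ballN (P := fun z M A v => (∃ z' ≤ y + w, KR κ std 1 f z z') →
        ¬ GV κ 0 N z M A v) (y + w + 1) fun z _ => ?_
      by_cases hz : ∃ z' ≤ y + w, KR κ std 1 f z z'
      · exact ((gv_hp hκ 0 N z).not.flip true (by omega)).congr fun M A v _ => by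
          simp [hz]
      · exact HP.triv.congr fun M A v _ => by simp [hz]
    obtain ⟨q, hqp, hqn, hqQ, hqF, hqG, hqc⟩ := exists_facts hκ (by omega) p hpn hgood hQ (by
      intro M A v w _ hvw h z hz hz' hg
      exact h z hz hz' (gv_congr (fun k hk => (hvw k hk).symm) hg))
    obtain ⟨v', -, hv'⟩ := hqc M A v hv hg (by
      rintro z hz ⟨z', hz', hk⟩
      exact hno z (by omega) z' hz' hk)
    refine hmiss q ⟨M, A, v', hv'⟩ hqp hqn ⟨tauOf y, hqF, hphi, fun M A v hv => ?_⟩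
    refine (hσsat M A v hv.1).2 ?_
    have hvp := hqp.2 M A v hv
    refine ⟨v, hvp.2.1, hvp.2.2, num A y, num A w, ?_, ?_, ?_⟩
    · rw [update_self]; exact (kr_num hκ hv.1 0 f y w).2 hyw
    · exact hqG M A v hv
    · intro z z' hz hz' hk b c hbc hG
      rw [update_self] at hk
      rw [← Sig.num_add hv.1] at hz hz'
      obtain ⟨z₁, hz₁, rfl⟩ := le_num hv.1 hz
      obtain ⟨z₁', hz₁', rfl⟩ := le_num hv.1 hz'
      exact hqQ M A v hv z₁ (by omega) ⟨z₁', hz₁', (kr_num hκ hv.1 1 f z₁ z₁').1 hk⟩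
        ⟨b, c, hbc, hG⟩
  -- the union of the two sets
  have hN2 : ∀ (M : Type) (A : AStr M) (v : ℕ → M), p.Mod A v → ∀ z,
      (Nat.pair 0 z ∈ W f ∨ Nat.pair 1 z ∈ W f) → GV κ 0 N z M A v →
      ∃ z z', KR κ std 1 f z z' ∧ GV κ 0 N z M A v := by
    intro M A v hv z hz hg
    rcases hz with hz | hz
    · obtain ⟨w, hw⟩ := (hκ.2.2 0 f z).1 hz
      obtain ⟨z₁, -, z₁', -, h1, h2⟩ := hN1 M A v hv z w hw hg
      exact ⟨z₁, z₁', h1, h2⟩
    · obtain ⟨w, hw⟩ := (hκ.2.2 1 f z).1 hz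
      exact ⟨z, w, hw, hg⟩
  -- a condition which forces `σ`
  obtain ⟨z₁, hz₁, M₁, A₁, v₁, hv₁, hg₁⟩ : ∃ z₁, Nat.pair 1 z₁ ∈ W f ∧ ∃ (M : Type) (A : AStr M)
      (v : ℕ → M), p.Mod A v ∧ GV κ 0 N z₁ M A v := by
    obtain ⟨s', ⟨M, A, v, hv⟩, hs', z, hz, hsat⟩ := hV p hp (Cond.le_refl p)
    obtain ⟨z₁, z₁', h1, h2⟩ := hN2 M A v (hs'.2 M A v hv) z hz (hsat M A v hv)
    exact ⟨z₁, (hκ.2.2 1 f z₁).2 ⟨z₁', h1⟩, M, A, v, hs'.2 M A v hv, h2⟩
  obtain ⟨hgood₁, j₁, hphi₁⟩ := (hf1 z₁).1 hz₁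
  obtain ⟨s₁, hs₁p, -, -, hs₁F, -, hs₁c⟩ := exists_facts hκ (by omega) p hpn hgood₁
    (Q := fun _ _ _ => True) HP.triv (fun _ _ _ _ _ _ _ => trivial)
  obtain ⟨v₁', -, hv₁'⟩ := hs₁c M₁ A₁ v₁ hv₁ hg₁ trivial
  have hs₁cons : s₁.Cons := ⟨M₁, A₁, v₁', hv₁'⟩
  have hs₁σ : s₁.Sat fun _ A v => satA A σ v := by
    intro M A v hv
    by_contra hns
    obtain ⟨q, hqN, hqs, hqm⟩ := exists_and s₁ s₁.N le_rfl (Fml.neg σ) (fun k hk =>
      absurd ((Fml.free_neg σ k).1 hk) (hσf k))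
    refine hbad q ⟨M, A, v, (hqm M A v).2 ⟨hv.1, hv.2.1, hns, hv.2.2⟩⟩
      (Cond.le_trans hqs hs₁p) (Or.inr ⟨tauOf z₁, j₁, F_mono hqs hs₁F, hphi₁, fun M A v hv => ?_⟩)
    exact ((hqm M A v).1 hv).2.2.1
  -- a generic model
  obtain ⟨A, g, hG, hg0, hgD⟩ := exists_generic s₁ hs₁cons (fun m s =>
      (∀ i < N, ∀ j < N, lassg m i = lassg m j → i = j) →
      ((s.Sat fun _ A v => ¬ satA A p.φ (v ∘ lassg m)) ∨
        ∃ z, (Nat.pair 0 z ∈ W f ∨ Nat.pair 1 z ∈ W f) ∧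
          s.Sat fun M A v => GV κ 0 N z M A (v ∘ lassg m))) (fun m r hr hrs =>
    dense_E p hV (lassg m) r hr)
  have hAσ : satA A σ id := hG.sound σ id 0 fun M B v hv => hs₁σ M B _ (hg0.2 M B v hv)
  obtain ⟨u, hu1, hu2, y, w, hyw, ⟨b, c, hbc, hGbc⟩, hlast⟩ := (hσsat ℕ A id hG.pa).1 hAσ
  rw [update_self] at hyw hlast
  obtain ⟨m, hm⟩ := exists_lassg N u
  have hpu : p.Mod A u := ⟨hG.pa, hu1, hu2⟩
  obtain ⟨j, hj⟩ := hgD m
  obtain ⟨z, z', hz, hgz⟩ : ∃ z z', KR κ std 1 f z z' ∧ GV κ 0 N z ℕ A u := by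
    rcases hj (fun i hi j hj hij => hu2 i hi j hj (by rw [← hm i hi, ← hm j hj, hij])) with
      h1 | ⟨z, hz, h1⟩
    · have h2 : satA A (Fml.neg p.φ) (lassg m) := hG.sound _ _ j h1
      refine absurd ?_ h2
      exact (satA_congr A p.φ fun k hk => hm k (p.free k hk)).2 hu1
    · obtain ⟨φ, -, hφ⟩ := gv_hp hκ 0 N z
      have h2 : satA A φ (lassg m) := hG.sound _ _ j fun M B v hv =>
        (hφ M B hv.1 _).2 (h1 M B v hv)
      exact hN2 ℕ A u hpu z hz (gv_congr hm ((hφ ℕ A hG.pa _).1 h2))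
  obtain ⟨b', c', hbc', hG'⟩ := hgz
  by_cases hle : A.le (num A z) (A.add y w) ∧ A.le (num A z') (A.add y w)
  · exact hlast _ _ hle.1 hle.2 ((kr_num hκ hG.pa 1 f z z').2 hz) b' c' hbc' hG'
  · obtain ⟨k, hk⟩ : ∃ k, A.le (A.add y w) (num A k) := by
      by_cases h1 : A.le (num A z) (A.add y w)
      · exact ⟨z', le_of_not_le hG.pa fun h2 => hle ⟨h1, h2⟩⟩
      · exact ⟨z, le_of_not_le hG.pa h1⟩
    obtain ⟨k', -, hk'⟩ := le_num hG.pa hk
    have hy : A.le y (num A k') := ⟨w, by rw [← hk', hG.pa.add_comm]⟩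
    have hw : A.le w (num A k') := ⟨y, by rw [← hk']⟩
    obtain ⟨y₁, -, rfl⟩ := le_num hG.pa hy
    obtain ⟨w₁, -, rfl⟩ := le_num hG.pa hw
    obtain ⟨z₂, hz₂, z₂', hz₂', hk₂, b₂, c₂, hbc₂, hG₂⟩ := hN1 ℕ A u hpu y₁ w₁
      ((kr_num hκ hG.pa 0 f y₁ w₁).1 hyw) ⟨b, c, hbc, hGbc⟩
    have hmono : ∀ {a b : ℕ}, a ≤ b → A.le (num A a) (num A b) := fun {a b} hab =>
      ⟨num A (b - a), by rw [← Sig.num_add hG.pa]; congr 1; omega⟩
    refine hlast (num A z₂) (num A z₂') ?_ ?_ ((kr_num hκ hG.pa 1 f z₂ z₂').2 hk₂) b₂ c₂ hbc₂ hG₂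
    · rw [← Sig.num_add hG.pa]; exact hmono hz₂
    · rw [← Sig.num_add hG.pa]; exact hmono hz₂'

end H87.SF
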